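import Pool.Agent.Helper8.Mono.Deg

/-!
From the data of a family of paths to the sieve; Chinese remainders.
-/

set_option autoImplicit false

namespace Pool.Agent.Helper8.Mono

open Polynomial Finset

/-- the quotients of the path -/
def LL1 {R : Type*} [CommRing R] (γ0 γ1 q0 q1 : R) (e d : List R) (k : R) : List R :=
  (γ0 + γ1 * k) :: (e ++ (q0 + q1 * k) :: d)

/-- the quotients of the path, as polynomials -/
noncomputable def LP (γ0 γ1 q0 q1 : ℤ) (e d : List ℤ) : List ℤ[X] :=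
  (C γ0 + C γ1 * X) :: (e.map C ++ (C q0 + C q1 * X) :: d.map C)

lemma map_C_eval (k : ℤ) (e : List ℤ) : (e.map (C : ℤ →+* ℤ[X])).map (evalRingHom k) = e := by
  rw [List.map_map]
  conv_rhs => rw [← List.map_id e]
  apply List.map_congr_left
  intro c _
  simp

lemma LP_eval (γ0 γ1 q0 q1 : ℤ) (e d : List ℤ) (k : ℤ) :
    (LP γ0 γ1 q0 q1 e d).map (evalRingHom k) = LL1 γ0 γ1 q0 q1 e d k := by
  unfold LP LL1
  rw [List.map_cons, List.map_append, List.map_cons, map_C_eval, map_C_eval]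
  simp

lemma LL1_cast {p : ℕ} (γ0 γ1 q0 q1 : ℤ) (e d : List ℤ) (k : ℤ) :
    (LL1 γ0 γ1 q0 q1 e d k).map (Int.castRingHom (ZMod p)) =
      LL1 (γ0 : ZMod p) (γ1 : ZMod p) (q0 : ZMod p) (q1 : ZMod p)
        (e.map (Int.castRingHom (ZMod p))) (d.map (Int.castRingHom (ZMod p))) (k : ZMod p) := by
  unfold LL1
  simp

lemma prodT_start {R : Type*} [CommRing R] (a : R) (cs : List R) :
    ∃ w : R, ((Ts a 0 1 1 0 cs).map (fun t => t ^ 2 + a)).prod = w ^ 2 *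
        ((En 0 1 1 0 cs).2.2.1 ^ 2 + a * (En 0 1 1 0 cs).2.2.2 ^ 2) := by
  by_cases h : cs = []
  · refine ⟨1, ?_⟩
    rw [h]
    simp [Ts, En]
  · obtain ⟨w, hw⟩ := prodT a cs 0 1 1 0 h (by ring)
    refine ⟨w, ?_⟩
    rw [hw]
    ring

/-- number of zeros of a polynomial modulo `p`, in two forms -/
lemma count_range (G : ℤ[X]) {p : ℕ} (f : ZMod p → ZMod p)
    (hf : ∀ k : ℤ, ((G.eval k : ℤ) : ZMod p) = f (k : ZMod p)) [Fact p.Prime] (n : ℕ)
    (hn : (univ.filter (fun k : ZMod p => f k = 0)).card ≤ n) :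
    ((range p).filter (fun k : ℕ => (p : ℤ) ∣ G.eval (k : ℤ))).card ≤ n := by
  refine le_trans (card_le_card_of_injOn (fun k : ℕ => (k : ZMod p)) ?_ ?_) hn
  · intro k hk
    rw [mem_coe, mem_filter] at hk
    rw [mem_coe, mem_filter]
    refine ⟨mem_univ _, ?_⟩
    have h1 : ((G.eval (k : ℤ) : ℤ) : ZMod p) = 0 := (ZMod.intCast_zmod_eq_zero_iff_dvd _ _).2 hk.2
    rw [hf] at h1
    simpa using h1
  · intro k hk l hl hkl
    rw [mem_coe, mem_filter, mem_range] at hk hl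
    have h2 : k ≡ l [MOD p] := (ZMod.natCast_eq_natCast_iff _ _ _).1 hkl
    exact Nat.ModEq.eq_of_lt_of_lt h2 hk.1 hl.1

theorem build (a γ0 γ1 q0 q1 : ℤ) (e d : List ℤ) (L2 : List ℤ[X]) (G2 : ℤ[X]) (n2 : ℕ)
    (he : ∀ c ∈ e, 2 ≤ |c|) (hd : ∀ c ∈ d, 2 ≤ |c|) (hγ : γ1 ≠ 0) (hq : q1 ≠ 0)
    (hT2 : ∀ t ∈ Ts (C a) 0 1 1 0 L2, 1 ≤ t.natDegree ∧ t.natDegree ≤ 4)
    (hodd : Odd (e.length + d.length + 2 + L2.length))
    (hG2 : ∀ (k : ℤ) (p : ℕ), p.Prime → (p : ℤ) ∣ (Qs a 0 1 1 0 (L2.map (evalRingHom k))).prod →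
      (p : ℤ) ∣ (Qs a 0 1 1 0 (LL1 γ0 γ1 q0 q1 e d k)).prod * G2.eval k)
    (hend : ∀ k : ℤ, ∃ z : ℤ, ((En 0 1 1 0 (LL1 γ0 γ1 q0 q1 e d k)).2.2.1 ^ 2 +
      a * (En 0 1 1 0 (LL1 γ0 γ1 q0 q1 e d k)).2.2.2 ^ 2) *
      ((En 0 1 1 0 (L2.map (evalRingHom k))).2.2.1 ^ 2 +
      a * (En 0 1 1 0 (L2.map (evalRingHom k))).2.2.2 ^ 2) = z ^ 2)
    (hcount : 2 * (e.length + 1) + 4 * (d.length + 1) + n2 ≤ 26)
    (w' ρ' w ρ : ℤ) (hE : En 0 1 1 0 e = (w', ρ', w, ρ))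
    (hbig : ∀ p : ℕ, p.Prime → 37 ≤ p → (q1 : ZMod p) ≠ 0 ∧
      (((γ1 : ZMod p) ≠ 0 ∧ ((w : ZMod p) = 0 → (q1 : ZMod p) * ρ + γ1 * w' ≠ 0)) ∨
      ((γ1 : ZMod p) = 0 ∧ (Qs (a : ZMod p) 0 1 1 0 ((γ0 : ZMod p) ::
        e.map (Int.castRingHom (ZMod p)))).prod ≠ 0)))
    (f2 : ∀ p : ℕ, ZMod p → ZMod p)
    (hf2 : ∀ (p : ℕ) (k : ℤ), ((G2.eval k : ℤ) : ZMod p) = f2 p (k : ZMod p))
    (hbig2 : ∀ (p : ℕ) (_ : Fact p.Prime), 37 ≤ p →
      (univ.filter (fun k : ZMod p => f2 p k = 0)).card ≤ n2)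
    (k0 : ℕ) (hk0 : ∀ p : ℕ, p.Prime → p < 37 →
      ¬ (p : ℤ) ∣ (Qs a 0 1 1 0 (LL1 γ0 γ1 q0 q1 e d (k0 : ℤ))).prod * G2.eval (k0 : ℤ)) :
    Nonempty (Eng a) := by
  set L := LP γ0 γ1 q0 q1 e d with hL
  set TL := Ts (C a) 0 1 1 0 L ++ Ts (C a) 0 1 1 0 L2 with hTL
  have hlen : TL.length = e.length + d.length + 2 + L2.length := by
    rw [hTL, List.length_append, Ts_length, Ts_length, hL]
    unfold LP
    simp
    omega
  have hdeg : ∀ t ∈ TL, 1 ≤ t.natDegree ∧ t.natDegree ≤ 4 := by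
    intro t ht
    rw [hTL, List.mem_append] at ht
    rcases ht with ht | ht
    · exact degT a γ0 γ1 q0 q1 e d he hd hγ hq t ht
    · exact hT2 t ht
  have hTs : ∀ (k : ℤ) (l : List ℤ[X]), (Ts (C a) 0 1 1 0 l).map (evalRingHom k) =
      Ts a 0 1 1 0 (l.map (evalRingHom k)) := by
    intro k l
    have := Ts_map (evalRingHom k) (C a) l 0 1 1 0
    simpa using this
  have hQL : ∀ k : ℤ, ((Qs (C a) 0 1 1 0 L).prod).eval k =
      (Qs a 0 1 1 0 (LL1 γ0 γ1 q0 q1 e d k)).prod := by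
    intro k
    have h1 := Qs_map (evalRingHom k) (C a) L 0 1 1 0
    rw [hL, LP_eval] at h1
    have h2 : (evalRingHom k) ((Qs (C a) 0 1 1 0 L).prod) =
        ((Qs (C a) 0 1 1 0 L).map (evalRingHom k)).prod := map_list_prod _ _
    rw [hL, h1] at h2
    simpa using h2
  refine ⟨{ n := TL.length, hn := by rw [hlen]; exact hodd, T := fun i => TL.get i,
            T1 := fun i => (hdeg _ (List.get_mem _ _)).1,
            T4 := fun i => (hdeg _ (List.get_mem _ _)).2,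
            G := (Qs (C a) 0 1 1 0 L).prod * G2, hG := ?_, hsq := ?_, h37 := ?_,
            k0 := k0, hk0 := ?_ }⟩
  · intro k i p hp hdv
    rw [eval_mul, hQL]
    obtain ⟨t, ht⟩ : ∃ t, t = TL.get i := ⟨_, rfl⟩
    have hmem : t ∈ TL := by rw [ht]; exact List.get_mem TL i
    rw [← ht] at hdv
    rw [hTL, List.mem_append] at hmem
    rcases hmem with hm | hm
    · have h1 : t.eval k ∈ Ts a 0 1 1 0 (LL1 γ0 γ1 q0 q1 e d k) := by
        rw [← LP_eval, ← hTs]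
        exact List.mem_map_of_mem (f := evalRingHom k) hm
      have h2 := dvd_Qs a _ 0 1 1 0 (by ring) p hp _ h1 hdv
      have h3 : ((1 : ℤ) ^ 2 + a * 0 ^ 2) = 1 := by ring
      rw [h3, one_mul] at h2
      exact h2.mul_right _
    · have h1 : t.eval k ∈ Ts a 0 1 1 0 (L2.map (evalRingHom k)) := by
        rw [← hTs]
        exact List.mem_map_of_mem (f := evalRingHom k) hm
      have h2 := dvd_Qs a _ 0 1 1 0 (by ring) p hp _ h1 hdv
      have h3 : ((1 : ℤ) ^ 2 + a * 0 ^ 2) = 1 := by ring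
      rw [h3, one_mul] at h2
      exact hG2 k p hp h2
  · intro k
    have h1 : ∏ i : Fin TL.length, ((TL.get i).eval k ^ 2 + a) =
        (TL.map (fun t => t.eval k ^ 2 + a)).prod := by
      have := Fin.prod_univ_fun_getElem TL (fun t : ℤ[X] => t.eval k ^ 2 + a)
      simpa using this
    rw [h1, hTL, List.map_append, List.prod_append]
    obtain ⟨w1, hw1⟩ := prodT_start a (LL1 γ0 γ1 q0 q1 e d k)
    obtain ⟨w2, hw2⟩ := prodT_start a (L2.map (evalRingHom k))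
    rw [← LP_eval, ← hTs, List.map_map] at hw1
    rw [← hTs, List.map_map] at hw2
    rw [LP_eval] at hw1
    obtain ⟨z, hz⟩ := hend k
    refine ⟨w1 * w2 * z, ?_⟩
    have e1 : ((fun t : ℤ => t ^ 2 + a) ∘ ⇑(evalRingHom k)) =
        (fun t : ℤ[X] => t.eval k ^ 2 + a) := rfl
    rw [e1] at hw1 hw2
    rw [hw1, hw2]
    rw [mul_pow, mul_pow, ← hz]
    ring
  · intro p hp h37
    have hF : Fact p.Prime := ⟨hp⟩
    obtain ⟨hq1, H⟩ := hbig p hp h37
    have hE' : En (0 : ZMod p) 1 1 0 (e.map (Int.castRingHom (ZMod p))) =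
        ((w' : ZMod p), (ρ' : ZMod p), (w : ZMod p), (ρ : ZMod p)) := by
      have h := En_map (Int.castRingHom (ZMod p)) e 0 1 1 0
      rw [hE] at h
      simpa using h
    have hz1 := zerosPath (a : ZMod p) (γ0 : ZMod p) γ1 q0 q1 (e.map (Int.castRingHom (ZMod p)))
      (d.map (Int.castRingHom (ZMod p))) w' ρ' w ρ hE' hq1 H
    have hz2 := hbig2 p hF h37
    refine count_range _ (fun k => (Qs (a : ZMod p) 0 1 1 0 (LL1 (γ0 : ZMod p) γ1 q0 q1
      (e.map (Int.castRingHom (ZMod p))) (d.map (Int.castRingHom (ZMod p))) k)).prod * f2 p k)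
      ?_ 26 ?_
    · intro k
      rw [eval_mul, hQL, Int.cast_mul, hf2]
      congr 1
      have h1 := Qs_map (Int.castRingHom (ZMod p)) a (LL1 γ0 γ1 q0 q1 e d k) 0 1 1 0
      rw [LL1_cast] at h1
      have h2 : (Int.castRingHom (ZMod p)) ((Qs a 0 1 1 0 (LL1 γ0 γ1 q0 q1 e d k)).prod) =
        ((Qs a 0 1 1 0 (LL1 γ0 γ1 q0 q1 e d k)).map (Int.castRingHom (ZMod p))).prod :=
        map_list_prod _ _
      rw [h1] at h2
      simpa using h2
    · have hsub : (univ.filter (fun k : ZMod p => (Qs (a : ZMod p) 0 1 1 0 (LL1 (γ0 : ZMod p) γ1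
          q0 q1 (e.map (Int.castRingHom (ZMod p))) (d.map (Int.castRingHom (ZMod p))) k)).prod *
          f2 p k = 0)) ⊆ (univ.filter (fun k : ZMod p => (Qs (a : ZMod p) 0 1 1 0
          (LL1 (γ0 : ZMod p) γ1 q0 q1 (e.map (Int.castRingHom (ZMod p)))
          (d.map (Int.castRingHom (ZMod p))) k)).prod = 0)) ∪
          (univ.filter (fun k : ZMod p => f2 p k = 0)) := by
        intro k hk
        rw [mem_filter] at hk
        rw [mem_union, mem_filter, mem_filter]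
        rcases mul_eq_zero.1 hk.2 with h | h
        · exact Or.inl ⟨mem_univ _, h⟩
        · exact Or.inr ⟨mem_univ _, h⟩
      have h1 := (card_le_card hsub).trans (card_union_le _ _)
      rw [List.length_map, List.length_map] at hz1
      unfold LL1 at h1 ⊢
      omega
  · intro p hp h37
    rw [eval_mul, hQL]
    exact hk0 p hp h37

/-- Chinese remainders for a finite set of primes -/
lemma crt_int (S : Finset ℕ) (hS : ∀ p ∈ S, p.Prime) (r : ℕ → ℤ) :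
    ∃ x : ℤ, ∀ p ∈ S, x ≡ r p [ZMOD p] := by
  induction S using Finset.induction_on with
  | empty => exact ⟨0, fun p hp => absurd hp (notMem_empty p)⟩
  | insert p S hpS ih =>
    obtain ⟨x, hx⟩ := ih (fun q hq => hS q (mem_insert_of_mem hq))
    have hp := hS p (mem_insert_self _ _)
    have hcop : Nat.Coprime (∏ q ∈ S, q) p := by
      apply Nat.Coprime.prod_left
      intro q hq
      exact (Nat.coprime_primes (hS q (mem_insert_of_mem hq)) hp).2 (fun h => hpS (h ▸ hq))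
    have hcop' : IsCoprime (((∏ q ∈ S, q : ℕ) : ℤ)) (p : ℤ) := Nat.isCoprime_iff_coprime.2 hcop
    obtain ⟨u, v, huv⟩ := hcop'
    refine ⟨x + u * ((∏ q ∈ S, q : ℕ) : ℤ) * (r p - x), fun q hq => ?_⟩
    rw [mem_insert] at hq
    rcases hq with rfl | hq
    · rw [Int.modEq_iff_dvd]
      refine ⟨v * (r q - x), ?_⟩
      linear_combination (-(r q - x)) * huv
    · refine Int.ModEq.trans ?_ (hx q hq)
      rw [Int.modEq_iff_dvd]
      have h1 : (q : ℤ) ∣ ((∏ q ∈ S, q : ℕ) : ℤ) := by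
        exact_mod_cast Finset.dvd_prod_of_mem (fun q => q) hq
      have h2 : x - (x + u * ((∏ q ∈ S, q : ℕ) : ℤ) * (r p - x)) =
        ((∏ q ∈ S, q : ℕ) : ℤ) * (-(u * (r p - x))) := by ring
      rw [h2]
      exact h1.mul_right _

/-- choice of the parameters -/
theorem pick (good : ℕ → ℤ → ℤ → Prop)
    (hcong : ∀ (p : ℕ) (y y' k k' : ℤ), y ≡ y' [ZMOD p] → k ≡ k' [ZMOD p] →
      good p y k → good p y' k')
    (htab : ∀ p : ℕ, p.Prime → p < 37 → ∃ y k : ℤ, good p y k)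
    (S : Finset ℕ) (hS : ∀ p ∈ S, p.Prime) (hS37 : ∀ p ∈ S, 37 ≤ p) (Cc : ℕ → ℤ → Prop)
    (hC : ∀ p ∈ S, ∃ r : ℤ, ∀ y : ℤ, y ≡ r [ZMOD p] → Cc p y) :
    ∃ (y : ℤ) (k0 : ℕ), (∀ p : ℕ, p.Prime → p < 37 → good p y (k0 : ℤ)) ∧ ∀ p ∈ S, Cc p y := by
  classical
  set P : Finset ℕ := (range 37).filter (fun p => p.Prime) with hP
  have hPp : ∀ p ∈ P, p.Prime := fun p hp => (mem_filter.1 hp).2
  have hPm : ∀ p : ℕ, p.Prime → p < 37 → p ∈ P := fun p hp h =>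
    mem_filter.2 ⟨mem_range.2 h, hp⟩
  have h1 : ∀ p : ℕ, ∃ y k : ℤ, (p.Prime → p < 37 → good p y k) := by
    intro p
    by_cases h : p.Prime ∧ p < 37
    · obtain ⟨y, k, hyk⟩ := htab p h.1 h.2
      exact ⟨y, k, fun _ _ => hyk⟩
    · exact ⟨0, 0, fun h1 h2 => absurd ⟨h1, h2⟩ h⟩
  choose fy fk hf using h1
  have h2 : ∀ p : ℕ, ∃ r : ℤ, (p ∈ S → ∀ y : ℤ, y ≡ r [ZMOD p] → Cc p y) := by
    intro p
    by_cases h : p ∈ S
    · obtain ⟨r, hr⟩ := hC p h
      exact ⟨r, fun _ => hr⟩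
    · exact ⟨0, fun h1 => absurd h1 h⟩
  choose fr hr using h2
  obtain ⟨y, hy⟩ := crt_int (P ∪ S) (by
    intro p hp
    rcases mem_union.1 hp with h | h
    · exact hPp p h
    · exact hS p h) (fun p => if p < 37 then fy p else fr p)
  obtain ⟨k, hk⟩ := crt_int P hPp fk
  have hMM : (0 : ℤ) < MM := by unfold MM; norm_num
  refine ⟨y, (k % (MM : ℤ)).toNat, fun p hp h37 => ?_, fun p hp => ?_⟩
  · have hyp := hy p (mem_union_left _ (hPm p hp h37))
    rw [if_pos h37] at hyp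
    have hkp := hk p (hPm p hp h37)
    refine hcong p (fy p) y (fk p) _ hyp.symm ?_ (hf p hp h37)
    rw [Int.toNat_of_nonneg (Int.emod_nonneg _ hMM.ne')]
    have h3 : (p : ℤ) ∣ (MM : ℤ) := by
      have h4 : p ∣ MM := by
        rw [MM_eq]
        have h2 := hp.two_le
        interval_cases p <;> first | decide | (exfalso; revert hp; norm_num)
      exact_mod_cast h4
    exact hkp.symm.trans ((Int.mod_modEq k (MM : ℤ)).symm.of_dvd h3)
  · have h37 := hS37 p hp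
    have hyp := hy p (mem_union_right _ hp)
    rw [if_neg (by omega)] at hyp
    exact hr p hp y hyp

/-- `A ^ 2 + a B ^ 2` does not vanish if `-a` is not a square -/
lemma norm_ne {a : ℤ} (ha : ¬ IsSquare (-a)) (A : ℤ) {B : ℤ} (hB : B ≠ 0) :
    A ^ 2 + a * B ^ 2 ≠ 0 := by
  intro h
  apply ha
  have h1 : B ^ 2 ∣ A ^ 2 := ⟨-a, by linear_combination h⟩
  have h2 : B ∣ A := (Int.pow_dvd_pow_iff two_ne_zero).1 h1
  obtain ⟨c, hc⟩ := h2
  refine ⟨c, ?_⟩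
  have h3 : B ^ 2 * (c * c + a) = 0 := by
    rw [hc] at h
    linear_combination h
  rcases mul_eq_zero.1 h3 with h4 | h4
  · exact absurd (pow_eq_zero_iff (two_ne_zero) |>.1 h4) hB
  · linear_combination -h4

end Pool.Agent.Helper8.Mono
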