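import Pool.Agent.Helper8.Mono.Tab

/-!
A family of pairs of paths for even `a`.
-/

set_option autoImplicit false

namespace Pool.Agent.Helper8.Mono

open Polynomial Finset

theorem buildE (m h s w w' ρ' : ℤ) (e : List ℤ) (p0 p1 p2 : ℤ) (k0 : ℕ)
    (hE : En 0 1 1 0 e = (w', ρ', w, -(h ^ 2 * w')))
    (hdet : ρ' * w = 1 - h ^ 2 * w' ^ 2) (hs : s ^ 2 = 1) (hh : ∃ n : ℕ, h = n ∧ 0 < n ∧ n < 37)
    (hp0 : h * p0 = w * ((1 - 2 * m * w' * w) ^ 2 + 2 * m) +
      2 * (1 - 2 * m * w' * w) * (-(h ^ 2 * w')) - h ^ 2 * ρ' - s)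
    (hp1 : h * p1 = 2 * (-2 * (h ^ 2 + 2 * m * w ^ 2)) *
      (w * (1 - 2 * m * w' * w) - h ^ 2 * w'))
    (hp2 : h * p2 = w * (-2 * (h ^ 2 + 2 * m * w ^ 2)) ^ 2)
    (he : ∀ c ∈ e, 2 ≤ |c|) (hlen : e.length = 4 ∨ e.length = 6)
    (hC2 : 2 ≤ |h ^ 2 + 2 * m * w ^ 2|) (hw : w ≠ 0)
    (hbad : ∀ p : ℕ, p.Prime → 37 ≤ p → ((h ^ 2 + 2 * m * w ^ 2 : ℤ) : ZMod p) = 0 →
      (Qs ((8 * m : ℤ) : ZMod p) 0 1 1 0 (((1 - 2 * m * w' * w : ℤ) : ZMod p) ::
        e.map (Int.castRingHom (ZMod p)))).prod ≠ 0 ∧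
      (((8 * m + 4 * h ^ 2) * (4 * h ^ 2 * (1 + 8 * m) ^ 2 + 8 * m) : ℤ) : ZMod p) ≠ 0)
    (hk0 : ∀ p : ℕ, p.Prime → p < 37 →
      ¬ (p : ℤ) ∣ (Qs (8 * m) 0 1 1 0 (LL1 (1 - 2 * m * w' * w) (-2 * (h ^ 2 + 2 * m * w ^ 2)) 0 2 e
        [-(h ^ 2 + 2 * m * w ^ 2)] (k0 : ℤ))).prod *
          ((p0 + p1 * k0 + p2 * k0 ^ 2) ^ 2 + 8 * m)) :
    Nonempty (Eng (8 * m)) := by
  obtain ⟨n, hn, hn0, hn37⟩ := hh
  have hh0 : h ≠ 0 := by omega
  set γ0 := 1 - 2 * m * w' * w with hγ0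
  set C' := h ^ 2 + 2 * m * w ^ 2 with hC'
  have hC0 : C' ≠ 0 := by
    intro h0
    rw [h0] at hC2
    norm_num at hC2
  have hγ1 : -2 * C' ≠ 0 := mul_ne_zero (by norm_num) hC0
  have hp2n : p2 ≠ 0 := by
    intro h0
    rw [h0, mul_zero] at hp2
    exact (mul_ne_zero hw (pow_ne_zero 2 hγ1)) hp2.symm
  have hhs : h * s ≠ 0 := by
    refine mul_ne_zero hh0 ?_
    intro h0
    rw [h0] at hs
    norm_num at hs
  set P := poly5 p0 p1 p2 0 0 with hP
  have hPe : ∀ k : ℤ, P.eval k = p0 + p1 * k + p2 * k ^ 2 := by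
    intro k
    rw [hP, poly5_eval]
    ring
  have hP1 : 1 ≤ P.natDegree := poly5_ge _ _ _ _ _ (Or.inr (Or.inl hp2n))
  have hP4 : P.natDegree ≤ 4 := poly5_deg _ _ _ _ _
  have hP2 : C (h * s) * P ^ 2 + P + C (8 * m * (h * s)) =
      poly5 (h * s * p0 ^ 2 + p0 + 8 * m * (h * s)) (2 * (h * s) * p0 * p1 + p1)
        (h * s * (p1 ^ 2 + 2 * p0 * p2) + p2) (2 * (h * s) * p1 * p2) (h * s * p2 ^ 2) := by
    rw [hP]
    unfold poly5
    simp only [map_add, map_mul, map_pow, map_zero, C_ofNat]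
    ring
  -- the end of the first path
  have hend1 : ∀ k : ℤ, (En 0 1 1 0 (LL1 γ0 (-2 * C') 0 2 e [-C'] k)).2.2.1 ^ 2 +
      8 * m * (En 0 1 1 0 (LL1 γ0 (-2 * C') 0 2 e [-C'] k)).2.2.2 ^ 2 =
      (h * (p0 + p1 * k + p2 * k ^ 2) + s) ^ 2 + 8 * m * h ^ 2 := by
    intro k
    have h1 : En 0 1 1 0 (LL1 γ0 (-2 * C') 0 2 e [-C'] k) =
        En ((γ0 + -2 * C' * k) * w' + ρ') w' ((γ0 + -2 * C' * k) * w + -(h ^ 2 * w')) w
          [0 + 2 * k, -C'] := by
      unfold LL1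
      rw [En, show (γ0 + -2 * C' * k) * (1 : ℤ) + 0 = (γ0 + -2 * C' * k) * 1 + 0 from rfl]
      have h2 : ∀ (l m : List ℤ) (x0 y0 x1 y1 : ℤ), En x0 y0 x1 y1 (l ++ m) =
          En (En x0 y0 x1 y1 l).1 (En x0 y0 x1 y1 l).2.1 (En x0 y0 x1 y1 l).2.2.1
            (En x0 y0 x1 y1 l).2.2.2 m := by
        intro l
        induction l with
        | nil => intro m x0 y0 x1 y1; rfl
        | cons c l ih => intro m x0 y0 x1 y1; rw [List.cons_append, En, ih]; rfl
      rw [h2]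
      have h3 := EnLin (γ0 + -2 * C' * k) e 0 1 1 0
      rw [hE] at h3
      simp only [mul_zero, zero_add, mul_one, add_zero] at h3
      simp only [mul_zero, mul_one, add_zero, zero_add]
      rw [h3]
    rw [h1]
    simp only [En]
    have h4 : h * (p0 + p1 * k + p2 * k ^ 2) + s = w * ((γ0 + -2 * C' * k) ^ 2 + 2 * m) +
        2 * (γ0 + -2 * C' * k) * (-(h ^ 2 * w')) - h ^ 2 * ρ' := by
      linear_combination hp0 + k * hp1 + k ^ 2 * hp2
    rw [h4]
    have h5 : 2 * k * C' = 1 - 2 * m * w' * w - (γ0 + -2 * C' * k) := by rw [hγ0]; ring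
    generalize γ0 + -2 * C' * k = c at h5 ⊢
    have hY : -C' * ((0 + 2 * k) * w + w') + w = w * c - h ^ 2 * w' := by
      rw [hC'] at h5 ⊢
      linear_combination (-w) * h5
    have hX : -C' * ((0 + 2 * k) * (c * w + -(h ^ 2 * w')) + (c * w' + ρ')) +
        (c * w + -(h ^ 2 * w')) = w * (c ^ 2 + 2 * m) + 2 * c * (-(h ^ 2 * w')) - h ^ 2 * ρ' -
          4 * m * w := by
      rw [hC'] at h5 ⊢
      linear_combination (-(c * w + -(h ^ 2 * w'))) * h5 - 2 * m * w * hdet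
    rw [hX, hY]
    linear_combination (8 * m * h ^ 2) * hdet
  have hmap : ∀ k : ℤ, ([P, C (h * s)].map (evalRingHom k)) =
      [p0 + p1 * k + p2 * k ^ 2, h * s] := by
    intro k
    rw [List.map_cons, List.map_cons, List.map_nil, ← hPe k]
    simp
  have hend2 : ∀ x : ℤ, (En 0 1 1 0 [x, h * s]).2.2.1 ^ 2 +
      8 * m * (En 0 1 1 0 [x, h * s]).2.2.2 ^ 2 = (h * x + s) ^ 2 + 8 * m * h ^ 2 := by
    intro x
    simp only [En]
    linear_combination ((h * x) ^ 2 + 8 * m * h ^ 2 - 1) * hs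
  refine build (8 * m) γ0 (-2 * C') 0 2 e [-C'] [P, C (h * s)] (P ^ 2 + C (8 * m)) 4 he ?_ hγ1
    (by norm_num) ?_ ?_ ?_ ?_ ?_ w' ρ' w (-(h ^ 2 * w')) hE ?_
    (fun p k => ((p0 : ZMod p) + p1 * k + p2 * k ^ 2) ^ 2 + 8 * m) ?_ ?_ k0 ?_
  · intro c hc
    simp only [List.mem_cons, List.not_mem_nil, or_false] at hc
    rw [hc, abs_neg]
    exact hC2
  · intro t ht
    simp only [Ts, List.mem_cons, List.not_mem_nil, or_false] at ht
    rcases ht with ht | ht
    · have : t = P := by rw [ht]; ring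
      rw [this]
      exact ⟨hP1, hP4⟩
    · have : t = poly5 (h * s * p0 ^ 2 + p0 + 8 * m * (h * s)) (2 * (h * s) * p0 * p1 + p1)
          (h * s * (p1 ^ 2 + 2 * p0 * p2) + p2) (2 * (h * s) * p1 * p2) (h * s * p2 ^ 2) := by
        rw [ht, ← hP2, C_mul (a := 8 * m) (b := h * s)]
        ring
      rw [this]
      exact ⟨poly5_ge _ _ _ _ _ (Or.inr (Or.inr (Or.inr (mul_ne_zero hhs (pow_ne_zero 2 hp2n))))),
        poly5_deg _ _ _ _ _⟩
  · rcases hlen with h4 | h4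
    · rw [h4]; exact (show Odd 9 by decide)
    · rw [h4]; exact (show Odd 11 by decide)
  · intro k p hp hd
    rw [hmap] at hd
    have h1 : (Qs (8 * m) 0 1 1 0 [p0 + p1 * k + p2 * k ^ 2, h * s]).prod =
        ((p0 + p1 * k + p2 * k ^ 2) ^ 2 + 8 * m) *
          ((h * (p0 + p1 * k + p2 * k ^ 2) + s) ^ 2 + 8 * m * h ^ 2) := by
      generalize p0 + p1 * k + p2 * k ^ 2 = x
      simp only [Qs, List.prod_cons, List.prod_nil]
      linear_combination (x ^ 2 + 8 * m) * ((h * x) ^ 2 + 8 * m * h ^ 2 - 1) * hs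
    rw [h1, ← hend1] at hd
    have h2 : (P ^ 2 + C (8 * m)).eval k = (p0 + p1 * k + p2 * k ^ 2) ^ 2 + 8 * m := by
      rw [eval_add, eval_pow, hPe, eval_C]
    rw [h2, mul_comm]
    refine hd.trans (mul_dvd_mul_left _ ?_)
    exact List.dvd_prod (En_mem (8 * m) (LL1 γ0 (-2 * C') 0 2 e [-C'] k) 0 1 1 0 (by simp [LL1]))
  · intro k
    rw [hmap, hend1, hend2]
    exact ⟨_, (sq _).symm⟩
  · rcases hlen with h4 | h4
    · rw [h4]; simp
    · rw [h4]; simp
  · intro p hp hp37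
    have hF : Fact p.Prime := ⟨hp⟩
    have n2 : (2 : ZMod p) ≠ 0 := by exact_mod_cast small_ne hp37 2 (by norm_num) (by norm_num)
    have n4 : (4 : ZMod p) ≠ 0 := by exact_mod_cast small_ne hp37 4 (by norm_num) (by norm_num)
    refine ⟨by exact_mod_cast n2, ?_⟩
    by_cases hc : ((C' : ℤ) : ZMod p) = 0
    · right
      refine ⟨by push_cast; rw [hc]; ring, ?_⟩
      exact (hbad p hp hp37 hc).1
    · left
      refine ⟨by push_cast; exact mul_ne_zero (neg_ne_zero.2 n2) hc, ?_⟩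
      intro hw0 h0
      have hh' : (h : ZMod p) ≠ 0 := by
        rw [hn]
        exact_mod_cast small_ne hp37 n hn0 hn37
      have hd' : (ρ' : ZMod p) * w = 1 - h ^ 2 * w' ^ 2 := by exact_mod_cast congrArg _ hdet
      rw [hw0] at hd'
      have hC'' : ((C' : ℤ) : ZMod p) = h ^ 2 := by
        rw [hC']; push_cast; rw [hw0]; ring
      push_cast at h0
      rw [hC''] at h0
      have h1 : (4 : ZMod p) * (h ^ 2 * w' ^ 2) = 0 := by linear_combination (-(w' : ZMod p)) * h0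
      have h2 : (4 : ZMod p) = 0 := by linear_combination h1 - 4 * hd'
      exact n4 h2
  · intro p k
    rw [eval_add, eval_pow, hPe, eval_C]
    push_cast
    ring
  · intro p hF hp37
    have hp := hF.out
    have n2 : (2 : ZMod p) ≠ 0 := by exact_mod_cast small_ne hp37 2 (by norm_num) (by norm_num)
    have n4 : (4 : ZMod p) ≠ 0 := by exact_mod_cast small_ne hp37 4 (by norm_num) (by norm_num)
    have hh' : (h : ZMod p) ≠ 0 := by
      rw [hn]
      exact_mod_cast small_ne hp37 n hn0 hn37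
    refine zc4 _ ((p0 : ZMod p) ^ 2 + 8 * m) (2 * p0 * p1) (p1 ^ 2 + 2 * p0 * p2) (2 * p1 * p2)
      (p2 ^ 2) (fun k => by ring) ?_
    by_contra hcon
    push Not at hcon
    obtain ⟨e0, e1, e2, e3, e4⟩ := hcon
    have f2 : (p2 : ZMod p) = 0 := pow_eq_zero_iff (two_ne_zero) |>.1 e4
    have f1 : (p1 : ZMod p) = 0 := by
      rw [f2] at e2
      have : (p1 : ZMod p) ^ 2 = 0 := by linear_combination e2
      exact pow_eq_zero_iff (two_ne_zero) |>.1 this
    have g0 : (h : ZMod p) * p0 = w * ((1 - 2 * m * w' * w) ^ 2 + 2 * m) +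
      2 * (1 - 2 * m * w' * w) * (-(h ^ 2 * w')) - h ^ 2 * ρ' - s := by
      have := congrArg (Int.cast : ℤ → ZMod p) hp0
      rw [hγ0] at this
      push_cast at this
      exact this
    have g1 : (h : ZMod p) * p1 = 2 * (-2 * ((C' : ℤ) : ZMod p)) * (w * (1 - 2 * m * w' * w) -
        h ^ 2 * w') := by
      have := congrArg (Int.cast : ℤ → ZMod p) hp1
      rw [hγ0] at this
      push_cast at this
      exact this
    have g2 : (h : ZMod p) * p2 = w * (-2 * ((C' : ℤ) : ZMod p)) ^ 2 := by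
      have := congrArg (Int.cast : ℤ → ZMod p) hp2
      push_cast at this
      exact this
    have hd' : (ρ' : ZMod p) * w = 1 - h ^ 2 * w' ^ 2 := by exact_mod_cast congrArg _ hdet
    have hs' : (s : ZMod p) ^ 2 = 1 := by
      have := congrArg (Int.cast : ℤ → ZMod p) hs
      push_cast at this
      exact this
    have hCe : ((C' : ℤ) : ZMod p) = h ^ 2 + 2 * m * w ^ 2 := by rw [hC']; push_cast; ring
    have hc : ((C' : ℤ) : ZMod p) = 0 := by
      by_contra hc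
      rw [f2, mul_zero] at g2
      rw [f1, mul_zero] at g1
      have k1 : (w : ZMod p) = 0 := by
        rcases mul_eq_zero.1 g2.symm with h1 | h1
        · exact h1
        · exact absurd (pow_eq_zero_iff (two_ne_zero) |>.1 h1) (mul_ne_zero (neg_ne_zero.2 n2) hc)
      rw [k1] at g1 hd'
      have k2 : (w' : ZMod p) = 0 := by
        have k3 : (2 * (-2 * ((C' : ℤ) : ZMod p))) * (h ^ 2 * w') = 0 := by
          linear_combination g1
        rcases mul_eq_zero.1 k3 with h1 | h1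
        · exact absurd h1 (mul_ne_zero n2 (mul_ne_zero (neg_ne_zero.2 n2) hc))
        · exact (mul_eq_zero.1 h1).resolve_left (pow_ne_zero 2 hh')
      rw [k2] at hd'
      apply one_ne_zero (α := ZMod p)
      linear_combination -hd'
    obtain ⟨-, hb⟩ := hbad p hp hp37 hc
    apply hb
    push_cast
    have hCw : (h : ZMod p) ^ 2 + 2 * m * w ^ 2 = 0 := by rw [← hCe]; exact hc
    have hwn : (w : ZMod p) ≠ 0 := by
      intro h0
      rw [h0] at hCw
      have : (h : ZMod p) ^ 2 = 0 := by linear_combination hCw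
      exact hh' (pow_eq_zero_iff (two_ne_zero) |>.1 this)
    -- `h w p0 = w ^ 2 - 2 h ^ 2 - s w`
    have k1 : (h : ZMod p) * w * p0 = w ^ 2 - 2 * h ^ 2 - s * w := by
      linear_combination (w : ZMod p) * g0 - (h : ZMod p) ^ 2 * hd' +
        (1 - 2 * w * w' + w' ^ 2 * (h ^ 2 + 2 * m * w ^ 2) : ZMod p) * hCw
    have k2 : ((w : ZMod p) - s) * w * (w ^ 2 - s * w - 4 * h ^ 2) = 0 := by
      linear_combination (-(h * w * p0 + (w ^ 2 - 2 * h ^ 2 - s * w)) : ZMod p) * k1 +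
        (h ^ 2 * w ^ 2 : ZMod p) * e0 - (4 * h ^ 2 : ZMod p) * hCw
    rcases mul_eq_zero.1 k2 with k3 | k3
    · rcases mul_eq_zero.1 k3 with k4 | k4
      · have k5 : (w : ZMod p) = s := by linear_combination k4
        have k6 : (8 * m + 4 * h ^ 2 : ZMod p) = 0 := by
          rw [k5] at hCw
          linear_combination 4 * hCw - (8 * m : ZMod p) * hs'
        rw [k6, zero_mul]
      · exact absurd k4 hwn
    · have k7 : (w : ZMod p) ^ 4 * (4 * h ^ 2 * (1 + 8 * m) ^ 2 + 8 * m) = 0 := by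
        linear_combination (4 * h ^ 2 * (w ^ 2 - 4 * h ^ 2 + s * w) : ZMod p) * k3 +
          (4 * h ^ 2 * w ^ 2 : ZMod p) * hs' +
          (4 * h ^ 2 * (8 * (w ^ 2 - 4 * h ^ 2) + 16 * (h ^ 2 + 2 * m * w ^ 2)) + 4 * w ^ 2 :
            ZMod p) * hCw
      have k8 := (mul_eq_zero.1 k7).resolve_left (pow_ne_zero 4 hwn)
      rw [k8, mul_zero]
  · intro p hp h37
    rw [eval_add, eval_pow, hPe, eval_C]
    exact hk0 p hp h37

end Pool.Agent.Helper8.Mono
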