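import Pool.Agent.Helper8.Mono.Zeros

/-!
Degrees of the polynomials `t` along a path with two quotients depending linearly on a parameter.
-/

set_option autoImplicit false

namespace Pool.Agent.Helper8.Mono

open Polynomial

lemma abs_step {y0 y1 c : ℤ} (hc : 2 ≤ |c|) (h : |y0| < |y1|) : |y1| < |c * y1 + y0| := by
  have h1 : |c * y1| - |y0| ≤ |c * y1 + y0| := by
    have := abs_sub_abs_le_abs_sub (c * y1) (-y0)
    rwa [abs_neg, sub_neg_eq_add] at this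
  rw [abs_mul] at h1
  nlinarith [abs_nonneg y1]

lemma EnAbs : ∀ (e : List ℤ) (x0 y0 x1 y1 : ℤ), (∀ c ∈ e, 2 ≤ |c|) → |x0| < |x1| →
    |(En x0 y0 x1 y1 e).1| < |(En x0 y0 x1 y1 e).2.2.1|
  | [], _, _, _, _, _, h => h
  | c :: e, x0, y0, x1, y1, hc, h => by
    rw [En]
    exact EnAbs e _ _ _ _ (fun c' hc' => hc c' (List.mem_cons_of_mem _ hc'))
      (abs_step (hc c List.mem_cons_self) h)

/-- the first part -/
lemma preT (a γ0 γ1 : ℤ) (h1 : γ1 ≠ 0) : ∀ (e : List ℤ) (y0 z0 y1 z1 : ℤ), (∀ c ∈ e, 2 ≤ |c|) →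
    |y0| < |y1| → ∀ t ∈ Ts (C a) ((C γ0 + C γ1 * X) * C y0 + C z0) (C y0)
      ((C γ0 + C γ1 * X) * C y1 + C z1) (C y1) (e.map C), 1 ≤ t.natDegree ∧ t.natDegree ≤ 4
  | [], _, _, _, _, _, _, t, ht => by simp [Ts] at ht
  | c :: e, y0, z0, y1, z1, hc, hy, t, ht => by
    have hlt := abs_step (hc c List.mem_cons_self) hy
    have e1 : C c * ((C γ0 + C γ1 * X) * C y1 + C z1) + ((C γ0 + C γ1 * X) * C y0 + C z0) =
        (C γ0 + C γ1 * X) * C (c * y1 + y0) + C (c * z1 + z0) := by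
      simp only [map_add, map_mul]; ring
    have e2 : C c * C y1 + C y0 = C (c * y1 + y0) := by simp only [map_add, map_mul]
    rw [List.map_cons, Ts, e1, e2, List.mem_cons] at ht
    rcases ht with rfl | ht
    · have hy1 : y1 ≠ 0 := by
        intro h; rw [h, abs_zero] at hy; exact absurd hy (not_lt.2 (abs_nonneg _))
      have hy2 : c * y1 + y0 ≠ 0 := by
        intro h; rw [h, abs_zero] at hlt; exact absurd hlt (not_lt.2 (abs_nonneg _))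
      have e3 : ((C γ0 + C γ1 * X) * C y1 + C z1) * ((C γ0 + C γ1 * X) * C (c * y1 + y0) +
          C (c * z1 + z0)) + C a * (C y1 * C (c * y1 + y0)) =
          poly5 ((γ0 * y1 + z1) * (γ0 * (c * y1 + y0) + (c * z1 + z0)) + a * (y1 * (c * y1 + y0)))
            ((γ0 * y1 + z1) * (γ1 * (c * y1 + y0)) +
              (γ1 * y1) * (γ0 * (c * y1 + y0) + (c * z1 + z0)))
            ((γ1 * y1) * (γ1 * (c * y1 + y0))) 0 0 := by
        unfold poly5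
        simp only [map_add, map_mul, map_zero]
        ring
      rw [e3]
      refine ⟨poly5_ge _ _ _ _ _ (Or.inr (Or.inl ?_)), poly5_deg _ _ _ _ _⟩
      exact mul_ne_zero (mul_ne_zero h1 hy1) (mul_ne_zero h1 hy2)
    · exact preT a γ0 γ1 h1 e _ _ _ _ (fun c' hc' => hc c' (List.mem_cons_of_mem _ hc')) hlt t ht

section post

variable (a γ0 γ1 q0 q1 w' ρ' w ρ : ℤ)

/-- first coordinate of the vector `(K q + L) v + K v'` -/
noncomputable def xK (K L : ℤ) : ℤ[X] :=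
  (C K * (C q0 + C q1 * X) + C L) * ((C γ0 + C γ1 * X) * C w + C ρ) +
    C K * ((C γ0 + C γ1 * X) * C w' + C ρ')

/-- second coordinate of the vector `(K q + L) v + K v'` -/
noncomputable def yK (K L : ℤ) : ℤ[X] :=
  (C K * (C q0 + C q1 * X) + C L) * C w + C K * C w'

lemma xK_add (c K0 L0 K1 L1 : ℤ) : C c * xK γ0 γ1 q0 q1 w' ρ' w ρ K1 L1 +
    xK γ0 γ1 q0 q1 w' ρ' w ρ K0 L0 = xK γ0 γ1 q0 q1 w' ρ' w ρ (c * K1 + K0) (c * L1 + L0) := by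
  unfold xK
  simp only [map_add, map_mul]
  ring

lemma yK_add (c K0 L0 K1 L1 : ℤ) : C c * yK q0 q1 w' w K1 L1 +
    yK q0 q1 w' w K0 L0 = yK q0 q1 w' w (c * K1 + K0) (c * L1 + L0) := by
  unfold yK
  simp only [map_add, map_mul]
  ring

lemma T_eq (K1 L1 K2 L2 : ℤ) : xK γ0 γ1 q0 q1 w' ρ' w ρ K1 L1 * xK γ0 γ1 q0 q1 w' ρ' w ρ K2 L2 +
    C a * (yK q0 q1 w' w K1 L1 * yK q0 q1 w' w K2 L2) =
    poly5 (((K1 * q0 + L1) * (γ0 * w + ρ) + K1 * (γ0 * w' + ρ')) *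
        ((K2 * q0 + L2) * (γ0 * w + ρ) + K2 * (γ0 * w' + ρ')) +
        a * (((K1 * q0 + L1) * w + K1 * w') * ((K2 * q0 + L2) * w + K2 * w')))
      (((K1 * q0 + L1) * (γ0 * w + ρ) + K1 * (γ0 * w' + ρ')) *
        ((K2 * q0 + L2) * γ1 * w + K2 * q1 * (γ0 * w + ρ) + K2 * γ1 * w') +
        ((K1 * q0 + L1) * γ1 * w + K1 * q1 * (γ0 * w + ρ) + K1 * γ1 * w') *
        ((K2 * q0 + L2) * (γ0 * w + ρ) + K2 * (γ0 * w' + ρ')) +
        a * (((K1 * q0 + L1) * w + K1 * w') * (K2 * q1 * w) +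
          (K1 * q1 * w) * ((K2 * q0 + L2) * w + K2 * w')))
      (((K1 * q0 + L1) * (γ0 * w + ρ) + K1 * (γ0 * w' + ρ')) * (K2 * q1 * γ1 * w) +
        ((K1 * q0 + L1) * γ1 * w + K1 * q1 * (γ0 * w + ρ) + K1 * γ1 * w') *
          ((K2 * q0 + L2) * γ1 * w + K2 * q1 * (γ0 * w + ρ) + K2 * γ1 * w') +
        (K1 * q1 * γ1 * w) * ((K2 * q0 + L2) * (γ0 * w + ρ) + K2 * (γ0 * w' + ρ')) +
        a * ((K1 * q1 * w) * (K2 * q1 * w)))
      (((K1 * q0 + L1) * γ1 * w + K1 * q1 * (γ0 * w + ρ) + K1 * γ1 * w') * (K2 * q1 * γ1 * w) +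
        (K1 * q1 * γ1 * w) * ((K2 * q0 + L2) * γ1 * w + K2 * q1 * (γ0 * w + ρ) + K2 * γ1 * w'))
      ((K1 * q1 * γ1 * w) * (K2 * q1 * γ1 * w)) := by
  unfold poly5 xK yK
  simp only [map_add, map_mul]
  ring

lemma postT (hγ : γ1 ≠ 0) (hq : q1 ≠ 0) (hw : w ≠ 0) : ∀ (d : List ℤ) (K0 L0 K1 L1 : ℤ),
    (∀ c ∈ d, 2 ≤ |c|) → |K0| < |K1| →
    ∀ t ∈ Ts (C a) (xK γ0 γ1 q0 q1 w' ρ' w ρ K0 L0) (yK q0 q1 w' w K0 L0)
      (xK γ0 γ1 q0 q1 w' ρ' w ρ K1 L1) (yK q0 q1 w' w K1 L1) (d.map C),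
      1 ≤ t.natDegree ∧ t.natDegree ≤ 4
  | [], _, _, _, _, _, _, t, ht => by simp [Ts] at ht
  | c :: d, K0, L0, K1, L1, hc, hK, t, ht => by
    have hlt := abs_step (hc c List.mem_cons_self) hK
    rw [List.map_cons, Ts, xK_add, yK_add, List.mem_cons] at ht
    rcases ht with rfl | ht
    · have hK1 : K1 ≠ 0 := by
        intro h; rw [h, abs_zero] at hK; exact absurd hK (not_lt.2 (abs_nonneg _))
      have hK2 : c * K1 + K0 ≠ 0 := by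
        intro h; rw [h, abs_zero] at hlt; exact absurd hlt (not_lt.2 (abs_nonneg _))
      rw [T_eq]
      refine ⟨poly5_ge _ _ _ _ _ (Or.inr (Or.inr (Or.inr ?_))), poly5_deg _ _ _ _ _⟩
      exact mul_ne_zero (mul_ne_zero (mul_ne_zero (mul_ne_zero hK1 hq) hγ) hw)
        (mul_ne_zero (mul_ne_zero (mul_ne_zero hK2 hq) hγ) hw)
    · exact postT hγ hq hw d _ _ _ _ (fun c' hc' => hc c' (List.mem_cons_of_mem _ hc')) hlt t ht

end post

/-- all the `t` along the whole path are nonconstant polynomials of degree at most `4` -/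
theorem degT (a γ0 γ1 q0 q1 : ℤ) (e d : List ℤ) (he : ∀ c ∈ e, 2 ≤ |c|) (hd : ∀ c ∈ d, 2 ≤ |c|)
    (hγ : γ1 ≠ 0) (hq : q1 ≠ 0) :
    ∀ t ∈ Ts (C a) 0 1 1 0 ((C γ0 + C γ1 * X : ℤ[X]) :: (e.map C ++ (C q0 + C q1 * X) :: d.map C)),
      1 ≤ t.natDegree ∧ t.natDegree ≤ 4 := by
  intro t ht
  obtain ⟨w', ρ', w, ρ, hE⟩ : ∃ w' ρ' w ρ, En (0 : ℤ) 1 1 0 e = (w', ρ', w, ρ) :=
    ⟨_, _, _, _, rfl⟩
  have hw : w ≠ 0 := by
    have h := EnAbs e 0 1 1 0 he (by norm_num)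
    rw [hE] at h
    intro h0
    have h' : |w'| < |w| := h
    rw [h0, abs_zero] at h'
    exact absurd h' (not_lt.2 (abs_nonneg _))
  have hEC : En (0 : ℤ[X]) 1 1 0 (e.map C) = (C w', C ρ', C w, C ρ) := by
    have h := En_map (C : ℤ →+* ℤ[X]) e 0 1 1 0
    rw [hE] at h
    simpa using h
  have hEk : En (0 : ℤ[X]) 1 1 0 ((C γ0 + C γ1 * X) :: e.map C) =
      ((C γ0 + C γ1 * X) * C w' + C ρ', C w', (C γ0 + C γ1 * X) * C w + C ρ, C w) := by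
    rw [En]
    have h := EnLin (C γ0 + C γ1 * X : ℤ[X]) (e.map C) 0 1 1 0
    rw [hEC] at h
    simpa using h
  rw [← List.cons_append, Ts_append, hEk, List.mem_append, Ts, List.mem_cons, Ts,
    List.mem_cons] at ht
  rcases ht with (rfl | ht) | (rfl | ht)
  · have e1 : (1 : ℤ[X]) * ((C γ0 + C γ1 * X) * 1 + 0) + C a * (0 * ((C γ0 + C γ1 * X) * 0 + 1)) =
        poly5 γ0 γ1 0 0 0 := by
      unfold poly5
      simp
    rw [e1]
    exact ⟨poly5_ge _ _ _ _ _ (Or.inl hγ), poly5_deg _ _ _ _ _⟩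
  · have h := preT a γ0 γ1 hγ e 0 1 1 0 he (by norm_num) t
    apply h
    simpa using ht
  · have e1 : ((C γ0 + C γ1 * X) * C w + C ρ) * ((C q0 + C q1 * X) * ((C γ0 + C γ1 * X) * C w +
        C ρ) + ((C γ0 + C γ1 * X) * C w' + C ρ')) + C a * (C w * ((C q0 + C q1 * X) * C w +
        C w')) = xK γ0 γ1 q0 q1 w' ρ' w ρ 0 1 * xK γ0 γ1 q0 q1 w' ρ' w ρ 1 0 +
        C a * (yK q0 q1 w' w 0 1 * yK q0 q1 w' w 1 0) := by
      unfold xK yK
      simp only [map_zero, map_one]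
      ring
    rw [e1, T_eq]
    refine ⟨poly5_ge _ _ _ _ _ (Or.inr (Or.inr (Or.inl ?_))), poly5_deg _ _ _ _ _⟩
    have e2 : ((0 * q0 + 1) * γ1 * w + 0 * q1 * (γ0 * w + ρ) + 0 * γ1 * w') * (1 * q1 * γ1 * w) +
        (0 * q1 * γ1 * w) * ((1 * q0 + 0) * γ1 * w + 1 * q1 * (γ0 * w + ρ) + 1 * γ1 * w') =
        (γ1 * w) * (q1 * γ1 * w) := by ring
    rw [e2]
    exact mul_ne_zero (mul_ne_zero hγ hw) (mul_ne_zero (mul_ne_zero hq hγ) hw)
  · have h := postT a γ0 γ1 q0 q1 w' ρ' w ρ hγ hq hw d 0 1 1 0 hd (by norm_num) t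
    apply h
    have e1 : (C γ0 + C γ1 * X) * C w + C ρ = xK γ0 γ1 q0 q1 w' ρ' w ρ 0 1 := by
      unfold xK; simp
    have e2 : (C w : ℤ[X]) = yK q0 q1 w' w 0 1 := by
      unfold yK; simp
    have e3 : (C q0 + C q1 * X) * ((C γ0 + C γ1 * X) * C w + C ρ) +
        ((C γ0 + C γ1 * X) * C w' + C ρ') = xK γ0 γ1 q0 q1 w' ρ' w ρ 1 0 := by
      unfold xK; simp
    have e4 : (C q0 + C q1 * X) * C w + C w' = yK q0 q1 w' w 1 0 := by
      unfold yK; simp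
    rw [e3, e4, e1] at ht
    rw [← e2]
    exact ht

end Pool.Agent.Helper8.Mono
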