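import Pool.Agent.Helper8.Mono.Sieve
import Pool.Graph.R_seed8.H505R3.Asym8

/-!
Sifting an odd number of polynomial values of `t ^ 2 + a` the product of which is a square.
-/

set_option autoImplicit false

namespace Pool.Agent.Helper8.Mono

open Finset Filter Polynomial Pool.Agent.H505R2 Pool.Agent.H505R3

/-- the product of the primes below `37` -/
def MM : ℕ := 200560490130

lemma MM_eq : MM = 2 * 3 * 5 * 7 * 11 * 13 * 17 * 19 * 23 * 29 * 31 := by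
  unfold MM; norm_num

lemma cop_MM {p : ℕ} (hp : p.Prime) (h37 : 37 ≤ p) : ¬ p ∣ MM := by
  intro h
  rw [MM_eq] at h
  have hh : ∀ q : ℕ, 0 < q → q < 37 → ¬ p ∣ q := fun q h0 h1 h2 => by
    have := Nat.le_of_dvd h0 h2
    omega
  simp only [hp.dvd_mul] at h
  rcases h with (((((((((h | h) | h) | h) | h) | h) | h) | h) | h) | h) | h <;>
    exact hh _ (by norm_num) (by norm_num) h

lemma eval_mod (G : ℤ[X]) {p : ℕ} {x y : ℤ} (h : x ≡ y [ZMOD p]) :
    (p : ℤ) ∣ G.eval x ↔ (p : ℤ) ∣ G.eval y := by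
  have h1 : (p : ℤ) ∣ G.eval x - G.eval y :=
    (Int.ModEq.dvd h.symm).trans (sub_dvd_eval_sub x y G)
  constructor
  · intro h2
    have := dvd_sub h2 h1
    rwa [sub_sub_cancel] at this
  · intro h2
    have := dvd_add h1 h2
    rwa [sub_add_cancel] at this

/-- `p` divides `G` at `MM * m + k0` -/
def Dv (G : ℤ[X]) (k0 p m : ℕ) : Prop := (p : ℤ) ∣ G.eval ((MM * m + k0 : ℕ) : ℤ)

instance (G : ℤ[X]) (k0 p : ℕ) : DecidablePred (Dv G k0 p) := fun n => by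
  unfold Dv; infer_instance

lemma Dv_mod {G : ℤ[X]} {k0 p m : ℕ} (h : Dv G k0 p m) : Dv G k0 p (m % p) := by
  unfold Dv at h ⊢
  refine (eval_mod G ?_).1 h
  have h1 : MM * m + k0 ≡ MM * (m % p) + k0 [MOD p] :=
    ((Nat.mod_modEq m p).symm.mul_left MM).add_right k0
  exact (Int.natCast_modEq_iff).2 h1

lemma Dv_card {G : ℤ[X]} {k0 p : ℕ} (hp : p.Prime) (h37 : 37 ≤ p)
    (hG : ((range p).filter (fun k : ℕ => (p : ℤ) ∣ G.eval (k : ℤ))).card ≤ 26) :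
    ((range p).filter (Dv G k0 p)).card ≤ 26 := by
  refine le_trans (card_le_card_of_injOn (fun m : ℕ => (MM * m + k0) % p) ?_ ?_) hG
  · intro m hm
    rw [mem_coe, mem_filter] at hm
    rw [mem_coe, mem_filter, mem_range]
    refine ⟨Nat.mod_lt _ hp.pos, ?_⟩
    refine (eval_mod G ?_).1 hm.2
    exact (Int.natCast_modEq_iff).2 (Nat.mod_modEq _ p).symm
  · intro k hk l hl hkl
    rw [mem_coe, mem_filter, mem_range] at hk hl
    have h2 : MM * k + k0 ≡ MM * l + k0 [MOD p] := hkl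
    have h3 : MM * k ≡ MM * l [MOD p] := Nat.ModEq.add_right_cancel' k0 h2
    have h4 : Nat.Coprime p MM := (Nat.Prime.coprime_iff_not_dvd hp).2 (cop_MM hp h37)
    have h5 : k ≡ l [MOD p] := Nat.ModEq.cancel_left_of_coprime (by
      rw [Nat.coprime_iff_gcd_eq_one] at h4; exact h4) h3
    exact Nat.ModEq.eq_of_lt_of_lt h5 hk.1 hl.1

/-- primes from `37` up to the sifting limit -/
def Sq (I : ℕ) : Finset ℕ := (Icc 37 (2 ^ 2 ^ I)).filter (fun p => p.Prime)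

lemma mem_Sq {I p : ℕ} : p ∈ Sq I ↔ 37 ≤ p ∧ p ≤ 2 ^ 2 ^ I ∧ p.Prime := by
  rw [Sq, mem_filter, mem_Icc, and_assoc]

theorem siftS {G : ℤ[X]} (hG : ∀ p : ℕ, p.Prime → 37 ≤ p →
      ((range p).filter (fun k : ℕ => (p : ℤ) ∣ G.eval (k : ℤ))).card ≤ 26)
    (k0 I : ℕ) (hI : 1 ≤ I) (k : ℕ) :
    (k : ℝ) * (Real.exp (-416) ^ I / 2) - (2 : ℝ) ^ (5492 * 2 ^ I)
      ≤ (((Ioc 0 k).filter (fun n => ∀ p ∈ Sq I, ¬ Dv G k0 p n)).card : ℝ) := by
  have h := sift_genH 13 (by norm_num) (Sq I) (fun p hp => (mem_Sq.1 hp).2.2)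
    (fun p hp => (mem_Sq.1 hp).1) (Dv G k0)
    (fun p hp n h => Dv_mod h) (by
      intro p hp
      obtain ⟨h37, -, hpp⟩ := mem_Sq.1 hp
      have := Dv_card (k0 := k0) hpp h37 (hG p hpp h37)
      omega) (by
      intro p hp
      obtain ⟨h37, -, hpp⟩ := mem_Sq.1 hp
      have := Dv_card (k0 := k0) hpp h37 (hG p hpp h37)
      omega) I hI (fun p hp => (mem_Sq.1 hp).2.1) k
  have e : (-(32 * ((13 : ℕ) : ℝ))) = -416 := by norm_num
  rw [e] at h
  exact h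

/-- the data of the family: an odd number of nonconstant polynomials `T i` of degree at most `4` such
that the product of the `T i ^ 2 + a` is a square, and a polynomial `G` controlling their prime
factors -/
structure Eng (a : ℤ) where
  n : ℕ
  hn : Odd n
  T : Fin n → ℤ[X]
  T1 : ∀ i, 1 ≤ (T i).natDegree
  T4 : ∀ i, (T i).natDegree ≤ 4
  G : ℤ[X]
  hG : ∀ (k : ℤ) (i : Fin n) (p : ℕ), p.Prime → (p : ℤ) ∣ (T i).eval k ^ 2 + a →
    (p : ℤ) ∣ G.eval k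
  hsq : ∀ k : ℤ, ∃ z : ℤ, ∏ i, ((T i).eval k ^ 2 + a) = z ^ 2
  h37 : ∀ p : ℕ, p.Prime → 37 ≤ p →
    ((range p).filter (fun k : ℕ => (p : ℤ) ∣ G.eval (k : ℤ))).card ≤ 26
  k0 : ℕ
  hk0 : ∀ p : ℕ, p.Prime → p < 37 → ¬ (p : ℤ) ∣ G.eval (k0 : ℤ)

lemma eval_bound (P : ℤ[X]) (h : P.natDegree ≤ 4) (k : ℕ) :
    |P.eval (k : ℤ)| ≤ (∑ j ∈ range 5, |P.coeff j|) * ((k : ℤ) + 1) ^ 4 := by
  rw [eval_eq_sum_range' (show P.natDegree < 5 by omega), sum_mul]
  refine (abs_sum_le_sum_abs _ _).trans (sum_le_sum fun j hj => ?_)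
  rw [abs_mul]
  apply mul_le_mul_of_nonneg_left _ (abs_nonneg _)
  rw [mem_range] at hj
  have hk : (0 : ℤ) ≤ k := Int.natCast_nonneg k
  rw [abs_of_nonneg (pow_nonneg hk j)]
  calc (k : ℤ) ^ j ≤ ((k : ℤ) + 1) ^ j := pow_le_pow_left₀ hk (by omega) j
    _ ≤ ((k : ℤ) + 1) ^ 4 := pow_le_pow_right₀ (by omega) (by omega)

/-- a nonconstant polynomial of degree at most `4` takes each value at most four times -/
lemma fiber (P : ℤ[X]) (h1 : 1 ≤ P.natDegree) (h4 : P.natDegree ≤ 4) (S : Finset ℕ) (c k0 : ℕ)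
    (hc : 0 < c) (t : ℤ) :
    (S.filter (fun m => P.eval ((c * m + k0 : ℕ) : ℤ) = t)).card ≤ 4 := by
  have hne : P - C t ≠ 0 := by
    intro h
    rw [sub_eq_zero] at h
    rw [h, natDegree_C] at h1
    omega
  have h2 : (S.filter (fun m => P.eval ((c * m + k0 : ℕ) : ℤ) = t)).card ≤
      (P - C t).roots.toFinset.card := by
    apply card_le_card_of_injOn (fun m : ℕ => ((c * m + k0 : ℕ) : ℤ))
    · intro m hm
      rw [mem_coe, mem_filter] at hm
      rw [mem_coe, Multiset.mem_toFinset, mem_roots hne, IsRoot.def, eval_sub, eval_C, hm.2,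
        sub_self]
    · intro m _ l _ hml
      have h3' : ((c * m + k0 : ℕ) : ℤ) = ((c * l + k0 : ℕ) : ℤ) := hml
      have h3 : c * m + k0 = c * l + k0 := by exact_mod_cast h3'
      exact Nat.eq_of_mul_eq_mul_left hc (by omega)
  refine h2.trans ((Multiset.toFinset_card_le _).trans ((card_roots' _).trans ?_))
  rw [natDegree_sub_C]
  exact h4

lemma fiber_abs (P : ℤ[X]) (h1 : 1 ≤ P.natDegree) (h4 : P.natDegree ≤ 4) (S : Finset ℕ) (c k0 : ℕ)
    (hc : 0 < c) (t : ℤ) :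
    (S.filter (fun m => |P.eval ((c * m + k0 : ℕ) : ℤ)| = t)).card ≤ 8 := by
  have hsub : S.filter (fun m => |P.eval ((c * m + k0 : ℕ) : ℤ)| = t) ⊆
      S.filter (fun m => P.eval ((c * m + k0 : ℕ) : ℤ) = t) ∪
      S.filter (fun m => P.eval ((c * m + k0 : ℕ) : ℤ) = -t) := by
    intro m hm
    rw [mem_filter] at hm
    rw [mem_union, mem_filter, mem_filter]
    rcases abs_choice (P.eval ((c * m + k0 : ℕ) : ℤ)) with h | h
    · left; exact ⟨hm.1, by rw [← hm.2, h]⟩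
    · right; exact ⟨hm.1, by rw [← hm.2, h, neg_neg]⟩
  have := (card_le_card hsub).trans (card_union_le _ _)
  have e1 := fiber P h1 h4 S c k0 hc t
  have e2 := fiber P h1 h4 S c k0 hc (-t)
  omega

lemma small_abs (P : ℤ[X]) (h1 : 1 ≤ P.natDegree) (h4 : P.natDegree ≤ 4) (S : Finset ℕ) (c k0 : ℕ)
    (hc : 0 < c) (B : ℕ) :
    (S.filter (fun m => |P.eval ((c * m + k0 : ℕ) : ℤ)| ≤ B)).card ≤ 8 * (B + 1) := by
  have h2 := Finset.card_le_mul_card_image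
    (f := fun m : ℕ => (P.eval ((c * m + k0 : ℕ) : ℤ)).natAbs)
    (S.filter (fun m => |P.eval ((c * m + k0 : ℕ) : ℤ)| ≤ B)) 8 (by
      intro t _
      have h3 := fiber_abs P h1 h4 (S.filter (fun m => |P.eval ((c * m + k0 : ℕ) : ℤ)| ≤ B)) c k0
        hc t
      refine le_trans (card_le_card ?_) h3
      intro m hm
      rw [mem_filter] at hm ⊢
      refine ⟨hm.1, ?_⟩
      rw [← hm.2, Int.natCast_natAbs])
  refine h2.trans (Nat.mul_le_mul_left 8 ?_)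
  have h4 : ((S.filter (fun m => |P.eval ((c * m + k0 : ℕ) : ℤ)| ≤ B)).image
      (fun m : ℕ => (P.eval ((c * m + k0 : ℕ) : ℤ)).natAbs)) ⊆ range (B + 1) := by
    intro t ht
    rw [mem_image] at ht
    obtain ⟨m, hm, rfl⟩ := ht
    rw [mem_filter] at hm
    rw [mem_range]
    have h5 := hm.2
    rw [← Int.natCast_natAbs] at h5
    have h6 : (P.eval ((c * m + k0 : ℕ) : ℤ)).natAbs ≤ B := by exact_mod_cast h5
    omega
  simpa using card_le_card h4

variable {a : ℤ} (φ : Eng a)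

lemma one_of (h : ℕ → ℤ) (hmul : ∀ m n : ℕ, m ≠ 0 → n ≠ 0 → h (m * n) = h m * h n)
    (hval : ∀ m : ℕ, m ≠ 0 → h m = 1 ∨ h m = -1) (k : ℤ)
    (hpos : ∀ i, 0 < (φ.T i).eval k ^ 2 + a) :
    ∃ i, h ((φ.T i).eval k ^ 2 + a).toNat = 1 := by
  by_contra hcon
  push Not at hcon
  have hm1 : ∀ i, h ((φ.T i).eval k ^ 2 + a).toNat = -1 := by
    intro i
    have h0 : ((φ.T i).eval k ^ 2 + a).toNat ≠ 0 := by
      have := hpos i
      omega
    rcases hval _ h0 with h1 | h1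
    · exact absurd h1 (hcon i)
    · exact h1
  have h1 : h 1 = 1 := by
    have h2 := hmul 1 1 one_ne_zero one_ne_zero
    rw [mul_one] at h2
    rcases hval 1 one_ne_zero with h3 | h3
    · exact h3
    · rw [h3] at h2; norm_num at h2
  have key : ∀ s : Finset (Fin φ.n), h (∏ i ∈ s, ((φ.T i).eval k ^ 2 + a).toNat) = (-1) ^ s.card ∧
      ∏ i ∈ s, ((φ.T i).eval k ^ 2 + a).toNat ≠ 0 := by
    intro s
    induction s using Finset.induction_on with
    | empty => simp [h1]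
    | insert i s his ih =>
      have h0 : ((φ.T i).eval k ^ 2 + a).toNat ≠ 0 := by
        have := hpos i
        omega
      rw [prod_insert his, card_insert_of_notMem his]
      refine ⟨?_, mul_ne_zero h0 ih.2⟩
      rw [hmul _ _ h0 ih.2, ih.1, hm1 i, pow_succ, mul_comm]
  obtain ⟨z, hz⟩ := φ.hsq k
  have hprod : ((∏ i, ((φ.T i).eval k ^ 2 + a).toNat : ℕ) : ℤ) = z ^ 2 := by
    rw [← hz]
    push_cast
    apply prod_congr rfl
    intro i _
    exact Int.toNat_of_nonneg (hpos i).le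
  have hz0 : z.natAbs ≠ 0 := by
    intro h0
    rw [Int.natAbs_eq_zero] at h0
    rw [h0] at hprod
    have h2 := (key univ).2
    apply h2
    have : ((∏ i, ((φ.T i).eval k ^ 2 + a).toNat : ℕ) : ℤ) = 0 := by rw [hprod]; norm_num
    exact_mod_cast this
  have hprod' : ∏ i, ((φ.T i).eval k ^ 2 + a).toNat = z.natAbs * z.natAbs := by
    have h2 : ((z.natAbs * z.natAbs : ℕ) : ℤ) = z ^ 2 := by
      rw [Int.natAbs_mul_self, pow_two]
    rw [← h2] at hprod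
    exact_mod_cast hprod
  have h3 := (key univ).1
  rw [hprod', hmul _ _ hz0 hz0, card_univ, Fintype.card_fin, φ.hn.neg_one_pow] at h3
  rcases hval _ hz0 with h4 | h4 <;> rw [h4] at h3 <;> norm_num at h3

/-- the good set -/
def GS (a β : ℤ) (h : ℕ → ℤ) (z X : ℕ) : Set ℕ :=
  {t : ℕ | 1 ≤ t ∧ t ≤ X ∧ 0 < (t : ℤ) ^ 2 + 2 * β * t + (β ^ 2 + a) ∧
    (∀ p : ℕ, p.Prime → (p : ℤ) ∣ (t : ℤ) ^ 2 + 2 * β * t + (β ^ 2 + a) → z < p) ∧
    h ((t : ℤ) ^ 2 + 2 * β * t + (β ^ 2 + a)).toNat = 1}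

lemma GS_fin (a β : ℤ) (h : ℕ → ℤ) (z X : ℕ) : (GS a β h z X).Finite :=
  (Set.finite_Iic X).subset fun _ ht => ht.2.1

/-- bound for the polynomials -/
noncomputable def LL (φ : Eng a) (β : ℤ) : ℕ :=
  (∑ i, ∑ j ∈ range 5, |(φ.T i).coeff j|).toNat + β.natAbs + 1

lemma T_bound (β : ℤ) (i : Fin φ.n) (k : ℕ) :
    |(φ.T i).eval (k : ℤ)| + |β| ≤ (LL φ β : ℤ) * ((k : ℤ) + 1) ^ 4 := by
  have h1 := eval_bound (φ.T i) (φ.T4 i) k
  have hnn : ∀ i, 0 ≤ ∑ j ∈ range 5, |(φ.T i).coeff j| := fun i =>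
    sum_nonneg fun j _ => abs_nonneg _
  have h2 : ∑ j ∈ range 5, |(φ.T i).coeff j| ≤ ∑ i, ∑ j ∈ range 5, |(φ.T i).coeff j| :=
    single_le_sum (f := fun i => ∑ j ∈ range 5, |(φ.T i).coeff j|) (fun i _ => hnn i)
      (mem_univ i)
  have h3 : (LL φ β : ℤ) = (∑ i, ∑ j ∈ range 5, |(φ.T i).coeff j|) + |β| + 1 := by
    unfold LL
    push_cast
    rw [Int.toNat_of_nonneg (sum_nonneg fun i _ => hnn i)]
  have h4 : (1 : ℤ) ≤ ((k : ℤ) + 1) ^ 4 := one_le_pow₀ (by omega)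
  have h5 := abs_nonneg β
  rw [h3]
  have h6 : (∑ j ∈ range 5, |(φ.T i).coeff j|) * ((k : ℤ) + 1) ^ 4 ≤
      (∑ i, ∑ j ∈ range 5, |(φ.T i).coeff j|) * ((k : ℤ) + 1) ^ 4 :=
    mul_le_mul_of_nonneg_right h2 (by omega)
  nlinarith

theorem countS (β : ℤ) (h : ℕ → ℤ)
    (hmul : ∀ m n : ℕ, m ≠ 0 → n ≠ 0 → h (m * n) = h m * h n)
    (hval : ∀ m : ℕ, m ≠ 0 → h m = 1 ∨ h m = -1) (I : ℕ) (hI : 1 ≤ I) (k X : ℕ)
    (hX : LL φ β * ((MM + φ.k0 + 1) * k) ^ 4 ≤ X) :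
    (k : ℝ) * (Real.exp (-416) ^ I / 2) - (2 : ℝ) ^ (5492 * 2 ^ I) ≤
      (φ.n * (8 * (a.natAbs + β.natAbs + 2)) : ℕ) +
        (φ.n * 8 : ℕ) * ((GS a β h (2 ^ 2 ^ I) X).ncard : ℝ) := by
  classical
  refine (siftS φ.h37 φ.k0 I hI k).trans ?_
  obtain ⟨T, hT⟩ : ∃ T, T = (Ioc 0 k).filter (fun n => ∀ p ∈ Sq I, ¬ Dv φ.G φ.k0 p n) := ⟨_, rfl⟩
  rw [← hT]
  have hMM : 0 < MM := by unfold MM; norm_num
  have hrough : ∀ m ∈ T, ∀ p : ℕ, p.Prime → (p : ℤ) ∣ φ.G.eval ((MM * m + φ.k0 : ℕ) : ℤ) →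
      2 ^ 2 ^ I < p := by
    intro m hm p hp hd
    rw [hT, mem_filter] at hm
    by_contra hcon
    push Not at hcon
    by_cases h11 : p < 37
    · refine φ.hk0 p hp h11 ((eval_mod φ.G ?_).1 hd)
      have h1 : MM * m + φ.k0 ≡ 0 + φ.k0 [MOD p] := by
        apply Nat.ModEq.add_right
        refine (Nat.modEq_zero_iff_dvd).2 (Dvd.dvd.mul_right ?_ m)
        rw [MM_eq]
        have h2 := hp.two_le
        interval_cases p <;> first | decide | (exfalso; revert hp; norm_num)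
      rw [zero_add] at h1
      exact (Int.natCast_modEq_iff).2 h1
    · push Not at h11
      exact hm.2 p (mem_Sq.2 ⟨h11, hcon, hp⟩) hd
  set B : ℕ := a.natAbs + β.natAbs + 1 with hB
  -- values which are too small
  have hbad : ∀ i, (T.filter (fun m => |(φ.T i).eval ((MM * m + φ.k0 : ℕ) : ℤ)| ≤ B)).card ≤
      8 * (B + 1) := fun i => small_abs _ (φ.T1 i) (φ.T4 i) T MM φ.k0 hMM B
  -- good values
  have hgood : ∀ i, (T.filter (fun m => (B : ℤ) < |(φ.T i).eval ((MM * m + φ.k0 : ℕ) : ℤ)| ∧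
      h ((φ.T i).eval ((MM * m + φ.k0 : ℕ) : ℤ) ^ 2 + a).toNat = 1)).card ≤
      8 * (GS a β h (2 ^ 2 ^ I) X).ncard := by
    intro i
    set Y : ℕ → ℤ := fun m => (φ.T i).eval ((MM * m + φ.k0 : ℕ) : ℤ) with hY
    set T' := T.filter (fun m => (B : ℤ) < |Y m| ∧ h (Y m ^ 2 + a).toNat = 1) with hT'
    have h1 := Finset.card_le_mul_card_image (f := fun m : ℕ => (|Y m| - β).toNat) T' 8 (by
      intro t _
      refine le_trans (card_le_card ?_) (fiber_abs (φ.T i) (φ.T1 i) (φ.T4 i) T' MM φ.k0 hMM (t + β))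
      intro m hm
      rw [mem_filter] at hm ⊢
      refine ⟨hm.1, ?_⟩
      have h2 := hm.1
      rw [hT', mem_filter] at h2
      have h3 := h2.2.1
      have h4 : β ≤ |β| := le_abs_self β
      have h5 : (B : ℤ) = |a| + |β| + 1 := by rw [hB]; push_cast; ring
      have h6 := abs_nonneg a
      have h7 : (((|Y m| - β).toNat : ℕ) : ℤ) = |Y m| - β := Int.toNat_of_nonneg (by omega)
      have h8 : ((t : ℕ) : ℤ) = |Y m| - β := by rw [← h7, hm.2]
      show |Y m| = t + β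
      rw [h8]; ring)
    refine h1.trans (Nat.mul_le_mul_left 8 ?_)
    have h2 : ((T'.image (fun m : ℕ => (|Y m| - β).toNat) : Finset ℕ) : Set ℕ) ⊆
        GS a β h (2 ^ 2 ^ I) X := by
      intro t ht
      rw [mem_coe, mem_image] at ht
      obtain ⟨m, hm, rfl⟩ := ht
      rw [hT', mem_filter] at hm
      obtain ⟨hmT, h3, hh⟩ := hm
      have h4 : β ≤ |β| := le_abs_self β
      have h4' : -|β| ≤ β := neg_abs_le β
      have h5 : (B : ℤ) = |a| + |β| + 1 := by rw [hB]; push_cast; ring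
      have h6 := abs_nonneg a
      have h6' := neg_abs_le a
      have h7 : (((|Y m| - β).toNat : ℕ) : ℤ) = |Y m| - β := Int.toNat_of_nonneg (by omega)
      have hval' : ((((|Y m| - β).toNat : ℕ) : ℤ)) ^ 2 + 2 * β * (((|Y m| - β).toNat : ℕ) : ℤ) +
          (β ^ 2 + a) = Y m ^ 2 + a := by
        rw [h7]
        have := sq_abs (Y m)
        linear_combination this
      refine ⟨?_, ?_, ?_, ?_, ?_⟩
      · have : (1 : ℤ) ≤ (((|Y m| - β).toNat : ℕ) : ℤ) := by rw [h7]; omega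
        exact_mod_cast this
      · have h8 := T_bound φ β i (MM * m + φ.k0)
        have h9 : m ∈ Ioc 0 k := by
          rw [hT, mem_filter] at hmT
          exact hmT.1
        rw [mem_Ioc] at h9
        have h10 : (LL φ β : ℤ) * ((((MM * m + φ.k0 : ℕ) : ℤ)) + 1) ^ 4 ≤ X := by
          have h11 : LL φ β * (MM * m + φ.k0 + 1) ^ 4 ≤ X := by
            refine le_trans (Nat.mul_le_mul_left _ (Nat.pow_le_pow_left ?_ 4)) hX
            have e1 : MM * m ≤ MM * k := Nat.mul_le_mul_left _ h9.2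
            have e2 : φ.k0 * 1 ≤ φ.k0 * k := Nat.mul_le_mul_left _ (by omega)
            have e3 : (MM + φ.k0 + 1) * k = MM * k + φ.k0 * k + k := by ring
            omega
          exact_mod_cast h11
        have h12 : (((|Y m| - β).toNat : ℕ) : ℤ) ≤ X := by
          rw [h7]
          have h13 : |Y m| + |β| ≤ X := h8.trans h10
          omega
        exact_mod_cast h12
      · show 0 < ((((|Y m| - β).toNat : ℕ) : ℤ)) ^ 2 + 2 * β * (((|Y m| - β).toNat : ℕ) : ℤ) +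
          (β ^ 2 + a)
        rw [hval', ← sq_abs (Y m)]
        nlinarith
      · intro p hp hd
        rw [hval'] at hd
        exact hrough m hmT p hp (φ.hG _ i p hp hd)
      · show h (((((|Y m| - β).toNat : ℕ) : ℤ)) ^ 2 + 2 * β * (((|Y m| - β).toNat : ℕ) : ℤ) +
          (β ^ 2 + a)).toNat = 1
        rw [hval']
        exact hh
    have h3 := Set.ncard_le_ncard h2 (GS_fin a β h _ X)
    rw [Set.ncard_coe_finset] at h3
    exact h3
  have hcover : T ⊆ (univ.biUnion fun i =>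
      T.filter (fun m => |(φ.T i).eval ((MM * m + φ.k0 : ℕ) : ℤ)| ≤ B)) ∪
      (univ.biUnion fun i => T.filter (fun m =>
        (B : ℤ) < |(φ.T i).eval ((MM * m + φ.k0 : ℕ) : ℤ)| ∧
        h ((φ.T i).eval ((MM * m + φ.k0 : ℕ) : ℤ) ^ 2 + a).toNat = 1)) := by
    intro m hm
    rw [mem_union, mem_biUnion, mem_biUnion]
    by_cases hs : ∃ i, |(φ.T i).eval ((MM * m + φ.k0 : ℕ) : ℤ)| ≤ B
    · obtain ⟨i, hi⟩ := hs
      exact Or.inl ⟨i, mem_univ i, mem_filter.2 ⟨hm, hi⟩⟩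
    · push Not at hs
      obtain ⟨i, hi⟩ := one_of φ h hmul hval ((MM * m + φ.k0 : ℕ) : ℤ) (by
        intro i
        have h3 := hs i
        have h5 : (B : ℤ) = |a| + |β| + 1 := by rw [hB]; push_cast; ring
        have h6 := abs_nonneg a
        have h6' := neg_abs_le a
        have h6'' := abs_nonneg β
        rw [← sq_abs]
        nlinarith)
      exact Or.inr ⟨i, mem_univ i, mem_filter.2 ⟨hm, hs i, hi⟩⟩
  have hcard : T.card ≤ φ.n * (8 * (B + 1)) + φ.n * (8 * (GS a β h (2 ^ 2 ^ I) X).ncard) := by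
    refine (card_le_card hcover).trans ((card_union_le _ _).trans (add_le_add ?_ ?_))
    · refine card_biUnion_le.trans ?_
      refine (sum_le_sum fun i _ => hbad i).trans ?_
      rw [sum_const, card_univ, Fintype.card_fin, smul_eq_mul]
    · refine card_biUnion_le.trans ?_
      refine (sum_le_sum fun i _ => hgood i).trans ?_
      rw [sum_const, card_univ, Fintype.card_fin, smul_eq_mul]
  have hcard' : (T.card : ℝ) ≤ ((φ.n * (8 * (B + 1)) +
      φ.n * (8 * (GS a β h (2 ^ 2 ^ I) X).ncard) : ℕ) : ℝ) := by exact_mod_cast hcard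
  refine hcard'.trans (le_of_eq ?_)
  rw [hB]
  push_cast
  ring

lemma exp416 : Real.exp 416 ≤ 2 ^ 601 := by
  have h1 : Real.exp 416 = (Real.exp 1 ^ 208) ^ 2 := by
    rw [← Real.exp_nat_mul, ← Real.exp_nat_mul]; norm_num
  rw [h1]
  have h6 := Real.exp_one_lt_d9
  have h7 : Real.exp 1 ^ 208 ≤ 2 ^ 150 * (2 ^ 150 * (11 / 10)) := by
    calc Real.exp 1 ^ 208 ≤ 2.7182818286 ^ 208 := pow_le_pow_left₀ (Real.exp_pos 1).le h6.le 208
      _ ≤ 2 ^ 150 * (2 ^ 150 * (11 / 10)) := by norm_num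
  calc (Real.exp 1 ^ 208) ^ 2 ≤ (2 ^ 150 * (2 ^ 150 * (11 / 10))) ^ 2 :=
        pow_le_pow_left₀ (by positivity) h7 2
    _ = ((2 : ℝ) ^ 150) ^ 4 * (121 / 100) := by
        have key : ∀ y : ℝ, (y * (y * (11 / 10))) ^ 2 = y ^ 4 * (121 / 100) := fun y => by ring
        exact key _
    _ ≤ ((2 : ℝ) ^ 150) ^ 4 * 2 := mul_le_mul_of_nonneg_left (by norm_num) (by positivity)
    _ = 2 ^ 601 := by rw [← pow_mul, ← pow_succ]

lemma exp416I (I : ℕ) : (1 : ℝ) ≤ Real.exp (-416) ^ I * 2 ^ (601 * I) := by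
  rw [pow_mul, ← mul_pow]
  apply one_le_pow₀
  rw [Real.exp_neg, inv_mul_eq_div, one_le_div (Real.exp_pos _)]
  exact exp416

lemma pow_big (I : ℕ) (hI : 10 ≤ I) : 601 * I + 3 + 2 ^ I ≤ 8 * 2 ^ I := by
  induction I, hI using Nat.le_induction with
  | base => norm_num
  | succ I hI ih =>
    rw [pow_succ]
    omega

theorem main {a : ℤ} (φ : Eng a) (β : ℤ) : ∃ Z₀ : ℕ,
    ∀ h : ℕ → ℤ, (∀ m n : ℕ, m ≠ 0 → n ≠ 0 → h (m * n) = h m * h n) →
      (∀ m : ℕ, m ≠ 0 → h m = 1 ∨ h m = -1) → ∀ X : ℕ, Z₀ ≤ X →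
      (X : ℝ) ^ ((1 : ℝ) / 4) / Real.log X ^ 602 ≤
        (({t : ℕ | 1 ≤ t ∧ t ≤ X ∧ 0 < (t : ℤ) ^ 2 + 2 * β * t + (β ^ 2 + a) ∧
          (∀ p : ℕ, p.Prime → (p : ℤ) ∣ (t : ℤ) ^ 2 + 2 * β * t + (β ^ 2 + a) →
            (X : ℝ) ^ ((1 : ℝ) / 45000) < p) ∧
          h ((t : ℤ) ^ 2 + 2 * β * t + (β ^ 2 + a)).toNat = 1} : Set ℕ).ncard : ℝ) := by
  obtain ⟨c, hc⟩ : ∃ c : ℕ, c = φ.n * (8 * (a.natAbs + β.natAbs + 2)) := ⟨_, rfl⟩
  obtain ⟨L, hL⟩ : ∃ L : ℕ, L = LL φ β * (MM + φ.k0 + 1) := ⟨_, rfl⟩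
  have hL0 : 1 ≤ LL φ β := by unfold LL; omega
  have hn1 : 1 ≤ φ.n := φ.hn.pos
  have hL1 : 1 ≤ L := by
    rw [hL]
    exact Nat.mul_pos hL0 (by omega)
  have hLr : (1 : ℝ) ≤ L := by exact_mod_cast hL1
  have hnr : (1 : ℝ) ≤ φ.n := by exact_mod_cast hn1
  obtain ⟨B, hB⟩ : ∃ B : ℝ, B = (2 : ℝ) ^ (5500 * 2 ^ (10 + c)) := ⟨_, rfl⟩
  have hev : ∀ᶠ X : ℕ in atTop, (B + 1) * L ≤ (X : ℝ) ^ ((1 : ℝ) / 4) ∧
      2 * (L : ℝ) ≤ (X : ℝ) ^ ((1 : ℝ) / 4) ∧
      2 * (L : ℝ) ≤ (X : ℝ) ^ ((1 : ℝ) / 4 - 11000 / 45000) ∧ 2 ≤ X ∧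
      128 * (L : ℝ) * φ.n ≤ Real.log X := by
    have e1 := ev_ge (show (0 : ℝ) < 1 / 4 by norm_num) ((B + 1) * L)
    have e2 := ev_ge (show (0 : ℝ) < 1 / 4 by norm_num) (2 * (L : ℝ))
    have e3 := ev_ge (show (0 : ℝ) < 1 / 4 - 11000 / 45000 by norm_num) (2 * (L : ℝ))
    have e4 := (Real.tendsto_log_atTop.comp tendsto_natCast_atTop_atTop).eventually_ge_atTop
      (128 * (L : ℝ) * φ.n)
    filter_upwards [e1, e2, e3, eventually_ge_atTop 2, e4] with X h1 h2 h3 h4 h5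
    exact ⟨h1, h2, h3, h4, h5⟩
  rw [eventually_atTop] at hev
  obtain ⟨Z₀, hZ₀⟩ := hev
  refine ⟨Z₀, fun h hmul hval X hX => ?_⟩
  obtain ⟨a1, a2, a3, a4, a5⟩ := hZ₀ X hX
  have hX0 : (0 : ℝ) < X := by exact_mod_cast (by omega : 0 < X)
  have hX1 : (1 : ℝ) < X := by exact_mod_cast (by omega : 1 < X)
  set x : ℝ := (X : ℝ) ^ ((1 : ℝ) / 4) with hx
  have hx4 : x ^ 4 = X := by
    rw [hx, ← Real.rpow_natCast, ← Real.rpow_mul hX0.le]
    norm_num
  have hxpos : 0 < x := by positivity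
  have hLpos : (0 : ℝ) < L := by linarith
  set K : ℕ := ⌊x / L⌋₊ with hK
  have hK1 : (K : ℝ) ≤ x / L := Nat.floor_le (by positivity)
  have hK2 : x / L < K + 1 := Nat.lt_floor_add_one _
  have hxL : 2 ≤ x / L := by
    rw [le_div_iff₀ hLpos]
    exact a2
  have hK3 : x ≤ 2 * L * K := by
    have h1 : x / L ≤ 2 * K := by linarith
    rw [div_le_iff₀ hLpos] at h1
    linarith
  have hKX : LL φ β * ((MM + φ.k0 + 1) * K) ^ 4 ≤ X := by
    have h1 : (L : ℝ) * K ≤ x := by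
      rw [le_div_iff₀ hLpos] at hK1
      linarith
    have h2 : ((L * K : ℕ) : ℝ) ^ 4 ≤ x ^ 4 := by
      push_cast
      exact pow_le_pow_left₀ (by positivity) h1 4
    rw [hx4] at h2
    have h3 : (L * K) ^ 4 ≤ X := by exact_mod_cast h2
    refine le_trans ?_ h3
    have h4 : (L * K) ^ 4 = LL φ β ^ 4 * ((MM + φ.k0 + 1) * K) ^ 4 := by
      rw [hL]
      ring
    rw [h4]
    apply Nat.mul_le_mul_right
    exact Nat.le_self_pow (by norm_num) _
  obtain ⟨I, hI0, hI1, hI2⟩ := exists_levelG 5500 (by norm_num) (x := (K : ℝ)) (10 + c) (by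
    rw [← hB]
    have : B + 1 ≤ x / L := by
      rw [le_div_iff₀ hLpos]
      exact a1
    linarith)
  have hcount := countS φ β h hmul hval I (by omega) K X hKX
  rw [← hc] at hcount
  -- the sieve bound is large
  have hE1 := exp416I I
  have hP := pow_big I (by omega)
  set W : ℝ := (2 : ℝ) ^ (601 * I) with hW
  have hWpos : 0 < W := by positivity
  have hlow : (K : ℝ) / (4 * W) ≤
      (K : ℝ) * (Real.exp (-416) ^ I / 2) - (2 : ℝ) ^ (5492 * 2 ^ I) := by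
    have h1 : (2 : ℝ) ^ (5492 * 2 ^ I) * (4 * W) ≤ K := by
      refine le_trans ?_ hI1
      rw [hW, show (4 : ℝ) = 2 ^ 2 by norm_num, ← pow_add, ← pow_add]
      apply pow_le_pow_right₀ (by norm_num)
      omega
    have h2 : (2 : ℝ) ^ (5492 * 2 ^ I) ≤ K / (4 * W) := by
      rw [le_div_iff₀ (by positivity)]
      exact h1
    have h3 : (K : ℝ) / (2 * W) ≤ (K : ℝ) * (Real.exp (-416) ^ I / 2) := by
      rw [div_le_iff₀ (by positivity)]
      have : (K : ℝ) * (Real.exp (-416) ^ I / 2) * (2 * W) =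
        K * (Real.exp (-416) ^ I * W) := by ring
      rw [this]
      have hK0 : (0 : ℝ) ≤ K := Nat.cast_nonneg _
      nlinarith
    have h4 : (K : ℝ) / (2 * W) = K / (4 * W) + K / (4 * W) := by field_simp; ring
    linarith
  have hcW : (c : ℝ) ≤ K / (8 * W) := by
    rw [le_div_iff₀ (by positivity)]
    have h1 : (c : ℝ) ≤ 2 ^ 2 ^ I := by
      have h2 : c < 2 ^ c := Nat.lt_two_pow_self
      have h3 : 2 ^ c ≤ 2 ^ 2 ^ I := by
        apply Nat.pow_le_pow_right (by norm_num)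
        have h4 : I < 2 ^ I := Nat.lt_two_pow_self
        omega
      have h5 : c ≤ 2 ^ 2 ^ I := by omega
      exact_mod_cast h5
    calc (c : ℝ) * (8 * W) ≤ 2 ^ 2 ^ I * (8 * W) :=
          mul_le_mul_of_nonneg_right h1 (by positivity)
      _ = 2 ^ (2 ^ I + 3 + 601 * I) := by
          rw [hW, show (8 : ℝ) = 2 ^ 3 by norm_num, ← pow_add, ← pow_add]
          congr 1
          ring
      _ ≤ 2 ^ (5500 * 2 ^ I) := by
          apply pow_le_pow_right₀ (by norm_num)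
          omega
      _ ≤ K := hI1
  -- sifting limit
  have hz : (X : ℝ) ^ ((1 : ℝ) / 45000) < (2 : ℝ) ^ 2 ^ I := by
    have h1 : ((X : ℝ) ^ ((1 : ℝ) / 45000)) ^ (11000 : ℕ) < ((2 : ℝ) ^ 2 ^ I) ^ (11000 : ℕ) := by
      rw [← Real.rpow_natCast, ← Real.rpow_mul hX0.le, ← pow_mul]
      have e1 : (1 : ℝ) / 45000 * ((11000 : ℕ) : ℝ) = 11000 / 45000 := by push_cast; ring
      rw [e1, mul_comm (2 ^ I) 11000]
      refine lt_of_le_of_lt ?_ hI2
      have h2 : x = (X : ℝ) ^ ((11000 : ℝ) / 45000) *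
          (X : ℝ) ^ ((1 : ℝ) / 4 - 11000 / 45000) := by
        rw [hx, ← Real.rpow_add hX0]
        congr 1
        ring
      have h3 : (X : ℝ) ^ ((11000 : ℝ) / 45000) * (2 * (L : ℝ)) ≤ 2 * L * K := by
        refine le_trans ?_ hK3
        rw [h2]
        exact mul_le_mul_of_nonneg_left a3 (by positivity)
      have h4 : (X : ℝ) ^ ((11000 : ℝ) / 45000) * (2 * (L : ℝ)) ≤ K * (2 * L) := by linarith
      exact le_of_mul_le_mul_right h4 (by positivity)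
    exact lt_of_pow_lt_pow_left₀ 11000 (by positivity) h1
  -- comparison with powers of the logarithm
  have hlog : 0 < Real.log X := Real.log_pos hX1
  have hKX' : (K : ℝ) ≤ X := by
    have h0 : (K : ℝ) ≤ x := by
      refine hK1.trans ?_
      exact div_le_self hxpos.le hLr
    have h1 : x ≤ x ^ 4 := le_self_pow₀ (by linarith) (by norm_num)
    rw [hx4] at h1
    linarith
  have hI3 : (2 : ℝ) ^ I ≤ Real.log X := by
    have h1 : Real.log ((2 : ℝ) ^ (5500 * 2 ^ I)) ≤ Real.log X :=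
      Real.log_le_log (by positivity) (hI1.trans hKX')
    rw [Real.log_pow] at h1
    push_cast at h1
    have h2 := Real.log_two_gt_d9
    have h3 : (0 : ℝ) < 2 ^ I := by positivity
    nlinarith
  have hI4 : W ≤ Real.log X ^ 601 := by
    calc W = ((2 : ℝ) ^ I) ^ 601 := by rw [hW, ← pow_mul, mul_comm 601 I]
      _ ≤ Real.log X ^ 601 := pow_le_pow_left₀ (by positivity) hI3 601
  have hI5 : W * (128 * L * φ.n) ≤ Real.log X ^ 602 := by
    rw [pow_succ]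
    exact mul_le_mul hI4 a5 (by positivity) (by positivity)
  have hfin : x / Real.log X ^ 602 ≤ (K : ℝ) / (8 * W) / (8 * φ.n) := by
    rw [div_div, div_le_div_iff₀ (by positivity) (by positivity)]
    have h1 : x * (8 * W * (8 * φ.n)) ≤ (2 * L * K) * (8 * W * (8 * φ.n)) :=
      mul_le_mul_of_nonneg_right hK3 (by positivity)
    have h2 : (2 * L * (K : ℝ)) * (8 * W * (8 * φ.n)) = K * (W * (128 * L * φ.n)) := by ring
    rw [h2] at h1
    exact h1.trans (mul_le_mul_of_nonneg_left hI5 (Nat.cast_nonneg _))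
  refine hfin.trans ?_
  rw [div_le_iff₀ (by positivity)]
  have hfin2 : (K : ℝ) / (8 * W) ≤ (φ.n * 8 : ℕ) * ((GS a β h (2 ^ 2 ^ I) X).ncard : ℝ) := by
    have h4 : (K : ℝ) / (4 * W) = K / (8 * W) + K / (8 * W) := by field_simp; ring
    linarith
  refine hfin2.trans ?_
  have hsub : GS a β h (2 ^ 2 ^ I) X ⊆
      {t : ℕ | 1 ≤ t ∧ t ≤ X ∧ 0 < (t : ℤ) ^ 2 + 2 * β * t + (β ^ 2 + a) ∧
          (∀ p : ℕ, p.Prime → (p : ℤ) ∣ (t : ℤ) ^ 2 + 2 * β * t + (β ^ 2 + a) →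
            (X : ℝ) ^ ((1 : ℝ) / 45000) < p) ∧
          h ((t : ℤ) ^ 2 + 2 * β * t + (β ^ 2 + a)).toNat = 1} := by
    rintro n ⟨h0, h1, h1', h2, h4⟩
    refine ⟨h0, h1, h1', fun p hp hd => hz.trans ?_, h4⟩
    exact_mod_cast h2 p hp hd
  have hle := Set.ncard_le_ncard hsub ((Set.finite_Iic X).subset fun n hn => hn.2.1)
  have hle' : ((GS a β h (2 ^ 2 ^ I) X).ncard : ℝ) ≤ _ := Nat.cast_le.2 hle
  push_cast
  rw [mul_comm (_ : ℝ) (8 * (φ.n : ℝ)), mul_comm (φ.n : ℝ) 8]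
  exact mul_le_mul_of_nonneg_left hle' (by positivity)

end Pool.Agent.Helper8.Mono
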