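import Pool.Agent.Helper8.Mono.Tab

/-!
The family of paths for `a ≡ 1 mod 8`, `a ≢ 2 mod 3`, `a ≢ 4 mod 5`.
-/

set_option autoImplicit false

namespace Pool.Agent.Helper8.Mono

open Polynomial Finset

lemma C4end (a g y k c c5 t : ℤ) (h1 : 4 * a * y = g - 1) (h2 : 4 * c5 = a * (g + 1) ^ 2 + 3 * a + 1)
    (h3 : 4 * c = -1 - a * g ^ 2 + 2 * a * g + 8 * k * a * g ^ 2) (h4 : 2 * t = 1 + a * g ^ 2) :
    (En 0 1 1 0 [c, 2 * g, 0 + 2 * k, -4, c5, 2 * y, -2 * a]).2.2.1 ^ 2 +
      a * (En 0 1 1 0 [c, 2 * g, 0 + 2 * k, -4, c5, 2 * y, -2 * a]).2.2.2 ^ 2 =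
    (2 * g ^ 2 * c ^ 2 + 2 * g * c + t) ^ 2 := by
  have key : ∀ v1 v2 : ℤ, 4 * (-2 * a * (2 * y * (c5 * (-4 * ((0 + 2 * k) * v2 + v1) + v2) +
      ((0 + 2 * k) * v2 + v1)) + (-4 * ((0 + 2 * k) * v2 + v1) + v2)) +
      (c5 * (-4 * ((0 + 2 * k) * v2 + v1) + v2) + ((0 + 2 * k) * v2 + v1))) =
      2 * ((2 * g * c + 1 - a * g ^ 2) * v2 + 2 * a * g ^ 3 * v1) := by
    intro v1 v2
    linear_combination (-4 * (c5 * (-4 * ((0 + 2 * k) * v2 + v1) + v2) +
      ((0 + 2 * k) * v2 + v1))) * h1 + ((2 - g) * (-4 * ((0 + 2 * k) * v2 + v1) + v2)) * h2 -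
      (g * v2) * h3
  have hX : (En 0 1 1 0 [c, 2 * g, 0 + 2 * k, -4, c5, 2 * y, -2 * a]).2.2.1 =
      2 * g ^ 2 * c ^ 2 + 2 * g * c + t - a * g ^ 2 := by
    simp only [En]
    apply mul_left_cancel₀ (show (4 : ℤ) ≠ 0 by norm_num)
    have := key (c * 1 + 0) (2 * g * (c * 1 + 0) + 1)
    rw [this]
    linear_combination (-2) * h4
  have hY : (En 0 1 1 0 [c, 2 * g, 0 + 2 * k, -4, c5, 2 * y, -2 * a]).2.2.2 =
      g * (2 * g * c + 1) := by
    simp only [En]
    apply mul_left_cancel₀ (show (4 : ℤ) ≠ 0 by norm_num)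
    have := key (c * 0 + 1) (2 * g * (c * 0 + 1) + 0)
    rw [this]
    ring
  rw [hX, hY]
  linear_combination (-(a * g ^ 2)) * h4

namespace C4

section defs

variable {R : Type*} [CommRing R]

def gg (j y : R) : R := 1 + 4 * (8 * j + 1) * y

def g0 (j y : R) : R := 2 * j - 4 * (8 * j + 1) ^ 3 * y ^ 2

def g1 (j y : R) : R := 2 * (8 * j + 1) * gg j y ^ 2

def c5 (j y : R) : R := (8 * j + 1) * (1 + 2 * (8 * j + 1) * y) ^ 2 + 6 * j + 1

def L (j y k : R) : List R :=
  LL1 (g0 j y) (g1 j y) 0 2 [2 * gg j y] [-4, c5 j y, 2 * y, -2 * (8 * j + 1)] k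

def G (j y k : R) : R := (Qs (8 * j + 1) 0 1 1 0 (L j y k)).prod

end defs

/-- the square root of the last value -/
def zz (j y k : ℤ) : ℤ := 2 * gg j y ^ 2 * (g0 j y + g1 j y * k) ^ 2 +
  2 * gg j y * (g0 j y + g1 j y * k) + 4 * j + 1 + 4 * (8 * j + 1) ^ 2 * y +
    8 * (8 * j + 1) ^ 3 * y ^ 2

lemma end_eq (j y k : ℤ) : (En 0 1 1 0 (L j y k)).2.2.1 ^ 2 +
    (8 * j + 1) * (En 0 1 1 0 (L j y k)).2.2.2 ^ 2 = zz j y k ^ 2 := by
  have h := C4end (8 * j + 1) (gg j y) y k (g0 j y + g1 j y * k) (c5 j y)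
    (4 * j + 1 + 4 * (8 * j + 1) ^ 2 * y + 8 * (8 * j + 1) ^ 3 * y ^ 2)
    (by unfold gg; ring) (by unfold c5 gg; ring) (by unfold g0 g1 gg; ring) (by unfold gg; ring)
  have h2 : L j y k = [g0 j y + g1 j y * k, 2 * gg j y, 0 + 2 * k, -4, c5 j y, 2 * y,
    -2 * (8 * j + 1)] := rfl
  rw [h2, h]
  unfold zz
  ring

lemma L_map {R S : Type*} [CommRing R] [CommRing S] (f : R →+* S) (j y k : R) :
    (L j y k).map f = L (f j) (f y) (f k) := by
  unfold L LL1 g0 g1 c5 gg
  simp [map_ofNat]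

lemma G_cast (p : ℕ) (j y k : ℤ) : ((G j y k : ℤ) : ZMod p) = G (j : ZMod p) (y : ZMod p) k := by
  unfold G
  have h1 := Qs_map (Int.castRingHom (ZMod p)) (8 * j + 1) (L j y k) 0 1 1 0
  rw [L_map] at h1
  have h2 := map_list_prod (Int.castRingHom (ZMod p)) (Qs (8 * j + 1) 0 1 1 0 (L j y k))
  rw [h1] at h2
  simpa using h2

lemma G_cong (p : ℕ) (j j' y y' k k' : ℤ) (hj : j ≡ j' [ZMOD p]) (hy : y ≡ y' [ZMOD p])
    (hk : k ≡ k' [ZMOD p]) (hd : ¬ (p : ℤ) ∣ G j y k) : ¬ (p : ℤ) ∣ G j' y' k' :=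
  cong_of_cast (fun j y k : ℤ => G j y k) (fun _ j y k => G j y k)
    (fun p j y k => G_cast p j y k) p j j' y y' k k' hj hy hk hd

lemma t2 : tabG G 2 (fun _ => false) = true := by decide +kernel
lemma t3 : tabG G 3 (fun j => (8 * j + 1) % 3 == 2) = true := by decide +kernel
lemma t5 : tabG G 5 (fun j => (8 * j + 1) % 5 == 4) = true := by decide +kernel
lemma t7 : tabG G 7 (fun _ => false) = true := by decide +kernel
lemma t11 : tabG G 11 (fun _ => false) = true := by decide +kernel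
lemma t13 : tabG G 13 (fun _ => false) = true := by decide +kernel
lemma t17 : tabG G 17 (fun _ => false) = true := by decide +kernel
lemma t19 : tabG G 19 (fun _ => false) = true := by decide +kernel
lemma t23 : tabG G 23 (fun _ => false) = true := by decide +kernel
lemma t29 : tabG G 29 (fun _ => false) = true := by decide +kernel
lemma t31 : tabG G 31 (fun _ => false) = true := by decide +kernel

lemma tab (j : ℤ) (h3 : (8 * j + 1) % 3 ≠ 2) (h5 : (8 * j + 1) % 5 ≠ 4) (p : ℕ) (hp : p.Prime)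
    (h37 : p < 37) : ∃ y k : ℤ, ¬ (p : ℤ) ∣ G j y k := by
  have key : ∀ (cond : ℕ → Bool), tabG G p cond = true → cond (j % (p : ℤ)).toNat = false →
      ∃ y k : ℤ, ¬ (p : ℤ) ∣ G j y k := fun cond ht hj =>
    tab_use G p hp.pos (G_cong p) cond ht j hj
  have h2 := hp.two_le
  interval_cases p
  all_goals first
    | exact absurd hp (by decide)
    | exact key _ t2 rfl
    | exact key _ t7 rfl
    | exact key _ t11 rfl
    | exact key _ t13 rfl
    | exact key _ t17 rfl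
    | exact key _ t19 rfl
    | exact key _ t23 rfl
    | exact key _ t29 rfl
    | exact key _ t31 rfl
    | skip
  · refine key _ t3 ?_
    have h6 : ((j % ((3 : ℕ) : ℤ)).toNat : ℤ) = j % 3 := Int.toNat_of_nonneg (by omega)
    simp only [beq_eq_false_iff_ne, ne_eq]
    omega
  · refine key _ t5 ?_
    have h6 : ((j % ((5 : ℕ) : ℤ)).toNat : ℤ) = j % 5 := Int.toNat_of_nonneg (by omega)
    simp only [beq_eq_false_iff_ne, ne_eq]
    omega

theorem main (j : ℤ) (h3 : (8 * j + 1) % 3 ≠ 2) (h5 : (8 * j + 1) % 5 ≠ 4) :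
    Nonempty (Eng (8 * j + 1)) := by
  obtain ⟨y, k0, hgood, hCc⟩ := pick (fun p y k => ¬ (p : ℤ) ∣ G j y k)
    (fun p y y' k k' hy hk h => G_cong p j j y y' k k' rfl hy hk h)
    (tab j h3 h5) (badS (16 * (8 * j + 1) + 1)) (fun p hp => badS_prime _ hp)
    (fun p hp => badS_ge _ hp) (fun p y => (p : ℤ) ∣ 1 * y - 1)
    (fun p hp => lin_solve (badS_prime _ hp) 1 1 (not_dvd_small (badS_prime _ hp)
      (badS_ge _ hp) 1 (by norm_num) (by norm_num)))
  have h37 : (37 : ℤ) ∣ 1 * y - 1 := hCc 37 (badS_37 _)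
  have hy0 : y ≠ 0 := by omega
  have ha0 : (8 * j + 1) ≠ 0 := by omega
  have hg : gg j y ≠ 0 := by
    have : gg j y = 2 * (2 * ((8 * j + 1) * y)) + 1 := by unfold gg; ring
    omega
  have hg1 : g1 j y ≠ 0 := mul_ne_zero (mul_ne_zero (by norm_num) ha0) (pow_ne_zero 2 hg)
  have two_le : ∀ x : ℤ, x ≠ 0 → 2 ≤ |2 * x| := by
    intro x hx
    rw [abs_mul, abs_of_nonneg (by norm_num : (0 : ℤ) ≤ 2)]
    have := Int.one_le_abs hx
    linarith
  have hc5 : 2 ≤ |c5 j y| := by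
    have h1 : c5 j y = 2 * ((4 * j + 2 * (8 * j + 1) * ((8 * j + 1) * y) * (1 + (8 * j + 1) * y)) +
      3 * j + 1) := by
      unfold c5; ring
    rw [h1]
    apply two_le
    intro h0
    have h2 : c5 j y = 0 := by rw [h1, h0]; ring
    have h3 : (8 * j + 1) * (-(4 * (1 + 2 * (8 * j + 1) * y) ^ 2 + 3)) = 1 := by
      unfold c5 at h2
      linear_combination (-4) * h2
    have h4 : (8 * j + 1) ∣ 1 := ⟨_, h3.symm⟩
    have h5 : j = 0 := by
      have h6 := Int.le_of_dvd (by norm_num) h4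
      have h7 : -(8 * j + 1) ∣ 1 := (Int.neg_dvd).2 h4
      have h8 := Int.le_of_dvd (by norm_num) h7
      omega
    rw [h5] at h3
    nlinarith [sq_nonneg (1 + 2 * (8 * 0 + 1) * y)]
  have hLL : ∀ k : ℤ, LL1 (g0 j y) (g1 j y) 0 2 [2 * gg j y] [-4, c5 j y, 2 * y, -2 * (8 * j + 1)] k =
      L j y k := fun k => rfl
  refine build (8 * j + 1) (g0 j y) (g1 j y) 0 2 [2 * gg j y] [-4, c5 j y, 2 * y, -2 * (8 * j + 1)]
    [] 1 0 ?_ ?_ hg1 (by norm_num) ?_ (show Odd 7 by decide) ?_ ?_ (by simp)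
    1 0 (2 * gg j y) 1 ?_ ?_ (fun _ _ => 1) ?_ ?_ k0 ?_
  · intro c hc
    simp only [List.mem_cons, List.not_mem_nil, or_false] at hc
    rw [hc]
    exact two_le _ hg
  · intro c hc
    simp only [List.mem_cons, List.not_mem_nil, or_false] at hc
    rcases hc with rfl | rfl | rfl | rfl
    · norm_num
    · exact hc5
    · exact two_le _ hy0
    · rw [show -2 * (8 * j + 1) = 2 * (-(8 * j + 1)) by ring]
      exact two_le _ (neg_ne_zero.2 ha0)
  · intro t ht
    simp [Ts] at ht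
  · intro k p hp hd
    simp only [List.map_nil, Qs, List.prod_nil] at hd
    exact absurd hd (by
      intro h
      exact (Nat.prime_iff_prime_int.1 hp).not_dvd_one h)
  · intro k
    rw [hLL, end_eq]
    refine ⟨zz j y k, ?_⟩
    simp only [En, List.map_nil]
    ring
  · simp [En]
  · intro p hp hp37
    have hF : Fact p.Prime := ⟨hp⟩
    have n2 : (2 : ZMod p) ≠ 0 := by exact_mod_cast small_ne hp37 2 (by norm_num) (by norm_num)
    have n3 : (3 : ZMod p) ≠ 0 := by exact_mod_cast small_ne hp37 3 (by norm_num) (by norm_num)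
    have n4 : (4 : ZMod p) ≠ 0 := by exact_mod_cast small_ne hp37 4 (by norm_num) (by norm_num)
    have n8 : (8 : ZMod p) ≠ 0 := by exact_mod_cast small_ne hp37 8 (by norm_num) (by norm_num)
    have n16 : (16 : ZMod p) ≠ 0 := by exact_mod_cast small_ne hp37 16 (by norm_num) (by norm_num)
    refine ⟨by exact_mod_cast n2, ?_⟩
    have hgc : ((gg j y : ℤ) : ZMod p) = 1 + 4 * (8 * j + 1) * y := by
      unfold gg; push_cast; ring
    have hg1c : ((g1 j y : ℤ) : ZMod p) = 2 * (8 * j + 1) * ((gg j y : ℤ) : ZMod p) ^ 2 := by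
      unfold g1; push_cast; ring
    have hg0c : ((g0 j y : ℤ) : ZMod p) = 2 * j - 4 * (8 * j + 1) ^ 3 * y ^ 2 := by
      unfold g0; push_cast; ring
    have hQ : (Qs ((8 * j + 1 : ℤ) : ZMod p) 0 1 1 0 (((g0 j y : ℤ) : ZMod p) ::
        [2 * gg j y].map (Int.castRingHom (ZMod p)))).prod =
        (((g0 j y : ℤ) : ZMod p) ^ 2 + (8 * j + 1)) *
          ((2 * ((gg j y : ℤ) : ZMod p) * ((g0 j y : ℤ) : ZMod p) + 1) ^ 2 +
            (8 * j + 1) * (2 * ((gg j y : ℤ) : ZMod p)) ^ 2) := by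
      simp only [Qs, List.map_cons, List.map_nil, List.prod_cons, List.prod_nil]
      push_cast
      simp
    by_cases hA : (8 * (j : ZMod p) + 1) = 0
    · right
      refine ⟨by rw [hg1c, hA]; ring, ?_⟩
      rw [hQ, hgc, hA]
      have h0 : 4 * ((g0 j y : ℤ) : ZMod p) = -1 := by
        rw [hg0c, hA]
        linear_combination hA
      apply mul_ne_zero
      · intro h
        apply one_ne_zero (α := ZMod p)
        linear_combination 16 * h - (4 * ((g0 j y : ℤ) : ZMod p) - 1) * h0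
      · intro h
        apply one_ne_zero (α := ZMod p)
        linear_combination 4 * h - (4 * ((g0 j y : ℤ) : ZMod p) + 3) * h0
    · by_cases hG : ((gg j y : ℤ) : ZMod p) = 0
      · right
        refine ⟨by rw [hg1c, hG]; ring, ?_⟩
        rw [hQ, hG]
        rw [hgc] at hG
        have h0 : 4 * ((g0 j y : ℤ) : ZMod p) = -1 := by
          rw [hg0c]
          linear_combination (8 * (j : ZMod p) + 1) * (1 - 4 * (8 * j + 1) * y) * hG
        apply mul_ne_zero
        · intro h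
          have h1 : ((16 * (8 * j + 1) + 1 : ℤ) : ZMod p) = 0 := by
            push_cast
            linear_combination 16 * h - (4 * ((g0 j y : ℤ) : ZMod p) - 1) * h0
          have hpS := badS_mem (by omega) hp hp37 ((ZMod.intCast_zmod_eq_zero_iff_dvd _ _).1 h1)
          have h6 : ((1 * y - 1 : ℤ) : ZMod p) = 0 :=
            (ZMod.intCast_zmod_eq_zero_iff_dvd _ _).2 (hCc p hpS)
          push_cast at h6 h1
          apply n3
          linear_combination 4 * hG - h1 - 16 * (8 * (j : ZMod p) + 1) * h6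
        · intro h
          apply one_ne_zero (α := ZMod p)
          linear_combination h
      · left
        refine ⟨?_, ?_⟩
        · rw [hg1c]
          exact mul_ne_zero (mul_ne_zero n2 hA) (pow_ne_zero 2 hG)
        · intro hw
          exfalso
          push_cast at hw
          exact (mul_ne_zero n2 hG) hw
  · intro p k
    simp
  · intro p hF h
    have : (univ.filter (fun k : ZMod p => (1 : ZMod p) = 0)) = ∅ := by
      rw [filter_eq_empty_iff]
      intro k _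
      exact one_ne_zero
    rw [this]
    simp
  · intro p hp h37
    rw [hLL, eval_one, mul_one]
    exact hgood p hp h37

end C4

end Pool.Agent.Helper8.Mono
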