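import Pool.Agent.Helper8.Mono.BuildE

/-!
The family of paths for `a = 8 m`, `m = 2 i`, `a ≢ 2 mod 3`, `a ≡ 4 mod 5`.
-/

set_option autoImplicit false

namespace Pool.Agent.Helper8.Mono

open Polynomial Finset

/-- bad primes -/
def RE1 {R : Type*} [CommRing R] (a : R) : R :=
      ((((65980465500) * a) ^ 2 + a * ((45033692600)) ^ 2) * (((-21993488500) * a) ^ 2 + a * ((45033692600)) ^ 2)) *
      (((((-2771179551000) * a) ^ 2 + a * ((-1847428112200)) ^ 2) * (((923726517000) * a) ^ 2 + a * ((-1847428112200)) ^ 2)) *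
      (((((116455521607500) * a) ^ 2 + a * ((77637014405000)) ^ 2) * (((-38818507202500) * a) ^ 2 + a * ((77637014405000)) ^ 2)) *
      (((((49843600) + (-55456581252750) * a) ^ 2 + a * ((-36971104012100)) ^ 2) * (((49843600) + (18485527084250) * a) ^ 2 + a * ((-36971004324900)) ^ 2)) *
      (((((99687200) + (5542359102000) * a) ^ 2 + a * ((3694806380800)) ^ 2) * (((99687200) + (-1847453034000) * a) ^ 2 + a * ((3695005755200)) ^ 2)) *
      (((((1046715600) + (-32990232750) * a) ^ 2 + a * ((-23040204100)) ^ 2) * (((1046715600) + (10996744250) * a) ^ 2 + a * ((-20946772900)) ^ 2)) *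
      (((((175947908000)) ^ 2 + a * ((-175947908000)) ^ 2) * (((175947908000)) ^ 2 + a * ((175947908000)) ^ 2))))))))

lemma RE1_ne {a : ℤ} (ha : ¬ IsSquare (-a)) : RE1 a ≠ 0 := by
  unfold RE1
  refine mul_ne_zero (mul_ne_zero (norm_ne ha _ (by norm_num)) (norm_ne ha _ (by norm_num)))
    (mul_ne_zero (mul_ne_zero (norm_ne ha _ (by norm_num)) (norm_ne ha _ (by norm_num)))
    (mul_ne_zero (mul_ne_zero (norm_ne ha _ (by norm_num)) (norm_ne ha _ (by norm_num)))
    (mul_ne_zero (mul_ne_zero (norm_ne ha _ (by norm_num)) (norm_ne ha _ (by norm_num)))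
    (mul_ne_zero (mul_ne_zero (norm_ne ha _ (by norm_num)) (norm_ne ha _ (by norm_num)))
    (mul_ne_zero (mul_ne_zero (norm_ne ha _ (by norm_num)) (norm_ne ha _ (by norm_num)))
    (mul_ne_zero (norm_ne ha _ (by norm_num)) (norm_ne ha _ (by norm_num))))))))

lemma E1_F {F : Type*} [Field F] (a y c ω : F) (ha : a = -ω ^ 2)
    (hc : 3530 * c = (3614) + (-1765) * ω) (hy : 12460900 * y * ω = (4) + (-2818705) * ω)
    (h : (Qs a 0 1 1 0 [c, -42, -42, 2 * y, 2, 10, 168]).prod = 0) : RE1 a = 0 := by
  have key : (Qs a 0 1 1 0 [c, -42, -42, 2 * y, 2, 10, 168]).prod =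
      ((c * (1) + (0)) ^ 2 + a * (1) ^ 2) *
      (((c * (-42) + (1)) ^ 2 + a * (-42) ^ 2) *
      (((c * (1765) + (-42)) ^ 2 + a * (1765) ^ 2) *
      (((c * ((-42) + (3530) * y) + ((1) + (-84) * y)) ^ 2 + a * ((-42) + (3530) * y) ^ 2) *
      (((c * ((1681) + (7060) * y) + ((-40) + (-168) * y)) ^ 2 + a * ((1681) + (7060) * y) ^ 2) *
      (((c * ((16768) + (74130) * y) + ((-399) + (-1764) * y)) ^ 2 + a * ((16768) + (74130) * y) ^ 2) *
      (((c * ((2818705) + (12460900) * y) + ((-67072) + (-296520) * y)) ^ 2 + a * ((2818705) + (12460900) * y) ^ 2))))))) := by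
    simp only [Qs, List.prod_cons, List.prod_nil]
    ring
  rw [key] at h
  simp only [mul_eq_zero] at h
  unfold RE1
  rcases h with h | h | h | h | h | h | h
  · have hY : 12460900 * ω * (1) = (12460900) * ω := by linear_combination (0) * hy
    have hX : 43986977000 * ω * (c * (1) + (0)) = (45033692600) * ω + (-21993488500) * ω ^ 2 := by
      linear_combination (12460900 * ω * (1)) * hc + (((3614) + (-1765) * ω) * (0) + 3530 * (0)) * hy
    have hN : ((45033692600) * ω + (-21993488500) * ω ^ 2) ^ 2 - 12460900 * ω ^ 2 * ((12460900) * ω) ^ 2 = 0 := by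
      rw [ha] at h
      linear_combination (1934854145598529000000 * ω ^ 2) * h - (43986977000 * ω * (c * (1) + (0)) + ((45033692600) * ω + (-21993488500) * ω ^ 2)) * hX +
        (12460900 * ω ^ 2) * (12460900 * ω * (1) + ((12460900) * ω)) * hY
    have hR : (((65980465500) * a) ^ 2 + a * ((45033692600)) ^ 2) * (((-21993488500) * a) ^ 2 + a * ((45033692600)) ^ 2) = 0 := by
      rw [ha]
      linear_combination (((-45033692600) * ω + (-65980465500) * ω ^ 2) * ((-45033692600) * ω + (21993488500) * ω ^ 2)) * hN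
    rw [hR]
    ring
  · have hY : 12460900 * ω * (-42) = (-523357800) * ω := by linear_combination (0) * hy
    have hX : 43986977000 * ω * (c * (-42) + (1)) = (-1847428112200) * ω + (923726517000) * ω ^ 2 := by
      linear_combination (12460900 * ω * (-42)) * hc + (((3614) + (-1765) * ω) * (0) + 3530 * (0)) * hy
    have hN : ((-1847428112200) * ω + (923726517000) * ω ^ 2) ^ 2 - 12460900 * ω ^ 2 * ((-523357800) * ω) ^ 2 = 0 := by
      rw [ha] at h
      linear_combination (1934854145598529000000 * ω ^ 2) * h - (43986977000 * ω * (c * (-42) + (1)) + ((-1847428112200) * ω + (923726517000) * ω ^ 2)) * hX +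
        (12460900 * ω ^ 2) * (12460900 * ω * (-42) + ((-523357800) * ω)) * hY
    have hR : (((-2771179551000) * a) ^ 2 + a * ((-1847428112200)) ^ 2) * (((923726517000) * a) ^ 2 + a * ((-1847428112200)) ^ 2) = 0 := by
      rw [ha]
      linear_combination (((1847428112200) * ω + (2771179551000) * ω ^ 2) * ((1847428112200) * ω + (-923726517000) * ω ^ 2)) * hN
    rw [hR]
    ring
  · have hY : 12460900 * ω * (1765) = (21993488500) * ω := by linear_combination (0) * hy
    have hX : 43986977000 * ω * (c * (1765) + (-42)) = (77637014405000) * ω + (-38818507202500) * ω ^ 2 := by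
      linear_combination (12460900 * ω * (1765)) * hc + (((3614) + (-1765) * ω) * (0) + 3530 * (0)) * hy
    have hN : ((77637014405000) * ω + (-38818507202500) * ω ^ 2) ^ 2 - 12460900 * ω ^ 2 * ((21993488500) * ω) ^ 2 = 0 := by
      rw [ha] at h
      linear_combination (1934854145598529000000 * ω ^ 2) * h - (43986977000 * ω * (c * (1765) + (-42)) + ((77637014405000) * ω + (-38818507202500) * ω ^ 2)) * hX +
        (12460900 * ω ^ 2) * (12460900 * ω * (1765) + ((21993488500) * ω)) * hY
    have hR : (((116455521607500) * a) ^ 2 + a * ((77637014405000)) ^ 2) * (((-38818507202500) * a) ^ 2 + a * ((77637014405000)) ^ 2) = 0 := by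
      rw [ha]
      linear_combination (((-77637014405000) * ω + (-116455521607500) * ω ^ 2) * ((-77637014405000) * ω + (38818507202500) * ω ^ 2)) * hN
    rw [hR]
    ring
  · have hY : 12460900 * ω * ((-42) + (3530) * y) = (14120) + (-10473386450) * ω := by linear_combination (3530) * hy
    have hX : 43986977000 * ω * (c * ((-42) + (3530) * y) + ((1) + (-84) * y)) = (49843600) + (-36971054168500) * ω + (18485527084250) * ω ^ 2 := by
      linear_combination (12460900 * ω * ((-42) + (3530) * y)) * hc + (((3614) + (-1765) * ω) * (3530) + 3530 * (-84)) * hy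
    have hN : ((49843600) + (-36971054168500) * ω + (18485527084250) * ω ^ 2) ^ 2 - 12460900 * ω ^ 2 * ((14120) + (-10473386450) * ω) ^ 2 = 0 := by
      rw [ha] at h
      linear_combination (1934854145598529000000 * ω ^ 2) * h - (43986977000 * ω * (c * ((-42) + (3530) * y) + ((1) + (-84) * y)) + ((49843600) + (-36971054168500) * ω + (18485527084250) * ω ^ 2)) * hX +
        (12460900 * ω ^ 2) * (12460900 * ω * ((-42) + (3530) * y) + ((14120) + (-10473386450) * ω)) * hY
    have hR : (((49843600) + (-55456581252750) * a) ^ 2 + a * ((-36971104012100)) ^ 2) * (((49843600) + (18485527084250) * a) ^ 2 + a * ((-36971004324900)) ^ 2) = 0 := by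
      rw [ha]
      linear_combination (((49843600) + (36971104012100) * ω + (55456581252750) * ω ^ 2) * ((49843600) + (36971004324900) * ω + (-18485527084250) * ω ^ 2)) * hN
    rw [hR]
    ring
  · have hY : 12460900 * ω * ((1681) + (7060) * y) = (28240) + (1046715600) * ω := by linear_combination (7060) * hy
    have hX : 43986977000 * ω * (c * ((1681) + (7060) * y) + ((-40) + (-168) * y)) = (99687200) + (3694906068000) * ω + (-1847453034000) * ω ^ 2 := by
      linear_combination (12460900 * ω * ((1681) + (7060) * y)) * hc + (((3614) + (-1765) * ω) * (7060) + 3530 * (-168)) * hy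
    have hN : ((99687200) + (3694906068000) * ω + (-1847453034000) * ω ^ 2) ^ 2 - 12460900 * ω ^ 2 * ((28240) + (1046715600) * ω) ^ 2 = 0 := by
      rw [ha] at h
      linear_combination (1934854145598529000000 * ω ^ 2) * h - (43986977000 * ω * (c * ((1681) + (7060) * y) + ((-40) + (-168) * y)) + ((99687200) + (3694906068000) * ω + (-1847453034000) * ω ^ 2)) * hX +
        (12460900 * ω ^ 2) * (12460900 * ω * ((1681) + (7060) * y) + ((28240) + (1046715600) * ω)) * hY
    have hR : (((99687200) + (5542359102000) * a) ^ 2 + a * ((3694806380800)) ^ 2) * (((99687200) + (-1847453034000) * a) ^ 2 + a * ((3695005755200)) ^ 2) = 0 := by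
      rw [ha]
      linear_combination (((99687200) + (-3694806380800) * ω + (-5542359102000) * ω ^ 2) * ((99687200) + (-3695005755200) * ω + (1847453034000) * ω ^ 2)) * hN
    rw [hR]
    ring
  · have hY : 12460900 * ω * ((16768) + (74130) * y) = (296520) + (-6230450) * ω := by linear_combination (74130) * hy
    have hX : 43986977000 * ω * (c * ((16768) + (74130) * y) + ((-399) + (-1764) * y)) = (1046715600) + (-21993488500) * ω + (10996744250) * ω ^ 2 := by
      linear_combination (12460900 * ω * ((16768) + (74130) * y)) * hc + (((3614) + (-1765) * ω) * (74130) + 3530 * (-1764)) * hy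
    have hN : ((1046715600) + (-21993488500) * ω + (10996744250) * ω ^ 2) ^ 2 - 12460900 * ω ^ 2 * ((296520) + (-6230450) * ω) ^ 2 = 0 := by
      rw [ha] at h
      linear_combination (1934854145598529000000 * ω ^ 2) * h - (43986977000 * ω * (c * ((16768) + (74130) * y) + ((-399) + (-1764) * y)) + ((1046715600) + (-21993488500) * ω + (10996744250) * ω ^ 2)) * hX +
        (12460900 * ω ^ 2) * (12460900 * ω * ((16768) + (74130) * y) + ((296520) + (-6230450) * ω)) * hY
    have hR : (((1046715600) + (-32990232750) * a) ^ 2 + a * ((-23040204100)) ^ 2) * (((1046715600) + (10996744250) * a) ^ 2 + a * ((-20946772900)) ^ 2) = 0 := by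
      rw [ha]
      linear_combination (((1046715600) + (23040204100) * ω + (32990232750) * ω ^ 2) * ((1046715600) + (20946772900) * ω + (-10996744250) * ω ^ 2)) * hN
    rw [hR]
    ring
  · have hY : 12460900 * ω * ((2818705) + (12460900) * y) = (49843600) := by linear_combination (12460900) * hy
    have hX : 43986977000 * ω * (c * ((2818705) + (12460900) * y) + ((-67072) + (-296520) * y)) = (175947908000) := by
      linear_combination (12460900 * ω * ((2818705) + (12460900) * y)) * hc + (((3614) + (-1765) * ω) * (12460900) + 3530 * (-296520)) * hy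
    have hN : ((175947908000)) ^ 2 - 12460900 * ω ^ 2 * ((49843600)) ^ 2 = 0 := by
      rw [ha] at h
      linear_combination (1934854145598529000000 * ω ^ 2) * h - (43986977000 * ω * (c * ((2818705) + (12460900) * y) + ((-67072) + (-296520) * y)) + ((175947908000))) * hX +
        (12460900 * ω ^ 2) * (12460900 * ω * ((2818705) + (12460900) * y) + ((49843600))) * hY
    have hR : (((175947908000)) ^ 2 + a * ((-175947908000)) ^ 2) * (((175947908000)) ^ 2 + a * ((175947908000)) ^ 2) = 0 := by
      rw [ha]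
      linear_combination (((175947908000) + (175947908000) * ω) * ((175947908000) + (-175947908000) * ω)) * hN
    rw [hR]
    ring

namespace E1

section defs

variable {R : Type*} [CommRing R]

def mm (i : R) : R := 2 * i

def ww (y : R) : R := 2818705 + 12460900 * y

def wp (y : R) : R := 16768 + 74130 * y

def rp (y : R) : R := -399 + -1764 * y

def Cp (i y : R) : R := 2 ^ 2 + 2 * mm i * ww y ^ 2

def g0 (i y : R) : R := 1 - 2 * mm i * wp y * ww y

def L (i y k : R) : List R := LL1 (g0 i y) (-2 * Cp i y) 0 2 [-42, -42, 2 * y, 2, 10, 168] [-Cp i y] k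

def q0 (i y : R) : R := (1409353 + 6230450 * y) +
  ww y * (-2 * (mm i * wp y * ww y) + 2 * (mm i * wp y * ww y) ^ 2) + mm i * ww y -
  4 * g0 i y * wp y + (798 + 3528 * y)

def q1 (i y : R) : R := -2 * Cp i y * (ww y * g0 i y - 4 * wp y)

def q2 (i y : R) : R := 2 * ww y * Cp i y ^ 2

def G (i y k : R) : R := (Qs (8 * mm i) 0 1 1 0 (L i y k)).prod *
  ((q0 i y + q1 i y * k + q2 i y * k ^ 2) ^ 2 + 8 * mm i)

end defs

lemma L_map {R S : Type*} [CommRing R] [CommRing S] (f : R →+* S) (i y k : R) :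
    (L i y k).map f = L (f i) (f y) (f k) := by
  unfold L LL1 g0 Cp mm ww wp
  simp [map_ofNat]

lemma G_cast (p : ℕ) (i y k : ℤ) : ((G i y k : ℤ) : ZMod p) = G (i : ZMod p) (y : ZMod p) k := by
  unfold G
  have h1 := Qs_map (Int.castRingHom (ZMod p)) (8 * mm i) (L i y k) 0 1 1 0
  rw [L_map] at h1
  have h2 := map_list_prod (Int.castRingHom (ZMod p)) (Qs (8 * mm i) 0 1 1 0 (L i y k))
  rw [h1] at h2
  have h3 : ((8 * mm i : ℤ) : ZMod p) = 8 * mm (i : ZMod p) := by unfold mm; push_cast; ring
  have h4 : (((q0 i y + q1 i y * k + q2 i y * k ^ 2) ^ 2 + 8 * mm i : ℤ) : ZMod p) =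
      ((q0 (i : ZMod p) (y : ZMod p) + q1 (i : ZMod p) (y : ZMod p) * k +
        q2 (i : ZMod p) (y : ZMod p) * k ^ 2) ^ 2 + 8 * mm (i : ZMod p)) := by
    simp only [q0, q1, q2, g0, Cp, mm, ww, wp]
    push_cast
    ring
  rw [Int.cast_mul, h4, ← h3]
  congr 1
  simpa using h2

lemma G_cong (p : ℕ) (i i' y y' k k' : ℤ) (hi : i ≡ i' [ZMOD p]) (hy : y ≡ y' [ZMOD p])
    (hk : k ≡ k' [ZMOD p]) (hd : ¬ (p : ℤ) ∣ G i y k) : ¬ (p : ℤ) ∣ G i' y' k' :=
  cong_of_cast (fun i y k : ℤ => G i y k) (fun _ i y k => G i y k)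
    (fun p i y k => G_cast p i y k) p i i' y y' k k' hi hy hk hd

lemma t2 : tabG G 2 (fun _ => false) = true := by decide +kernel
lemma t3 : tabG G 3 (fun i => (8 * (2 * i)) % 3 == 2) = true := by decide +kernel
lemma t5 : tabG G 5 (fun i => (8 * (2 * i)) % 5 != 4) = true := by decide +kernel
lemma t7 : tabG G 7 (fun _ => false) = true := by decide +kernel
lemma t11 : tabG G 11 (fun _ => false) = true := by decide +kernel
lemma t13 : tabG G 13 (fun _ => false) = true := by decide +kernel
lemma t17 : tabG G 17 (fun _ => false) = true := by decide +kernel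
lemma t19 : tabG G 19 (fun _ => false) = true := by decide +kernel
lemma t23 : tabG G 23 (fun _ => false) = true := by decide +kernel
lemma t29 : tabG G 29 (fun _ => false) = true := by decide +kernel
lemma t31 : tabG G 31 (fun _ => false) = true := by decide +kernel

lemma tab (i : ℤ) (h3 : (8 * mm i) % 3 ≠ 2) (h5 : (8 * mm i) % 5 = 4) (p : ℕ) (hp : p.Prime)
    (h37 : p < 37) : ∃ y k : ℤ, ¬ (p : ℤ) ∣ G i y k := by
  have key : ∀ (cond : ℕ → Bool), tabG G p cond = true → cond (i % (p : ℤ)).toNat = false →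
      ∃ y k : ℤ, ¬ (p : ℤ) ∣ G i y k := fun cond ht hj =>
    tab_use G p hp.pos (G_cong p) cond ht i hj
  have h2 := hp.two_le
  interval_cases p
  all_goals first
    | exact absurd hp (by decide)
    | exact key _ t2 rfl
    | exact key _ t7 rfl
    | exact key _ t11 rfl
    | exact key _ t13 rfl
    | exact key _ t17 rfl
    | exact key _ t19 rfl
    | exact key _ t23 rfl
    | exact key _ t29 rfl
    | exact key _ t31 rfl
    | skip
  · refine key _ t3 ?_
    have h6 : ((i % ((3 : ℕ) : ℤ)).toNat : ℤ) = i % 3 := Int.toNat_of_nonneg (by omega)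
    simp only [beq_eq_false_iff_ne, ne_eq]
    unfold mm at h3
    omega
  · refine key _ t5 ?_
    have h6 : ((i % ((5 : ℕ) : ℤ)).toNat : ℤ) = i % 5 := Int.toNat_of_nonneg (by omega)
    simp only [bne_eq_false_iff_eq]
    unfold mm at h5
    omega

theorem main (i : ℤ) (h3 : (8 * mm i) % 3 ≠ 2) (h5 : (8 * mm i) % 5 = 4)
    (ha : ¬ IsSquare (-(8 * mm i))) : Nonempty (Eng (8 * mm i)) := by
  have hR0 : RE1 (8 * mm i) * ((8 * mm i + 4 * 2 ^ 2) * (4 * 2 ^ 2 * (1 + 8 * mm i) ^ 2 +
      8 * mm i)) ≠ 0 := by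
    refine mul_ne_zero (RE1_ne ha) (mul_ne_zero ?_ ?_)
    · have := norm_ne ha (2 * 2) (one_ne_zero)
      intro h0
      apply this
      linear_combination h0
    · have := norm_ne ha (2 * 2 * (1 + 8 * mm i)) (one_ne_zero)
      intro h0
      apply this
      linear_combination h0
  set S := insert 41 (badS (RE1 (8 * mm i) * ((8 * mm i + 4 * 2 ^ 2) *
    (4 * 2 ^ 2 * (1 + 8 * mm i) ^ 2 + 8 * mm i)))) with hS
  have hSp : ∀ p ∈ S, p.Prime := by
    intro p hp
    rw [hS, mem_insert] at hp
    rcases hp with rfl | hp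
    · norm_num
    · exact badS_prime _ hp
  have hS37 : ∀ p ∈ S, 37 ≤ p := by
    intro p hp
    rw [hS, mem_insert] at hp
    rcases hp with rfl | hp
    · norm_num
    · exact badS_ge _ hp
  obtain ⟨y, k0, hgood, hCc⟩ := pick (fun p y k => ¬ (p : ℤ) ∣ G i y k)
    (fun p y y' k k' hy hk h => G_cong p i i y y' k k' rfl hy hk h)
    (tab i h3 h5) S hSp hS37 (fun p y => (p : ℤ) ∣ ww y)
    (fun p hp => by
      have hpp := hSp p hp
      by_cases h353 : p = 353
      · refine ⟨0, fun y _ => ?_⟩
        rw [h353]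
        unfold ww
        exact ⟨7985 + 35300 * y, by push_cast; ring⟩
      · have hn : ¬ (p : ℤ) ∣ 7060 := by
          intro h
          have h1 : p ∣ 20 * 353 := by exact_mod_cast h
          rcases (Nat.Prime.dvd_mul hpp).1 h1 with h2 | h2
          · have := Nat.le_of_dvd (by norm_num) h2
            have := hS37 p hp
            omega
          · exact h353 ((Nat.prime_dvd_prime_iff_eq hpp (by norm_num)).1 h2)
        obtain ⟨r, hr⟩ := lin_solve hpp 7060 (-1597) hn
        refine ⟨r, fun y hy => ?_⟩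
        obtain ⟨c, hc⟩ := hr y hy
        unfold ww
        exact ⟨1765 * c, by linear_combination 1765 * hc⟩)
  have h41 : (41 : ℤ) ∣ ww y := hCc 41 (mem_insert_self _ _)
  have hy0 : y ≠ 0 := by
    intro h0
    rw [h0] at h41
    unfold ww at h41
    omega
  have hw : ww y ≠ 0 := by
    unfold ww
    omega
  have hC2 : 2 ≤ |2 ^ 2 + 2 * mm i * ww y ^ 2| := by
    have h1 : 2 ^ 2 + 2 * mm i * ww y ^ 2 = 2 * (2 + mm i * ww y ^ 2) := by ring
    have h2 : 2 + mm i * ww y ^ 2 ≠ 0 := by
      intro h0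
      obtain ⟨c, hc⟩ := h41
      rw [hc] at h0
      have : (41 : ℤ) ∣ 2 := ⟨-(mm i * (41 * c ^ 2)), by linear_combination h0⟩
      norm_num at this
    rw [h1, abs_mul, abs_of_nonneg (by norm_num : (0 : ℤ) ≤ 2)]
    have := Int.one_le_abs h2
    linarith
  have hLL : ∀ k : ℤ, LL1 (1 - 2 * mm i * wp y * ww y) (-2 * (2 ^ 2 + 2 * mm i * ww y ^ 2)) 0 2
      [-42, -42, 2 * y, 2, 10, 168] [-(2 ^ 2 + 2 * mm i * ww y ^ 2)] k = L i y k := by
    intro k
    unfold L g0 Cp
    norm_num
  refine buildE (mm i) 2 (-1) (ww y) (wp y) (rp y) [-42, -42, 2 * y, 2, 10, 168] (q0 i y) (q1 i y) (q2 i y) k0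
    ?_ ?_ (by norm_num) ⟨2, by norm_num, by norm_num, by norm_num⟩ ?_ ?_ ?_ ?_ (by simp) hC2 hw
    ?_ ?_
  · simp only [En, Prod.mk.injEq]
    unfold wp rp ww
    refine ⟨?_, ?_, ?_, ?_⟩ <;> ring
  · unfold rp ww wp
    ring
  · simp only [q0, g0, mm, rp, ww, wp]
    ring
  · simp only [q1, g0, Cp, mm, ww, wp]
    ring
  · simp only [q2, Cp, mm, ww]
    ring
  · intro c hc
    simp only [List.mem_cons, List.not_mem_nil, or_false] at hc
    rcases hc with rfl | rfl | rfl | rfl | rfl | rfl
    · norm_num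
    · norm_num
    · rw [abs_mul, abs_of_nonneg (by norm_num : (0 : ℤ) ≤ 2)]
      have := Int.one_le_abs hy0
      linarith
    · norm_num
    · norm_num
    · norm_num
  · intro p hp hp37 hC
    have hF : Fact p.Prime := ⟨hp⟩
    have n2 : (2 : ZMod p) ≠ 0 := by exact_mod_cast small_ne hp37 2 (by norm_num) (by norm_num)
    have n3 : (3 : ZMod p) ≠ 0 := by exact_mod_cast small_ne hp37 3 (by norm_num) (by norm_num)
    have hC' : (2 : ZMod p) ^ 2 + 2 * ((mm i : ℤ) : ZMod p) * ((ww y : ℤ) : ZMod p) ^ 2 = 0 := by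
      have := hC
      push_cast at this
      linear_combination this
    have hwn : ((ww y : ℤ) : ZMod p) ≠ 0 := by
      intro h0
      rw [h0] at hC'
      have h1 : (2 * 2 : ZMod p) = 0 := by linear_combination hC'
      exact (mul_ne_zero n2 n2) h1
    have hnS : p ∉ S := fun hpS => hwn ((ZMod.intCast_zmod_eq_zero_iff_dvd _ _).2 (hCc p hpS))
    have hmem : ∀ R : ℤ, R ≠ 0 → (R : ZMod p) = 0 → p ∈ badS R := fun R h0 h1 =>
      badS_mem h0 hp hp37 ((ZMod.intCast_zmod_eq_zero_iff_dvd _ _).1 h1)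
    have hno : ((RE1 (8 * mm i) * ((8 * mm i + 4 * 2 ^ 2) * (4 * 2 ^ 2 * (1 + 8 * mm i) ^ 2 +
      8 * mm i)) : ℤ) : ZMod p) ≠ 0 := fun h0 => hnS (mem_insert_of_mem (hmem _ hR0 h0))
    rw [Int.cast_mul] at hno
    obtain ⟨hno1, hno2⟩ := mul_ne_zero_iff.1 hno
    refine ⟨?_, hno2⟩
    intro h0
    apply hno1
    have hinv : ((ww y : ℤ) : ZMod p) * ((ww y : ℤ) : ZMod p)⁻¹ = 1 := mul_inv_cancel₀ hwn
    set ω := (2 * 2 : ZMod p) * ((ww y : ℤ) : ZMod p)⁻¹ with hω
    have hwω : ((ww y : ℤ) : ZMod p) * ω = 2 * 2 := by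
      rw [hω]
      linear_combination (2 * 2 : ZMod p) * hinv
    clear_value ω
    have haω : ((8 * mm i : ℤ) : ZMod p) = -ω ^ 2 := by
      apply mul_left_cancel₀ (pow_ne_zero 2 hwn)
      push_cast
      linear_combination 4 * hC' + (((ww y : ℤ) : ZMod p) * ω + 2 * 2) * hwω
    have hwc : ((ww y : ℤ) : ZMod p) = 2818705 + 12460900 * (y : ZMod p) := by unfold ww; push_cast; ring
    have hpc : ((wp y : ℤ) : ZMod p) = 16768 + 74130 * (y : ZMod p) := by unfold wp; push_cast; ring
    have hcc : 3530 * ((1 - 2 * mm i * wp y * ww y : ℤ) : ZMod p) = (3614) + (-1765) * ω := by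
      apply mul_left_cancel₀ hwn
      push_cast
      rw [hpc]
      rw [hwc] at hC' hwω ⊢
      linear_combination (-3530 * (16768 + 74130 * (y : ZMod p))) * hC' + (1765) * hwω
    have hyy : 12460900 * (y : ZMod p) * ω = (4) + (-2818705) * ω := by
      rw [hwc] at hwω
      linear_combination (1) * hwω
    have hR := E1_F ((8 * mm i : ℤ) : ZMod p) (y : ZMod p)
      ((1 - 2 * mm i * wp y * ww y : ℤ) : ZMod p) ω haω hcc hyy (by
        have : ([-42, -42, 2 * y, 2, 10, 168].map (Int.castRingHom (ZMod p)) : List (ZMod p)) =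
          [-42, -42, 2 * (y : ZMod p), 2, 10, 168] := by simp
        rw [this] at h0
        exact h0)
    rw [← hR]
    unfold RE1
    push_cast
    ring
  · intro p hp h37
    rw [hLL]
    exact hgood p hp h37

end E1

end Pool.Agent.Helper8.Mono
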