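import Pool.Agent.Helper8.Mono.BuildE

/-!
The family of paths for `a = 8 m`, `m = 3 (2 i + 1)`, `a ≡ 4 mod 5`.
-/

set_option autoImplicit false

namespace Pool.Agent.Helper8.Mono

open Polynomial Finset

/-- bad primes -/
def RE3 {R : Type*} [CommRing R] (a : R) : R :=
      ((((514500) * a) ^ 2 + a * ((1205400)) ^ 2) * (((-1543500) * a) ^ 2 + a * ((1205400)) ^ 2)) *
      (((((-3087000) * a) ^ 2 + a * ((-6203400)) ^ 2) * (((9261000) * a) ^ 2 + a * ((-6203400)) ^ 2)) *
      (((((-18007500) * a) ^ 2 + a * ((-36015000)) ^ 2) * (((54022500) * a) ^ 2 + a * ((-36015000)) ^ 2)) *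
      (((((58800) + (85750) * a) ^ 2 + a * ((112700)) ^ 2) * (((58800) + (-257250) * a) ^ 2 + a * ((230300)) ^ 2)) *
      (((((12348000)) ^ 2 + a * ((-12348000)) ^ 2) * (((12348000)) ^ 2 + a * ((12348000)) ^ 2))))))

lemma RE3_ne {a : ℤ} (ha : ¬ IsSquare (-a)) : RE3 a ≠ 0 := by
  unfold RE3
  refine mul_ne_zero (mul_ne_zero (norm_ne ha _ (by norm_num)) (norm_ne ha _ (by norm_num)))
    (mul_ne_zero (mul_ne_zero (norm_ne ha _ (by norm_num)) (norm_ne ha _ (by norm_num)))
    (mul_ne_zero (mul_ne_zero (norm_ne ha _ (by norm_num)) (norm_ne ha _ (by norm_num)))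
    (mul_ne_zero (mul_ne_zero (norm_ne ha _ (by norm_num)) (norm_ne ha _ (by norm_num)))
    (mul_ne_zero (norm_ne ha _ (by norm_num)) (norm_ne ha _ (by norm_num))))))

lemma E3_F {F : Type*} [Field F] (a y c ω : F) (ha : a = -ω ^ 2)
    (hc : 70 * c = (82) + (35) * ω) (hy : 14700 * y * ω = (-12) + (-1295) * ω)
    (h : (Qs a 0 1 1 0 [c, -6, 6, 2 * y, 210]).prod = 0) : RE3 a = 0 := by
  have key : (Qs a 0 1 1 0 [c, -6, 6, 2 * y, 210]).prod =
      ((c * (1) + (0)) ^ 2 + a * (1) ^ 2) *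
      (((c * (-6) + (1)) ^ 2 + a * (-6) ^ 2) *
      (((c * (-35) + (6)) ^ 2 + a * (-35) ^ 2) *
      (((c * ((-6) + (-70) * y) + ((1) + (12) * y)) ^ 2 + a * ((-6) + (-70) * y) ^ 2) *
      (((c * ((-1295) + (-14700) * y) + ((216) + (2520) * y)) ^ 2 + a * ((-1295) + (-14700) * y) ^ 2))))) := by
    simp only [Qs, List.prod_cons, List.prod_nil]
    ring
  rw [key] at h
  simp only [mul_eq_zero] at h
  unfold RE3
  rcases h with h | h | h | h | h
  · have hY : 14700 * ω * (1) = (14700) * ω := by linear_combination (0) * hy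
    have hX : 1029000 * ω * (c * (1) + (0)) = (1205400) * ω + (514500) * ω ^ 2 := by
      linear_combination (14700 * ω * (1)) * hc + (((82) + (35) * ω) * (0) + 70 * (0)) * hy
    have hN : ((1205400) * ω + (514500) * ω ^ 2) ^ 2 - 4900 * ω ^ 2 * ((14700) * ω) ^ 2 = 0 := by
      rw [ha] at h
      linear_combination (1058841000000 * ω ^ 2) * h - (1029000 * ω * (c * (1) + (0)) + ((1205400) * ω + (514500) * ω ^ 2)) * hX +
        (4900 * ω ^ 2) * (14700 * ω * (1) + ((14700) * ω)) * hY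
    have hR : (((514500) * a) ^ 2 + a * ((1205400)) ^ 2) * (((-1543500) * a) ^ 2 + a * ((1205400)) ^ 2) = 0 := by
      rw [ha]
      linear_combination (((-1205400) * ω + (-514500) * ω ^ 2) * ((-1205400) * ω + (1543500) * ω ^ 2)) * hN
    rw [hR]
    ring
  · have hY : 14700 * ω * (-6) = (-88200) * ω := by linear_combination (0) * hy
    have hX : 1029000 * ω * (c * (-6) + (1)) = (-6203400) * ω + (-3087000) * ω ^ 2 := by
      linear_combination (14700 * ω * (-6)) * hc + (((82) + (35) * ω) * (0) + 70 * (0)) * hy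
    have hN : ((-6203400) * ω + (-3087000) * ω ^ 2) ^ 2 - 4900 * ω ^ 2 * ((-88200) * ω) ^ 2 = 0 := by
      rw [ha] at h
      linear_combination (1058841000000 * ω ^ 2) * h - (1029000 * ω * (c * (-6) + (1)) + ((-6203400) * ω + (-3087000) * ω ^ 2)) * hX +
        (4900 * ω ^ 2) * (14700 * ω * (-6) + ((-88200) * ω)) * hY
    have hR : (((-3087000) * a) ^ 2 + a * ((-6203400)) ^ 2) * (((9261000) * a) ^ 2 + a * ((-6203400)) ^ 2) = 0 := by
      rw [ha]
      linear_combination (((6203400) * ω + (3087000) * ω ^ 2) * ((6203400) * ω + (-9261000) * ω ^ 2)) * hN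
    rw [hR]
    ring
  · have hY : 14700 * ω * (-35) = (-514500) * ω := by linear_combination (0) * hy
    have hX : 1029000 * ω * (c * (-35) + (6)) = (-36015000) * ω + (-18007500) * ω ^ 2 := by
      linear_combination (14700 * ω * (-35)) * hc + (((82) + (35) * ω) * (0) + 70 * (0)) * hy
    have hN : ((-36015000) * ω + (-18007500) * ω ^ 2) ^ 2 - 4900 * ω ^ 2 * ((-514500) * ω) ^ 2 = 0 := by
      rw [ha] at h
      linear_combination (1058841000000 * ω ^ 2) * h - (1029000 * ω * (c * (-35) + (6)) + ((-36015000) * ω + (-18007500) * ω ^ 2)) * hX +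
        (4900 * ω ^ 2) * (14700 * ω * (-35) + ((-514500) * ω)) * hY
    have hR : (((-18007500) * a) ^ 2 + a * ((-36015000)) ^ 2) * (((54022500) * a) ^ 2 + a * ((-36015000)) ^ 2) = 0 := by
      rw [ha]
      linear_combination (((36015000) * ω + (18007500) * ω ^ 2) * ((36015000) * ω + (-54022500) * ω ^ 2)) * hN
    rw [hR]
    ring
  · have hY : 14700 * ω * ((-6) + (-70) * y) = (840) + (2450) * ω := by linear_combination (-70) * hy
    have hX : 1029000 * ω * (c * ((-6) + (-70) * y) + ((1) + (12) * y)) = (58800) + (171500) * ω + (85750) * ω ^ 2 := by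
      linear_combination (14700 * ω * ((-6) + (-70) * y)) * hc + (((82) + (35) * ω) * (-70) + 70 * (12)) * hy
    have hN : ((58800) + (171500) * ω + (85750) * ω ^ 2) ^ 2 - 4900 * ω ^ 2 * ((840) + (2450) * ω) ^ 2 = 0 := by
      rw [ha] at h
      linear_combination (1058841000000 * ω ^ 2) * h - (1029000 * ω * (c * ((-6) + (-70) * y) + ((1) + (12) * y)) + ((58800) + (171500) * ω + (85750) * ω ^ 2)) * hX +
        (4900 * ω ^ 2) * (14700 * ω * ((-6) + (-70) * y) + ((840) + (2450) * ω)) * hY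
    have hR : (((58800) + (85750) * a) ^ 2 + a * ((112700)) ^ 2) * (((58800) + (-257250) * a) ^ 2 + a * ((230300)) ^ 2) = 0 := by
      rw [ha]
      linear_combination (((58800) + (-112700) * ω + (-85750) * ω ^ 2) * ((58800) + (-230300) * ω + (257250) * ω ^ 2)) * hN
    rw [hR]
    ring
  · have hY : 14700 * ω * ((-1295) + (-14700) * y) = (176400) := by linear_combination (-14700) * hy
    have hX : 1029000 * ω * (c * ((-1295) + (-14700) * y) + ((216) + (2520) * y)) = (12348000) := by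
      linear_combination (14700 * ω * ((-1295) + (-14700) * y)) * hc + (((82) + (35) * ω) * (-14700) + 70 * (2520)) * hy
    have hN : ((12348000)) ^ 2 - 4900 * ω ^ 2 * ((176400)) ^ 2 = 0 := by
      rw [ha] at h
      linear_combination (1058841000000 * ω ^ 2) * h - (1029000 * ω * (c * ((-1295) + (-14700) * y) + ((216) + (2520) * y)) + ((12348000))) * hX +
        (4900 * ω ^ 2) * (14700 * ω * ((-1295) + (-14700) * y) + ((176400))) * hY
    have hR : (((12348000)) ^ 2 + a * ((-12348000)) ^ 2) * (((12348000)) ^ 2 + a * ((12348000)) ^ 2) = 0 := by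
      rw [ha]
      linear_combination (((12348000) + (12348000) * ω) * ((12348000) + (-12348000) * ω)) * hN
    rw [hR]
    ring

namespace E3

section defs

variable {R : Type*} [CommRing R]

def mm (i : R) : R := 3 * (2 * i + 1)

def ww (y : R) : R := -1295 + -14700 * y

def wp (y : R) : R := -6 + -70 * y

def rp (y : R) : R := 1 + 12 * y

def Cp (i y : R) : R := 6 ^ 2 + 2 * mm i * ww y ^ 2

def g0 (i y : R) : R := 1 - 2 * mm i * wp y * ww y

def L (i y k : R) : List R := LL1 (g0 i y) (-2 * Cp i y) 0 2 [-6, 6, 2 * y, 210] [-Cp i y] k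

def tt (i y : R) : R := (2 * i + 1) * (3 + 35 * y) * ww y

def C6 (i y : R) : R := 6 + (2 * i + 1) * ww y ^ 2

def q0 (i y : R) : R := (-216 - 2450 * y) +
  ww y * (4 * tt i y + 24 * tt i y ^ 2) + (2 * i + 1) * ww y -
  12 * g0 i y * wp y + (-6 - 72 * y)

def q1 (i y : R) : R := -4 * C6 i y * (ww y * g0 i y - 36 * wp y)

def q2 (i y : R) : R := 24 * ww y * C6 i y ^ 2

def G (i y k : R) : R := (Qs (8 * mm i) 0 1 1 0 (L i y k)).prod *
  ((q0 i y + q1 i y * k + q2 i y * k ^ 2) ^ 2 + 8 * mm i)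

end defs

lemma L_map {R S : Type*} [CommRing R] [CommRing S] (f : R →+* S) (i y k : R) :
    (L i y k).map f = L (f i) (f y) (f k) := by
  unfold L LL1 g0 Cp mm ww wp
  simp [map_ofNat]

lemma G_cast (p : ℕ) (i y k : ℤ) : ((G i y k : ℤ) : ZMod p) = G (i : ZMod p) (y : ZMod p) k := by
  unfold G
  have h1 := Qs_map (Int.castRingHom (ZMod p)) (8 * mm i) (L i y k) 0 1 1 0
  rw [L_map] at h1
  have h2 := map_list_prod (Int.castRingHom (ZMod p)) (Qs (8 * mm i) 0 1 1 0 (L i y k))
  rw [h1] at h2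
  have h3 : ((8 * mm i : ℤ) : ZMod p) = 8 * mm (i : ZMod p) := by unfold mm; push_cast; ring
  have h4 : (((q0 i y + q1 i y * k + q2 i y * k ^ 2) ^ 2 + 8 * mm i : ℤ) : ZMod p) =
      ((q0 (i : ZMod p) (y : ZMod p) + q1 (i : ZMod p) (y : ZMod p) * k +
        q2 (i : ZMod p) (y : ZMod p) * k ^ 2) ^ 2 + 8 * mm (i : ZMod p)) := by
    simp only [q0, q1, q2, tt, C6, g0, Cp, mm, ww, wp]
    push_cast
    ring
  rw [Int.cast_mul, h4, ← h3]
  congr 1
  simpa using h2

lemma G_cong (p : ℕ) (i i' y y' k k' : ℤ) (hi : i ≡ i' [ZMOD p]) (hy : y ≡ y' [ZMOD p])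
    (hk : k ≡ k' [ZMOD p]) (hd : ¬ (p : ℤ) ∣ G i y k) : ¬ (p : ℤ) ∣ G i' y' k' :=
  cong_of_cast (fun i y k : ℤ => G i y k) (fun _ i y k => G i y k)
    (fun p i y k => G_cast p i y k) p i i' y y' k k' hi hy hk hd

lemma t2 : tabG G 2 (fun _ => false) = true := by decide +kernel
lemma t3 : tabG G 3 (fun _ => false) = true := by decide +kernel
lemma t5 : tabG G 5 (fun i => (8 * (3 * (2 * i + 1))) % 5 != 4) = true := by decide +kernel
lemma t7 : tabG G 7 (fun _ => false) = true := by decide +kernel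
lemma t11 : tabG G 11 (fun _ => false) = true := by decide +kernel
lemma t13 : tabG G 13 (fun _ => false) = true := by decide +kernel
lemma t17 : tabG G 17 (fun _ => false) = true := by decide +kernel
lemma t19 : tabG G 19 (fun _ => false) = true := by decide +kernel
lemma t23 : tabG G 23 (fun _ => false) = true := by decide +kernel
lemma t29 : tabG G 29 (fun _ => false) = true := by decide +kernel
lemma t31 : tabG G 31 (fun _ => false) = true := by decide +kernel

lemma tab (i : ℤ) (h5 : (8 * mm i) % 5 = 4) (p : ℕ) (hp : p.Prime)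
    (h37 : p < 37) : ∃ y k : ℤ, ¬ (p : ℤ) ∣ G i y k := by
  have key : ∀ (cond : ℕ → Bool), tabG G p cond = true → cond (i % (p : ℤ)).toNat = false →
      ∃ y k : ℤ, ¬ (p : ℤ) ∣ G i y k := fun cond ht hj =>
    tab_use G p hp.pos (G_cong p) cond ht i hj
  have h2 := hp.two_le
  interval_cases p
  all_goals first
    | exact absurd hp (by decide)
    | exact key _ t2 rfl
    | exact key _ t7 rfl
    | exact key _ t11 rfl
    | exact key _ t13 rfl
    | exact key _ t17 rfl
    | exact key _ t19 rfl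
    | exact key _ t23 rfl
    | exact key _ t29 rfl
    | exact key _ t31 rfl
    | skip
  · refine key _ t3 ?_
    have h6 : ((i % ((3 : ℕ) : ℤ)).toNat : ℤ) = i % 3 := Int.toNat_of_nonneg (by omega)
    rfl
  · refine key _ t5 ?_
    have h6 : ((i % ((5 : ℕ) : ℤ)).toNat : ℤ) = i % 5 := Int.toNat_of_nonneg (by omega)
    simp only [bne_eq_false_iff_eq]
    unfold mm at h5
    omega

theorem main (i : ℤ) (h5 : (8 * mm i) % 5 = 4)
    (ha : ¬ IsSquare (-(8 * mm i))) : Nonempty (Eng (8 * mm i)) := by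
  have hR0 : RE3 (8 * mm i) * ((8 * mm i + 4 * 6 ^ 2) * (4 * 6 ^ 2 * (1 + 8 * mm i) ^ 2 +
      8 * mm i)) ≠ 0 := by
    refine mul_ne_zero (RE3_ne ha) (mul_ne_zero ?_ ?_)
    · have := norm_ne ha (2 * 6) (one_ne_zero)
      intro h0
      apply this
      linear_combination h0
    · have := norm_ne ha (2 * 6 * (1 + 8 * mm i)) (one_ne_zero)
      intro h0
      apply this
      linear_combination h0
  set S := insert 41 (badS (RE3 (8 * mm i) * ((8 * mm i + 4 * 6 ^ 2) *
    (4 * 6 ^ 2 * (1 + 8 * mm i) ^ 2 + 8 * mm i)))) with hS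
  have hSp : ∀ p ∈ S, p.Prime := by
    intro p hp
    rw [hS, mem_insert] at hp
    rcases hp with rfl | hp
    · norm_num
    · exact badS_prime _ hp
  have hS37 : ∀ p ∈ S, 37 ≤ p := by
    intro p hp
    rw [hS, mem_insert] at hp
    rcases hp with rfl | hp
    · norm_num
    · exact badS_ge _ hp
  obtain ⟨y, k0, hgood, hCc⟩ := pick (fun p y k => ¬ (p : ℤ) ∣ G i y k)
    (fun p y y' k k' hy hk h => G_cong p i i y y' k k' rfl hy hk h)
    (tab i h5) S hSp hS37 (fun p y => (p : ℤ) ∣ ww y)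
    (fun p hp => by
      have hpp := hSp p hp
      have hn : ¬ (p : ℤ) ∣ 420 := by
        intro h
        have h1 : p ∣ 12 * 35 := by exact_mod_cast h
        have h37 := hS37 p hp
        rcases (Nat.Prime.dvd_mul hpp).1 h1 with h2 | h2
        · have := Nat.le_of_dvd (by norm_num) h2
          omega
        · have := Nat.le_of_dvd (by norm_num) h2
          omega
      obtain ⟨r, hr⟩ := lin_solve hpp 420 (-37) hn
      refine ⟨r, fun y hy => ?_⟩
      obtain ⟨c, hc⟩ := hr y hy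
      unfold ww
      exact ⟨-35 * c, by linear_combination (-35) * hc⟩)
  have h41 : (41 : ℤ) ∣ ww y := hCc 41 (mem_insert_self _ _)
  have hy0 : y ≠ 0 := by
    intro h0
    rw [h0] at h41
    unfold ww at h41
    omega
  have hw : ww y ≠ 0 := by
    unfold ww
    omega
  have hC2 : 2 ≤ |6 ^ 2 + 2 * mm i * ww y ^ 2| := by
    have h1 : 6 ^ 2 + 2 * mm i * ww y ^ 2 = 2 * (18 + mm i * ww y ^ 2) := by ring
    have h2 : 18 + mm i * ww y ^ 2 ≠ 0 := by
      intro h0
      obtain ⟨c, hc⟩ := h41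
      rw [hc] at h0
      have : (41 : ℤ) ∣ 18 := ⟨-(mm i * (41 * c ^ 2)), by linear_combination h0⟩
      norm_num at this
    rw [h1, abs_mul, abs_of_nonneg (by norm_num : (0 : ℤ) ≤ 2)]
    have := Int.one_le_abs h2
    linarith
  have hLL : ∀ k : ℤ, LL1 (1 - 2 * mm i * wp y * ww y) (-2 * (6 ^ 2 + 2 * mm i * ww y ^ 2)) 0 2
      [-6, 6, 2 * y, 210] [-(6 ^ 2 + 2 * mm i * ww y ^ 2)] k = L i y k := by
    intro k
    unfold L g0 Cp
    norm_num
  refine buildE (mm i) 6 1 (ww y) (wp y) (rp y) [-6, 6, 2 * y, 210] (q0 i y) (q1 i y) (q2 i y) k0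
    ?_ ?_ (by norm_num) ⟨6, by norm_num, by norm_num, by norm_num⟩ ?_ ?_ ?_ ?_ (by simp) hC2 hw
    ?_ ?_
  · simp only [En, Prod.mk.injEq]
    unfold wp rp ww
    refine ⟨?_, ?_, ?_, ?_⟩ <;> ring
  · unfold rp ww wp
    ring
  · simp only [q0, tt, C6, g0, mm, rp, ww, wp]
    ring
  · simp only [q1, tt, C6, g0, Cp, mm, ww, wp]
    ring
  · simp only [q2, tt, C6, Cp, mm, ww]
    ring
  · intro c hc
    simp only [List.mem_cons, List.not_mem_nil, or_false] at hc
    rcases hc with rfl | rfl | rfl | rfl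
    · norm_num
    · norm_num
    · rw [abs_mul, abs_of_nonneg (by norm_num : (0 : ℤ) ≤ 2)]
      have := Int.one_le_abs hy0
      linarith
    · norm_num
  · intro p hp hp37 hC
    have hF : Fact p.Prime := ⟨hp⟩
    have n2 : (2 : ZMod p) ≠ 0 := by exact_mod_cast small_ne hp37 2 (by norm_num) (by norm_num)
    have n3 : (3 : ZMod p) ≠ 0 := by exact_mod_cast small_ne hp37 3 (by norm_num) (by norm_num)
    have hC' : (6 : ZMod p) ^ 2 + 2 * ((mm i : ℤ) : ZMod p) * ((ww y : ℤ) : ZMod p) ^ 2 = 0 := by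
      have := hC
      push_cast at this
      linear_combination this
    have hwn : ((ww y : ℤ) : ZMod p) ≠ 0 := by
      intro h0
      rw [h0] at hC'
      have h1 : ((2 * 3) * (2 * 3) : ZMod p) = 0 := by linear_combination hC'
      exact (mul_ne_zero (mul_ne_zero n2 n3) (mul_ne_zero n2 n3)) h1
    have hnS : p ∉ S := fun hpS => hwn ((ZMod.intCast_zmod_eq_zero_iff_dvd _ _).2 (hCc p hpS))
    have hmem : ∀ R : ℤ, R ≠ 0 → (R : ZMod p) = 0 → p ∈ badS R := fun R h0 h1 =>
      badS_mem h0 hp hp37 ((ZMod.intCast_zmod_eq_zero_iff_dvd _ _).1 h1)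
    have hno : ((RE3 (8 * mm i) * ((8 * mm i + 4 * 6 ^ 2) * (4 * 6 ^ 2 * (1 + 8 * mm i) ^ 2 +
      8 * mm i)) : ℤ) : ZMod p) ≠ 0 := fun h0 => hnS (mem_insert_of_mem (hmem _ hR0 h0))
    rw [Int.cast_mul] at hno
    obtain ⟨hno1, hno2⟩ := mul_ne_zero_iff.1 hno
    refine ⟨?_, hno2⟩
    intro h0
    apply hno1
    have hinv : ((ww y : ℤ) : ZMod p) * ((ww y : ℤ) : ZMod p)⁻¹ = 1 := mul_inv_cancel₀ hwn
    set ω := (2 * 6 : ZMod p) * ((ww y : ℤ) : ZMod p)⁻¹ with hω
    have hwω : ((ww y : ℤ) : ZMod p) * ω = 2 * 6 := by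
      rw [hω]
      linear_combination (2 * 6 : ZMod p) * hinv
    clear_value ω
    have haω : ((8 * mm i : ℤ) : ZMod p) = -ω ^ 2 := by
      apply mul_left_cancel₀ (pow_ne_zero 2 hwn)
      push_cast
      linear_combination 4 * hC' + (((ww y : ℤ) : ZMod p) * ω + 2 * 6) * hwω
    have hwc : ((ww y : ℤ) : ZMod p) = -1295 + -14700 * (y : ZMod p) := by unfold ww; push_cast; ring
    have hpc : ((wp y : ℤ) : ZMod p) = -6 + -70 * (y : ZMod p) := by unfold wp; push_cast; ring
    have hcc : 70 * ((1 - 2 * mm i * wp y * ww y : ℤ) : ZMod p) = (82) + (35) * ω := by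
      apply mul_left_cancel₀ hwn
      push_cast
      rw [hpc]
      rw [hwc] at hC' hwω ⊢
      linear_combination (-70 * (-6 + -70 * (y : ZMod p))) * hC' + (-35) * hwω
    have hyy : 14700 * (y : ZMod p) * ω = (-12) + (-1295) * ω := by
      rw [hwc] at hwω
      linear_combination (-1) * hwω
    have hR := E3_F ((8 * mm i : ℤ) : ZMod p) (y : ZMod p)
      ((1 - 2 * mm i * wp y * ww y : ℤ) : ZMod p) ω haω hcc hyy (by
        have : ([-6, 6, 2 * y, 210].map (Int.castRingHom (ZMod p)) : List (ZMod p)) =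
          [-6, 6, 2 * (y : ZMod p), 210] := by simp
        rw [this] at h0
        exact h0)
    rw [← hR]
    unfold RE3
    push_cast
    ring
  · intro p hp h37
    rw [hLL]
    exact hgood p hp h37

end E3

end Pool.Agent.Helper8.Mono
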