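import Pool.Agent.Helper8.Mono.Tab

/-!
The family of paths for `a ≡ 1 mod 4`, `a ≢ 2 mod 3`, `a ≡ 4 mod 5`.
-/

set_option autoImplicit false

namespace Pool.Agent.Helper8.Mono

open Polynomial Finset

lemma Rend (a b g y k c t : ℤ) (h0 : a = 4 * b + 1) (h1 : 4 * a * y = -5 - g)
    (h3 : 2 * c = a * g + 1 + 4 * k * a * g ^ 2) (h4 : 2 * t = 1 + a * g ^ 2) :
    (En 0 1 1 0 [c, 2 * g, 0 + 2 * k, 2 * a * (g ^ 2 - g + 1), 2 * y, 2 * b, 2]).2.2.1 ^ 2 +
      a * (En 0 1 1 0 [c, 2 * g, 0 + 2 * k, 2 * a * (g ^ 2 - g + 1), 2 * y, 2 * b, 2]).2.2.2 ^ 2 =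
    (2 * g ^ 2 * c ^ 2 + 2 * g * c + t) ^ 2 := by
  have key : ∀ v1 v2 : ℤ, 2 * (2 * (2 * b * (2 * y * (2 * a * (g ^ 2 - g + 1) *
      ((0 + 2 * k) * v2 + v1) + v2) + ((0 + 2 * k) * v2 + v1)) +
      (2 * a * (g ^ 2 - g + 1) * ((0 + 2 * k) * v2 + v1) + v2)) +
      (2 * y * (2 * a * (g ^ 2 - g + 1) * ((0 + 2 * k) * v2 + v1) + v2) +
        ((0 + 2 * k) * v2 + v1))) =
      -((2 * g * c + 1 - a * g ^ 2) * v2 + 2 * a * g ^ 3 * v1) := by
    intro v1 v2
    linear_combination (-2 * (2 * y * (2 * a * (g ^ 2 - g + 1) * ((0 + 2 * k) * v2 + v1) + v2) +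
        ((0 + 2 * k) * v2 + v1))) * h0 +
      (2 * a * (g ^ 2 - g + 1) * ((0 + 2 * k) * v2 + v1) + v2) * h1 + (g * v2) * h3
  have hX : (En 0 1 1 0 [c, 2 * g, 0 + 2 * k, 2 * a * (g ^ 2 - g + 1), 2 * y, 2 * b, 2]).2.2.1 =
      -(2 * g ^ 2 * c ^ 2 + 2 * g * c + t - a * g ^ 2) := by
    simp only [En]
    apply mul_left_cancel₀ (show (2 : ℤ) ≠ 0 by norm_num)
    have := key (c * 1 + 0) (2 * g * (c * 1 + 0) + 1)
    rw [this]
    linear_combination h4
  have hY : (En 0 1 1 0 [c, 2 * g, 0 + 2 * k, 2 * a * (g ^ 2 - g + 1), 2 * y, 2 * b, 2]).2.2.2 =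
      -(g * (2 * g * c + 1)) := by
    simp only [En]
    apply mul_left_cancel₀ (show (2 : ℤ) ≠ 0 by norm_num)
    have := key (c * 0 + 1) (2 * g * (c * 0 + 1) + 0)
    rw [this]
    ring
  rw [hX, hY]
  linear_combination (-(a * g ^ 2)) * h4
namespace RR

section defs

variable {R : Type*} [CommRing R]

def gg (j y : R) : R := -5 - 4 * (4 * j + 1) * y

def g0 (j y : R) : R := -10 * j - 2 - 2 * (4 * j + 1) ^ 2 * y

def g1 (j y : R) : R := 2 * (4 * j + 1) * gg j y ^ 2

def c5 (j y : R) : R := 2 * (4 * j + 1) * (gg j y ^ 2 - gg j y + 1)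

def L (j y k : R) : List R :=
  LL1 (g0 j y) (g1 j y) 0 2 [2 * gg j y] [c5 j y, 2 * y, 2 * j, 2] k

def G (j y k : R) : R := (Qs (4 * j + 1) 0 1 1 0 (L j y k)).prod

end defs

/-- the square root of the last value -/
def zz (j y k : ℤ) : ℤ := 2 * gg j y ^ 2 * (g0 j y + g1 j y * k) ^ 2 +
  2 * gg j y * (g0 j y + g1 j y * k) + 13 + 50 * j + 20 * (4 * j + 1) ^ 2 * y +
    8 * (4 * j + 1) ^ 3 * y ^ 2

lemma end_eq (j y k : ℤ) : (En 0 1 1 0 (L j y k)).2.2.1 ^ 2 +
    (4 * j + 1) * (En 0 1 1 0 (L j y k)).2.2.2 ^ 2 = zz j y k ^ 2 := by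
  have h := Rend (4 * j + 1) j (gg j y) y k (g0 j y + g1 j y * k)
    (13 + 50 * j + 20 * (4 * j + 1) ^ 2 * y + 8 * (4 * j + 1) ^ 3 * y ^ 2)
    rfl (by unfold gg; ring) (by unfold g0 g1 gg; ring) (by unfold gg; ring)
  have h2 : L j y k = [g0 j y + g1 j y * k, 2 * gg j y, 0 + 2 * k,
    2 * (4 * j + 1) * (gg j y ^ 2 - gg j y + 1), 2 * y, 2 * j, 2] := rfl
  rw [h2, h]
  unfold zz
  ring

lemma L_map {R S : Type*} [CommRing R] [CommRing S] (f : R →+* S) (j y k : R) :
    (L j y k).map f = L (f j) (f y) (f k) := by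
  unfold L LL1 g0 g1 c5 gg
  simp [map_ofNat]

lemma G_cast (p : ℕ) (j y k : ℤ) : ((G j y k : ℤ) : ZMod p) = G (j : ZMod p) (y : ZMod p) k := by
  unfold G
  have h1 := Qs_map (Int.castRingHom (ZMod p)) (4 * j + 1) (L j y k) 0 1 1 0
  rw [L_map] at h1
  have h2 := map_list_prod (Int.castRingHom (ZMod p)) (Qs (4 * j + 1) 0 1 1 0 (L j y k))
  rw [h1] at h2
  simpa using h2

lemma G_cong (p : ℕ) (j j' y y' k k' : ℤ) (hj : j ≡ j' [ZMOD p]) (hy : y ≡ y' [ZMOD p])
    (hk : k ≡ k' [ZMOD p]) (hd : ¬ (p : ℤ) ∣ G j y k) : ¬ (p : ℤ) ∣ G j' y' k' :=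
  cong_of_cast (fun j y k : ℤ => G j y k) (fun _ j y k => G j y k)
    (fun p j y k => G_cast p j y k) p j j' y y' k k' hj hy hk hd

lemma t2 : tabG G 2 (fun _ => false) = true := by decide +kernel
lemma t3 : tabG G 3 (fun j => (4 * j + 1) % 3 == 2) = true := by decide +kernel
lemma t5 : tabG G 5 (fun j => (4 * j + 1) % 5 != 4) = true := by decide +kernel
lemma t7 : tabG G 7 (fun _ => false) = true := by decide +kernel
lemma t11 : tabG G 11 (fun _ => false) = true := by decide +kernel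
lemma t13 : tabG G 13 (fun _ => false) = true := by decide +kernel
lemma t17 : tabG G 17 (fun _ => false) = true := by decide +kernel
lemma t19 : tabG G 19 (fun _ => false) = true := by decide +kernel
lemma t23 : tabG G 23 (fun _ => false) = true := by decide +kernel
lemma t29 : tabG G 29 (fun _ => false) = true := by decide +kernel
lemma t31 : tabG G 31 (fun _ => false) = true := by decide +kernel

lemma tab (j : ℤ) (h3 : (4 * j + 1) % 3 ≠ 2) (h5 : (4 * j + 1) % 5 = 4) (p : ℕ) (hp : p.Prime)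
    (h37 : p < 37) : ∃ y k : ℤ, ¬ (p : ℤ) ∣ G j y k := by
  have key : ∀ (cond : ℕ → Bool), tabG G p cond = true → cond (j % (p : ℤ)).toNat = false →
      ∃ y k : ℤ, ¬ (p : ℤ) ∣ G j y k := fun cond ht hj =>
    tab_use G p hp.pos (G_cong p) cond ht j hj
  have h2 := hp.two_le
  interval_cases p
  all_goals first
    | exact absurd hp (by decide)
    | exact key _ t2 rfl
    | exact key _ t7 rfl
    | exact key _ t11 rfl
    | exact key _ t13 rfl
    | exact key _ t17 rfl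
    | exact key _ t19 rfl
    | exact key _ t23 rfl
    | exact key _ t29 rfl
    | exact key _ t31 rfl
    | skip
  · refine key _ t3 ?_
    have h6 : ((j % ((3 : ℕ) : ℤ)).toNat : ℤ) = j % 3 := Int.toNat_of_nonneg (by omega)
    simp only [beq_eq_false_iff_ne, ne_eq]
    omega
  · refine key _ t5 ?_
    have h6 : ((j % ((5 : ℕ) : ℤ)).toNat : ℤ) = j % 5 := Int.toNat_of_nonneg (by omega)
    simp only [bne_eq_false_iff_eq]
    omega

theorem main (j : ℤ) (h3 : (4 * j + 1) % 3 ≠ 2) (h5 : (4 * j + 1) % 5 = 4) :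
    Nonempty (Eng (4 * j + 1)) := by
  obtain ⟨y, k0, hgood, hCc⟩ := pick (fun p y k => ¬ (p : ℤ) ∣ G j y k)
    (fun p y y' k k' hy hk h => G_cong p j j y y' k k' rfl hy hk h)
    (tab j h3 h5) (badS (4 * (4 * j + 1) + 1)) (fun p hp => badS_prime _ hp)
    (fun p hp => badS_ge _ hp) (fun p y => (p : ℤ) ∣ 1 * y - 1)
    (fun p hp => lin_solve (badS_prime _ hp) 1 1 (not_dvd_small (badS_prime _ hp)
      (badS_ge _ hp) 1 (by norm_num) (by norm_num)))
  have h37 : (37 : ℤ) ∣ 1 * y - 1 := hCc 37 (badS_37 _)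
  have hy0 : y ≠ 0 := by omega
  have ha0 : (4 * j + 1) ≠ 0 := by omega
  have hj0 : j ≠ 0 := by omega
  have hg : gg j y ≠ 0 := by
    have : gg j y = 2 * (-2 * ((4 * j + 1) * y) - 3) + 1 := by unfold gg; ring
    omega
  have hg1 : g1 j y ≠ 0 := mul_ne_zero (mul_ne_zero (by norm_num) ha0) (pow_ne_zero 2 hg)
  have two_le : ∀ x : ℤ, x ≠ 0 → 2 ≤ |2 * x| := by
    intro x hx
    rw [abs_mul, abs_of_nonneg (by norm_num : (0 : ℤ) ≤ 2)]
    have := Int.one_le_abs hx
    linarith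
  have hc5 : 2 ≤ |c5 j y| := by
    have h1 : c5 j y = 2 * ((4 * j + 1) * (gg j y ^ 2 - gg j y + 1)) := by
      unfold c5; ring
    rw [h1]
    apply two_le
    refine mul_ne_zero ha0 ?_
    nlinarith [sq_nonneg (2 * gg j y - 1)]
  have hLL : ∀ k : ℤ, LL1 (g0 j y) (g1 j y) 0 2 [2 * gg j y] [c5 j y, 2 * y, 2 * j, 2] k =
      L j y k := fun k => rfl
  refine build (4 * j + 1) (g0 j y) (g1 j y) 0 2 [2 * gg j y] [c5 j y, 2 * y, 2 * j, 2]
    [] 1 0 ?_ ?_ hg1 (by norm_num) ?_ (show Odd 7 by decide) ?_ ?_ (by simp)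
    1 0 (2 * gg j y) 1 ?_ ?_ (fun _ _ => 1) ?_ ?_ k0 ?_
  · intro c hc
    simp only [List.mem_cons, List.not_mem_nil, or_false] at hc
    rw [hc]
    exact two_le _ hg
  · intro c hc
    simp only [List.mem_cons, List.not_mem_nil, or_false] at hc
    rcases hc with rfl | rfl | rfl | rfl
    · exact hc5
    · exact two_le _ hy0
    · exact two_le _ hj0
    · norm_num
  · intro t ht
    simp [Ts] at ht
  · intro k p hp hd
    simp only [List.map_nil, Qs, List.prod_nil] at hd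
    exact absurd hd (by
      intro h
      exact (Nat.prime_iff_prime_int.1 hp).not_dvd_one h)
  · intro k
    rw [hLL, end_eq]
    refine ⟨zz j y k, ?_⟩
    simp only [En, List.map_nil]
    ring
  · simp [En]
  · intro p hp hp37
    have hF : Fact p.Prime := ⟨hp⟩
    have n2 : (2 : ZMod p) ≠ 0 := by exact_mod_cast small_ne hp37 2 (by norm_num) (by norm_num)
    have n3 : (3 : ZMod p) ≠ 0 := by exact_mod_cast small_ne hp37 3 (by norm_num) (by norm_num)
    have n4 : (4 : ZMod p) ≠ 0 := by exact_mod_cast small_ne hp37 4 (by norm_num) (by norm_num)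
    have n8 : (8 : ZMod p) ≠ 0 := by exact_mod_cast small_ne hp37 8 (by norm_num) (by norm_num)
    have n16 : (16 : ZMod p) ≠ 0 := by exact_mod_cast small_ne hp37 16 (by norm_num) (by norm_num)
    refine ⟨by exact_mod_cast n2, ?_⟩
    have hgc : ((gg j y : ℤ) : ZMod p) = -5 - 4 * (4 * j + 1) * y := by
      unfold gg; push_cast; ring
    have hg1c : ((g1 j y : ℤ) : ZMod p) = 2 * (4 * j + 1) * ((gg j y : ℤ) : ZMod p) ^ 2 := by
      unfold g1; push_cast; ring
    have hg0c : ((g0 j y : ℤ) : ZMod p) = -10 * j - 2 - 2 * (4 * j + 1) ^ 2 * y := by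
      unfold g0; push_cast; ring
    have hQ : (Qs ((4 * j + 1 : ℤ) : ZMod p) 0 1 1 0 (((g0 j y : ℤ) : ZMod p) ::
        [2 * gg j y].map (Int.castRingHom (ZMod p)))).prod =
        (((g0 j y : ℤ) : ZMod p) ^ 2 + (4 * j + 1)) *
          ((2 * ((gg j y : ℤ) : ZMod p) * ((g0 j y : ℤ) : ZMod p) + 1) ^ 2 +
            (4 * j + 1) * (2 * ((gg j y : ℤ) : ZMod p)) ^ 2) := by
      simp only [Qs, List.map_cons, List.map_nil, List.prod_cons, List.prod_nil]
      push_cast
      simp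
    by_cases hA : (4 * (j : ZMod p) + 1) = 0
    · right
      refine ⟨by rw [hg1c, hA]; ring, ?_⟩
      rw [hQ, hgc, hA]
      have h0 : 2 * ((g0 j y : ℤ) : ZMod p) = 1 := by
        rw [hg0c, hA]
        linear_combination (-5) * hA
      apply mul_ne_zero
      · intro h
        apply one_ne_zero (α := ZMod p)
        linear_combination 4 * h - (2 * ((g0 j y : ℤ) : ZMod p) + 1) * h0
      · intro h
        apply n16
        linear_combination h - (25 * (2 * ((g0 j y : ℤ) : ZMod p)) + 15) * h0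
    · by_cases hG : ((gg j y : ℤ) : ZMod p) = 0
      · right
        refine ⟨by rw [hg1c, hG]; ring, ?_⟩
        rw [hQ, hG]
        rw [hgc] at hG
        have h0 : 2 * ((g0 j y : ℤ) : ZMod p) = 1 := by
          rw [hg0c]
          linear_combination (4 * (j : ZMod p) + 1) * hG
        apply mul_ne_zero
        · intro h
          have h1 : ((4 * (4 * j + 1) + 1 : ℤ) : ZMod p) = 0 := by
            push_cast
            linear_combination 4 * h - (2 * ((g0 j y : ℤ) : ZMod p) + 1) * h0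
          have hpS := badS_mem (by omega) hp hp37 ((ZMod.intCast_zmod_eq_zero_iff_dvd _ _).1 h1)
          have h6 : ((1 * y - 1 : ℤ) : ZMod p) = 0 :=
            (ZMod.intCast_zmod_eq_zero_iff_dvd _ _).2 (hCc p hpS)
          push_cast at h6 h1
          apply n4
          linear_combination -hG - h1 - 4 * (4 * (j : ZMod p) + 1) * h6
        · intro h
          apply one_ne_zero (α := ZMod p)
          linear_combination h
      · left
        refine ⟨?_, ?_⟩
        · rw [hg1c]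
          exact mul_ne_zero (mul_ne_zero n2 hA) (pow_ne_zero 2 hG)
        · intro hw
          exfalso
          push_cast at hw
          exact (mul_ne_zero n2 hG) hw
  · intro p k
    simp
  · intro p hF h
    have : (univ.filter (fun k : ZMod p => (1 : ZMod p) = 0)) = ∅ := by
      rw [filter_eq_empty_iff]
      intro k _
      exact one_ne_zero
    rw [this]
    simp
  · intro p hp h37
    rw [hLL, eval_one, mul_one]
    exact hgood p hp h37

end RR

end Pool.Agent.Helper8.Mono
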