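import Pool.Agent.Helper8.Mono.Tab

/-!
The family of paths for `a ≡ 5 mod 8`, `a ≢ 2 mod 3`, `a ≢ 4 mod 5`.
-/

set_option autoImplicit false

namespace Pool.Agent.Helper8.Mono

open Polynomial Finset

/-- bad primes -/
def RW5 {R : Type*} [CommRing R] (a : R) : R :=
      ((((216) * a) ^ 2 + a * ((-36)) ^ 2) * (((-648) * a) ^ 2 + a * ((-36)) ^ 2)) *
      (((((-1296) * a) ^ 2 + a * ((648)) ^ 2) * (((3888) * a) ^ 2 + a * ((648)) ^ 2)) *
      (((((36) + (-864) * a) ^ 2 + a * ((576)) ^ 2) * (((36) + (2592) * a) ^ 2 + a * ((288)) ^ 2)) *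
      (((((-72) + (432) * a) ^ 2 + a * ((-504)) ^ 2) * (((-72) + (-1296) * a) ^ 2 + a * ((72)) ^ 2)) *
      (((((-108)) ^ 2 + a * ((-432)) ^ 2) * (((-108)) ^ 2 + a * ((432)) ^ 2))))))

lemma RW5_ne {a : ℤ} (ha : ¬ IsSquare (-a)) : RW5 a ≠ 0 := by
  unfold RW5
  refine mul_ne_zero (mul_ne_zero (norm_ne ha _ (by norm_num)) (norm_ne ha _ (by norm_num)))
    (mul_ne_zero (mul_ne_zero (norm_ne ha _ (by norm_num)) (norm_ne ha _ (by norm_num)))
    (mul_ne_zero (mul_ne_zero (norm_ne ha _ (by norm_num)) (norm_ne ha _ (by norm_num)))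
    (mul_ne_zero (mul_ne_zero (norm_ne ha _ (by norm_num)) (norm_ne ha _ (by norm_num)))
    (mul_ne_zero (norm_ne ha _ (by norm_num)) (norm_ne ha _ (by norm_num))))))

lemma W5_F {F : Type*} [Field F] (a y c ω : F) (ha : a = -ω ^ 2)
    (hc : 12 * c = (-1) + (6) * ω) (hy : 36 * y * ω = (1) + (15) * ω)
    (h : (Qs a 0 1 1 0 [c, -6, 2 * y, -2, 2]).prod = 0) : RW5 a = 0 := by
  have key : (Qs a 0 1 1 0 [c, -6, 2 * y, -2, 2]).prod =
      ((c * (1) + (0)) ^ 2 + a * (1) ^ 2) *
      (((c * (-6) + (1)) ^ 2 + a * (-6) ^ 2) *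
      (((c * ((1) + (-12) * y) + ((2) * y)) ^ 2 + a * ((1) + (-12) * y) ^ 2) *
      (((c * ((-8) + (24) * y) + ((1) + (-4) * y)) ^ 2 + a * ((-8) + (24) * y) ^ 2) *
      (((c * ((-15) + (36) * y) + ((2) + (-6) * y)) ^ 2 + a * ((-15) + (36) * y) ^ 2))))) := by
    simp only [Qs, List.prod_cons, List.prod_nil]
    ring
  rw [key] at h
  simp only [mul_eq_zero] at h
  unfold RW5
  rcases h with h | h | h | h | h
  · have hY : 36 * ω * (1) = (36) * ω := by linear_combination (0) * hy
    have hX : 432 * ω * (c * (1) + (0)) = (-36) * ω + (216) * ω ^ 2 := by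
      linear_combination (36 * ω * (1)) * hc + (((-1) + (6) * ω) * (0) + 12 * (0)) * hy
    have hN : ((-36) * ω + (216) * ω ^ 2) ^ 2 - 144 * ω ^ 2 * ((36) * ω) ^ 2 = 0 := by
      rw [ha] at h
      linear_combination (186624 * ω ^ 2) * h - (432 * ω * (c * (1) + (0)) + ((-36) * ω + (216) * ω ^ 2)) * hX +
        (144 * ω ^ 2) * (36 * ω * (1) + ((36) * ω)) * hY
    have hR : (((216) * a) ^ 2 + a * ((-36)) ^ 2) * (((-648) * a) ^ 2 + a * ((-36)) ^ 2) = 0 := by
      rw [ha]
      linear_combination (((36) * ω + (-216) * ω ^ 2) * ((36) * ω + (648) * ω ^ 2)) * hN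
    rw [hR]
    ring
  · have hY : 36 * ω * (-6) = (-216) * ω := by linear_combination (0) * hy
    have hX : 432 * ω * (c * (-6) + (1)) = (648) * ω + (-1296) * ω ^ 2 := by
      linear_combination (36 * ω * (-6)) * hc + (((-1) + (6) * ω) * (0) + 12 * (0)) * hy
    have hN : ((648) * ω + (-1296) * ω ^ 2) ^ 2 - 144 * ω ^ 2 * ((-216) * ω) ^ 2 = 0 := by
      rw [ha] at h
      linear_combination (186624 * ω ^ 2) * h - (432 * ω * (c * (-6) + (1)) + ((648) * ω + (-1296) * ω ^ 2)) * hX +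
        (144 * ω ^ 2) * (36 * ω * (-6) + ((-216) * ω)) * hY
    have hR : (((-1296) * a) ^ 2 + a * ((648)) ^ 2) * (((3888) * a) ^ 2 + a * ((648)) ^ 2) = 0 := by
      rw [ha]
      linear_combination (((-648) * ω + (1296) * ω ^ 2) * ((-648) * ω + (-3888) * ω ^ 2)) * hN
    rw [hR]
    ring
  · have hY : 36 * ω * ((1) + (-12) * y) = (-12) + (-144) * ω := by linear_combination (-12) * hy
    have hX : 432 * ω * (c * ((1) + (-12) * y) + ((2) * y)) = (36) + (432) * ω + (-864) * ω ^ 2 := by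
      linear_combination (36 * ω * ((1) + (-12) * y)) * hc + (((-1) + (6) * ω) * (-12) + 12 * (2)) * hy
    have hN : ((36) + (432) * ω + (-864) * ω ^ 2) ^ 2 - 144 * ω ^ 2 * ((-12) + (-144) * ω) ^ 2 = 0 := by
      rw [ha] at h
      linear_combination (186624 * ω ^ 2) * h - (432 * ω * (c * ((1) + (-12) * y) + ((2) * y)) + ((36) + (432) * ω + (-864) * ω ^ 2)) * hX +
        (144 * ω ^ 2) * (36 * ω * ((1) + (-12) * y) + ((-12) + (-144) * ω)) * hY
    have hR : (((36) + (-864) * a) ^ 2 + a * ((576)) ^ 2) * (((36) + (2592) * a) ^ 2 + a * ((288)) ^ 2) = 0 := by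
      rw [ha]
      linear_combination (((36) + (-576) * ω + (864) * ω ^ 2) * ((36) + (-288) * ω + (-2592) * ω ^ 2)) * hN
    rw [hR]
    ring
  · have hY : 36 * ω * ((-8) + (24) * y) = (24) + (72) * ω := by linear_combination (24) * hy
    have hX : 432 * ω * (c * ((-8) + (24) * y) + ((1) + (-4) * y)) = (-72) + (-216) * ω + (432) * ω ^ 2 := by
      linear_combination (36 * ω * ((-8) + (24) * y)) * hc + (((-1) + (6) * ω) * (24) + 12 * (-4)) * hy
    have hN : ((-72) + (-216) * ω + (432) * ω ^ 2) ^ 2 - 144 * ω ^ 2 * ((24) + (72) * ω) ^ 2 = 0 := by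
      rw [ha] at h
      linear_combination (186624 * ω ^ 2) * h - (432 * ω * (c * ((-8) + (24) * y) + ((1) + (-4) * y)) + ((-72) + (-216) * ω + (432) * ω ^ 2)) * hX +
        (144 * ω ^ 2) * (36 * ω * ((-8) + (24) * y) + ((24) + (72) * ω)) * hY
    have hR : (((-72) + (432) * a) ^ 2 + a * ((-504)) ^ 2) * (((-72) + (-1296) * a) ^ 2 + a * ((72)) ^ 2) = 0 := by
      rw [ha]
      linear_combination (((-72) + (504) * ω + (-432) * ω ^ 2) * ((-72) + (-72) * ω + (1296) * ω ^ 2)) * hN
    rw [hR]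
    ring
  · have hY : 36 * ω * ((-15) + (36) * y) = (36) := by linear_combination (36) * hy
    have hX : 432 * ω * (c * ((-15) + (36) * y) + ((2) + (-6) * y)) = (-108) := by
      linear_combination (36 * ω * ((-15) + (36) * y)) * hc + (((-1) + (6) * ω) * (36) + 12 * (-6)) * hy
    have hN : ((-108)) ^ 2 - 144 * ω ^ 2 * ((36)) ^ 2 = 0 := by
      rw [ha] at h
      linear_combination (186624 * ω ^ 2) * h - (432 * ω * (c * ((-15) + (36) * y) + ((2) + (-6) * y)) + ((-108))) * hX +
        (144 * ω ^ 2) * (36 * ω * ((-15) + (36) * y) + ((36))) * hY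
    have hR : (((-108)) ^ 2 + a * ((-432)) ^ 2) * (((-108)) ^ 2 + a * ((432)) ^ 2) = 0 := by
      rw [ha]
      linear_combination (((-108) + (432) * ω) * ((-108) + (-432) * ω)) * hN
    rw [hR]
    ring

namespace W5

section defs

variable {R : Type*} [CommRing R]

def om (y : R) : R := 162 * y ^ 2 - 135 * y + 28

def d2 (j y : R) : R := -(16 * j * om y + 2 * j + 10 * om y + 2)

def Cc (j y : R) : R := 32 * j * om y + 4 * j + 20 * om y + 3

def g0 (j y : R) : R := (8 * j + 5) * (36 * y - 15) * (2 - 6 * y) - d2 j y ^ 2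

def g1 (j y : R) : R := -2 * Cc j y

def L (j y k : R) : List R :=
  LL1 (g0 j y) (g1 j y) (-d2 j y) 4 [-6, 2 * y, -2, 2] [2, d2 j y] k

def G (j y k : R) : R := (Qs (8 * j + 5) 0 1 1 0 (L j y k)).prod

lemma two_C (j y : R) : 2 * Cc j y = (8 * j + 5) * (36 * y - 15) ^ 2 + 1 := by
  unfold Cc om; ring

lemma two_d (j y : R) : 2 * d2 j y = -(Cc j y + 1) := by
  unfold Cc d2 om; ring

end defs

/-- the last `t` -/
def xx (j y k : ℤ) : ℤ := 2 * (36 * y - 15) * (g0 j y + g1 j y * k) ^ 2 +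
  4 * (g0 j y + g1 j y * k) * (2 - 6 * y) + (92 * y + 144 * j * y - 60 * j - 38)

lemma En_eq (j y k : ℤ) : (En 0 1 1 0 (L j y k)).2.2.1 =
      xx j y k - (8 * j + 5) * (36 * y - 15) ∧
    (En 0 1 1 0 (L j y k)).2.2.2 = 2 * ((36 * y - 15) * (g0 j y + g1 j y * k) + (2 - 6 * y)) := by
  unfold L LL1 xx
  have hc' : g0 j y + g1 j y * k = (8 * j + 5) * (36 * y - 15) * (2 - 6 * y) - d2 j y ^ 2 +
    (-2 * Cc j y) * k := rfl
  generalize g0 j y + g1 j y * k = c at hc' ⊢
  have hC : Cc j y = -(2 * d2 j y) - 1 := by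
    linear_combination two_d j y
  have hCW := two_C j y
  rw [hC] at hc' hCW
  generalize d2 j y = D at hc' hCW ⊢
  simp only [En, List.cons_append, List.nil_append]
  constructor
  · apply mul_left_cancel₀ (two_ne_zero (α := ℤ))
    linear_combination (-4 * (36 * y - 15) * c - 4 * (2 - 6 * y)) * hc' +
      (4 * (2 - 6 * y) * c + (4 * y - 1)) * hCW
  · linear_combination (-2 * (36 * y - 15)) * hc' + (2 * (2 - 6 * y)) * hCW

lemma end_eq (j y k : ℤ) : (En 0 1 1 0 (L j y k)).2.2.1 ^ 2 +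
    (8 * j + 5) * (En 0 1 1 0 (L j y k)).2.2.2 ^ 2 = xx j y k ^ 2 + (8 * j + 5) := by
  obtain ⟨h1, h2⟩ := En_eq j y k
  rw [h1, h2]
  unfold xx
  generalize g0 j y + g1 j y * k = c
  ring

lemma L_map {R S : Type*} [CommRing R] [CommRing S] (f : R →+* S) (j y k : R) :
    (L j y k).map f = L (f j) (f y) (f k) := by
  unfold L LL1 g0 g1 Cc d2 om
  simp [map_ofNat]

lemma G_cast (p : ℕ) (j y k : ℤ) : ((G j y k : ℤ) : ZMod p) = G (j : ZMod p) (y : ZMod p) k := by
  unfold G
  have h1 := Qs_map (Int.castRingHom (ZMod p)) (8 * j + 5) (L j y k) 0 1 1 0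
  rw [L_map] at h1
  have h2 := map_list_prod (Int.castRingHom (ZMod p)) (Qs (8 * j + 5) 0 1 1 0 (L j y k))
  rw [h1] at h2
  simpa using h2

lemma G_cong (p : ℕ) (j j' y y' k k' : ℤ) (hj : j ≡ j' [ZMOD p]) (hy : y ≡ y' [ZMOD p])
    (hk : k ≡ k' [ZMOD p]) (hd : ¬ (p : ℤ) ∣ G j y k) : ¬ (p : ℤ) ∣ G j' y' k' :=
  cong_of_cast (fun j y k : ℤ => G j y k) (fun _ j y k => G j y k)
    (fun p j y k => G_cast p j y k) p j j' y y' k k' hj hy hk hd

lemma t2 : tabG G 2 (fun _ => false) = true := by decide +kernel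
lemma t3 : tabG G 3 (fun j => (8 * j + 5) % 3 == 2) = true := by decide +kernel
lemma t5 : tabG G 5 (fun j => (8 * j + 5) % 5 == 4) = true := by decide +kernel
lemma t7 : tabG G 7 (fun _ => false) = true := by decide +kernel
lemma t11 : tabG G 11 (fun _ => false) = true := by decide +kernel
lemma t13 : tabG G 13 (fun _ => false) = true := by decide +kernel
lemma t17 : tabG G 17 (fun _ => false) = true := by decide +kernel
lemma t19 : tabG G 19 (fun _ => false) = true := by decide +kernel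
lemma t23 : tabG G 23 (fun _ => false) = true := by decide +kernel
lemma t29 : tabG G 29 (fun _ => false) = true := by decide +kernel
lemma t31 : tabG G 31 (fun _ => false) = true := by decide +kernel

lemma tab (j : ℤ) (h3 : (8 * j + 5) % 3 ≠ 2) (h5 : (8 * j + 5) % 5 ≠ 4) (p : ℕ) (hp : p.Prime)
    (h37 : p < 37) : ∃ y k : ℤ, ¬ (p : ℤ) ∣ G j y k := by
  have key : ∀ (cond : ℕ → Bool), tabG G p cond = true → cond (j % (p : ℤ)).toNat = false →
      ∃ y k : ℤ, ¬ (p : ℤ) ∣ G j y k := fun cond ht hj =>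
    tab_use G p hp.pos (G_cong p) cond ht j hj
  have h2 := hp.two_le
  interval_cases p
  all_goals first
    | exact absurd hp (by decide)
    | exact key _ t2 rfl
    | exact key _ t7 rfl
    | exact key _ t11 rfl
    | exact key _ t13 rfl
    | exact key _ t17 rfl
    | exact key _ t19 rfl
    | exact key _ t23 rfl
    | exact key _ t29 rfl
    | exact key _ t31 rfl
    | skip
  · refine key _ t3 ?_
    have h6 : ((j % ((3 : ℕ) : ℤ)).toNat : ℤ) = j % 3 := Int.toNat_of_nonneg (by omega)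
    simp only [beq_eq_false_iff_ne, ne_eq]
    omega
  · refine key _ t5 ?_
    have h6 : ((j % ((5 : ℕ) : ℤ)).toNat : ℤ) = j % 5 := Int.toNat_of_nonneg (by omega)
    simp only [beq_eq_false_iff_ne, ne_eq]
    omega

theorem main (j : ℤ) (h3 : (8 * j + 5) % 3 ≠ 2) (h5 : (8 * j + 5) % 5 ≠ 4)
    (ha : ¬ IsSquare (-(8 * j + 5))) : Nonempty (Eng (8 * j + 5)) := by
  obtain ⟨y, k0, hgood, hCc⟩ := pick (fun p y k => ¬ (p : ℤ) ∣ G j y k)
    (fun p y y' k k' hy hk h => G_cong p j j y y' k k' rfl hy hk h)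
    (tab j h3 h5) (badS (RW5 (8 * j + 5))) (fun p hp => badS_prime _ hp)
    (fun p hp => badS_ge _ hp) (fun p y => (p : ℤ) ∣ 36 * y - 15)
    (fun p hp => lin_solve (badS_prime _ hp) 36 15 (not_dvd_small (badS_prime _ hp)
      (badS_ge _ hp) 36 (by norm_num) (by norm_num)))
  have h37 : (37 : ℤ) ∣ 36 * y - 15 := hCc 37 (badS_37 _)
  have hy0 : y ≠ 0 := by omega
  have h2C := two_C j y
  have hCne : Cc j y ≠ 0 := by
    intro h
    rw [h] at h2C
    obtain ⟨c, hc⟩ := h37
    rw [hc] at h2C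
    have : (37 : ℤ) ∣ 1 := ⟨-((8 * j + 5) * 37 * c ^ 2), by linear_combination -h2C⟩
    norm_num at this
  have hd2 : 2 ≤ |d2 j y| := by
    have h1 : d2 j y ≠ 0 := by
      intro h
      have h2 := two_d j y
      rw [h] at h2
      obtain ⟨c, hc⟩ := h37
      rw [hc] at h2C
      have : (37 : ℤ) ∣ 3 := ⟨-((8 * j + 5) * 37 * c ^ 2), by
        linear_combination -h2C + 2 * h2⟩
      norm_num at this
    have h2 : d2 j y = 2 * (-(8 * j * om y + j + 5 * om y + 1)) := by
      unfold d2; ring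
    rw [h2] at h1 ⊢
    rw [abs_mul, abs_of_nonneg (by norm_num : (0 : ℤ) ≤ 2)]
    have h3 : -(8 * j * om y + j + 5 * om y + 1) ≠ 0 := by
      intro h; rw [h] at h1; exact h1 (by ring)
    have := Int.one_le_abs h3
    linarith
  have hg1 : g1 j y ≠ 0 := by
    unfold g1
    exact mul_ne_zero (by norm_num) hCne
  have hW : 36 * y - 15 ≠ 0 := by omega
  have hxe : ∀ k : ℤ, (poly5 (xx j y 0) (4 * (36 * y - 15) * g0 j y * g1 j y +
      4 * g1 j y * (2 - 6 * y)) (2 * (36 * y - 15) * g1 j y ^ 2) 0 0).eval k = xx j y k := by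
    intro k
    rw [poly5_eval]
    unfold xx
    ring
  set P := poly5 (xx j y 0) (4 * (36 * y - 15) * g0 j y * g1 j y +
      4 * g1 j y * (2 - 6 * y)) (2 * (36 * y - 15) * g1 j y ^ 2) 0 0 with hP
  have hP1 : 1 ≤ P.natDegree := poly5_ge _ _ _ _ _
    (Or.inr (Or.inl (mul_ne_zero (mul_ne_zero (by norm_num) hW) (pow_ne_zero 2 hg1))))
  have hP4 : P.natDegree ≤ 4 := poly5_deg _ _ _ _ _
  clear_value P
  have hLL : ∀ k : ℤ, LL1 (g0 j y) (g1 j y) (-d2 j y) 4 [-6, 2 * y, -2, 2] [2, d2 j y] k =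
      L j y k := fun k => rfl
  have hmap : ∀ k : ℤ, ([P].map (evalRingHom k)) = [xx j y k] := by
    intro k
    rw [List.map_cons, List.map_nil, ← hxe k]
    rfl
  refine build (8 * j + 5) (g0 j y) (g1 j y) (-d2 j y) 4 [-6, 2 * y, -2, 2] [2, d2 j y]
    [P] 1 0 ?_ ?_ hg1 (by norm_num) ?_ (show Odd 9 by decide) ?_ ?_ (by simp)
    (24 * y - 8) (1 - 4 * y) (36 * y - 15) (2 - 6 * y) ?_ ?_ (fun _ _ => 1) ?_ ?_ k0 ?_
  · intro c hc
    simp only [List.mem_cons, List.not_mem_nil, or_false] at hc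
    rcases hc with rfl | rfl | rfl | rfl
    · norm_num
    · rw [abs_mul, abs_of_nonneg (by norm_num : (0 : ℤ) ≤ 2)]
      have := Int.one_le_abs hy0
      linarith
    · norm_num
    · norm_num
  · intro c hc
    simp only [List.mem_cons, List.not_mem_nil, or_false] at hc
    rcases hc with rfl | rfl
    · norm_num
    · exact hd2
  · intro t ht
    simp only [Ts, List.mem_cons, List.not_mem_nil, or_false] at ht
    have : t = P := by rw [ht]; ring
    rw [this]
    exact ⟨hP1, hP4⟩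
  · intro k p hp hd
    rw [hmap] at hd
    rw [hLL]
    have h1 : (Qs (8 * j + 5) 0 1 1 0 [xx j y k]).prod = xx j y k ^ 2 + (8 * j + 5) := by
      simp only [Qs, List.prod_cons, List.prod_nil]
      ring
    rw [h1, ← end_eq] at hd
    exact (hd.trans (List.dvd_prod (En_mem (8 * j + 5) (L j y k) 0 1 1 0 (by simp [L, LL1])))).mul_right _
  · intro k
    rw [hmap, hLL, end_eq]
    refine ⟨xx j y k ^ 2 + (8 * j + 5), ?_⟩
    simp only [En]
    ring
  · simp only [En, Prod.mk.injEq]
    refine ⟨?_, ?_, ?_, ?_⟩ <;> ring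
  · intro p hp hp37
    have hF : Fact p.Prime := ⟨hp⟩
    have n4 : ((4 : ℤ) : ZMod p) ≠ 0 := by exact_mod_cast small_ne hp37 4 (by norm_num) (by norm_num)
    refine ⟨n4, ?_⟩
    have h2C' : 2 * ((Cc j y : ℤ) : ZMod p) = (8 * j + 5) * (36 * y - 15) ^ 2 + 1 := by
      have := congrArg (Int.cast : ℤ → ZMod p) h2C
      push_cast at this
      exact this
    have h2d' : 2 * ((d2 j y : ℤ) : ZMod p) = -(((Cc j y : ℤ) : ZMod p) + 1) := by
      have := congrArg (Int.cast : ℤ → ZMod p) (two_d j y)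
      push_cast at this
      exact this
    by_cases hc : ((Cc j y : ℤ) : ZMod p) = 0
    · right
      refine ⟨?_, ?_⟩
      · unfold g1
        push_cast
        rw [hc]
        ring
      · intro h0
        have hW1 : (8 * (j : ZMod p) + 5) * (36 * y - 15) ^ 2 = -1 := by
          rw [hc] at h2C'
          linear_combination -h2C'
        have hWn : (36 * (y : ZMod p) - 15) ≠ 0 := by
          intro h
          rw [h] at hW1
          have : (1 : ZMod p) = 0 := by linear_combination hW1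
          exact one_ne_zero this
        have hinv : (36 * (y : ZMod p) - 15) * (36 * (y : ZMod p) - 15)⁻¹ = 1 :=
          mul_inv_cancel₀ hWn
        set ω := (36 * (y : ZMod p) - 15)⁻¹ with hω
        have haω : (8 * (j : ZMod p) + 5) = -ω ^ 2 := by
          linear_combination (ω ^ 2) * hW1 - (8 * (j : ZMod p) + 5) *
            ((36 * (y : ZMod p) - 15) * ω + 1) * hinv
        have n2 : (2 : ZMod p) ≠ 0 := by exact_mod_cast small_ne hp37 2 (by norm_num) (by norm_num)
        have hd' : 2 * ((d2 j y : ℤ) : ZMod p) = -1 := by rw [h2d', hc]; ring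
        have hcc : 12 * ((g0 j y : ℤ) : ZMod p) = (-1) + 6 * ω := by
          unfold g0
          push_cast
          rw [haω]
          linear_combination (-6 * ((d2 j y : ℤ) : ZMod p) + 3) * hd' -
            12 * (2 - 6 * (y : ZMod p)) * ω * hinv + 2 * hinv
        have hR := W5_F (8 * (j : ZMod p) + 5) (y : ZMod p) ((g0 j y : ℤ) : ZMod p) ω haω
          (by linear_combination hcc) (by linear_combination hinv) (by
            have : ([-6, 2 * y, -2, 2].map (Int.castRingHom (ZMod p)) : List (ZMod p)) =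
              [-6, 2 * (y : ZMod p), -2, 2] := by simp
            rw [this] at h0
            simpa using h0)
        have hR2 : ((RW5 (8 * j + 5) : ℤ) : ZMod p) = 0 := by
          rw [← hR]
          unfold RW5
          push_cast
          ring
        have hpS := badS_mem (RW5_ne ha) hp hp37 ((ZMod.intCast_zmod_eq_zero_iff_dvd _ _).1 hR2)
        have h6 : ((36 * y - 15 : ℤ) : ZMod p) = 0 :=
          (ZMod.intCast_zmod_eq_zero_iff_dvd _ _).2 (hCc p hpS)
        push_cast at h6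
        exact hWn h6
    · left
      have n2 : (2 : ZMod p) ≠ 0 := by exact_mod_cast small_ne hp37 2 (by norm_num) (by norm_num)
      refine ⟨?_, ?_⟩
      · unfold g1
        push_cast
        exact mul_ne_zero (by simpa using n2) hc
      · intro hw0 h
        have hw0' : 36 * (y : ZMod p) - 15 = 0 := by exact_mod_cast hw0
        have n12 : (12 : ZMod p) ≠ 0 := by
          exact_mod_cast small_ne hp37 12 (by norm_num) (by norm_num)
        apply n12
        have hg : ((g1 j y : ℤ) : ZMod p) = -1 := by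
          unfold g1
          push_cast
          rw [hw0'] at h2C'
          linear_combination -h2C'
        rw [hg] at h
        push_cast at h
        linear_combination (-3) * h - 4 * hw0'
  · intro p k
    simp
  · intro p hF h
    have : (univ.filter (fun k : ZMod p => (1 : ZMod p) = 0)) = ∅ := by
      rw [filter_eq_empty_iff]
      intro k _
      exact one_ne_zero
    rw [this]
    simp
  · intro p hp h37
    rw [hLL, eval_one, mul_one]
    exact hgood p hp h37

end W5

end Pool.Agent.Helper8.Mono
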