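import Pool.Agent.Helper8.Mono.Engine

/-!
Paths of integer vectors with consecutive determinants `± 1`, the values of `x ^ 2 + a y ^ 2` along
them, and the numbers `t` with `t ^ 2 + a` the product of two consecutive values.
-/

set_option autoImplicit false

namespace Pool.Agent.Helper8.Mono

open Polynomial

section ring

variable {R S : Type*} [CommRing R] [CommRing S]

/-- the values `x ^ 2 + a y ^ 2` at the vectors after `(x0, y0)`, `(x1, y1)` along the path with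
quotients `cs` -/
def Qs (a : R) : R → R → R → R → List R → List R
  | _, _, _, _, [] => []
  | x0, y0, x1, y1, c :: cs =>
    ((c * x1 + x0) ^ 2 + a * (c * y1 + y0) ^ 2) :: Qs a x1 y1 (c * x1 + x0) (c * y1 + y0) cs

/-- the numbers `t` belonging to the edges of the path -/
def Ts (a : R) : R → R → R → R → List R → List R
  | _, _, _, _, [] => []
  | x0, y0, x1, y1, c :: cs =>
    (x1 * (c * x1 + x0) + a * (y1 * (c * y1 + y0))) :: Ts a x1 y1 (c * x1 + x0) (c * y1 + y0) cs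

/-- the last two vectors of the path -/
def En : R → R → R → R → List R → R × R × R × R
  | x0, y0, x1, y1, [] => (x0, y0, x1, y1)
  | x0, y0, x1, y1, c :: cs => En x1 y1 (c * x1 + x0) (c * y1 + y0) cs

lemma Qs_map (f : R →+* S) (a : R) : ∀ (cs : List R) (x0 y0 x1 y1 : R),
    (Qs a x0 y0 x1 y1 cs).map f = Qs (f a) (f x0) (f y0) (f x1) (f y1) (cs.map f)
  | [], _, _, _, _ => rfl
  | c :: cs, x0, y0, x1, y1 => by
    simp only [Qs, List.map_cons, Qs_map f a cs, map_add, map_mul, map_pow]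

lemma Ts_map (f : R →+* S) (a : R) : ∀ (cs : List R) (x0 y0 x1 y1 : R),
    (Ts a x0 y0 x1 y1 cs).map f = Ts (f a) (f x0) (f y0) (f x1) (f y1) (cs.map f)
  | [], _, _, _, _ => rfl
  | c :: cs, x0, y0, x1, y1 => by
    simp only [Ts, List.map_cons, Ts_map f a cs, map_add, map_mul]

lemma Ts_length (a : R) : ∀ (cs : List R) (x0 y0 x1 y1 : R),
    (Ts a x0 y0 x1 y1 cs).length = cs.length
  | [], _, _, _, _ => rfl
  | c :: cs, x0, y0, x1, y1 => by
    simp only [Ts, List.length_cons, Ts_length a cs]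

lemma Qs_append (a : R) : ∀ (l m : List R) (x0 y0 x1 y1 : R),
    Qs a x0 y0 x1 y1 (l ++ m) = Qs a x0 y0 x1 y1 l ++
      Qs a (En x0 y0 x1 y1 l).1 (En x0 y0 x1 y1 l).2.1 (En x0 y0 x1 y1 l).2.2.1
        (En x0 y0 x1 y1 l).2.2.2 m
  | [], m, _, _, _, _ => rfl
  | c :: l, m, x0, y0, x1, y1 => by
    simp only [Qs, En, List.cons_append, Qs_append a l m]

lemma Ts_append (a : R) : ∀ (l m : List R) (x0 y0 x1 y1 : R),
    Ts a x0 y0 x1 y1 (l ++ m) = Ts a x0 y0 x1 y1 l ++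
      Ts a (En x0 y0 x1 y1 l).1 (En x0 y0 x1 y1 l).2.1 (En x0 y0 x1 y1 l).2.2.1
        (En x0 y0 x1 y1 l).2.2.2 m
  | [], m, _, _, _, _ => rfl
  | c :: l, m, x0, y0, x1, y1 => by
    simp only [Ts, En, List.cons_append, Ts_append a l m]

lemma En_map (f : R →+* S) : ∀ (cs : List R) (x0 y0 x1 y1 : R),
    En (f x0) (f y0) (f x1) (f y1) (cs.map f) =
      (f (En x0 y0 x1 y1 cs).1, f (En x0 y0 x1 y1 cs).2.1, f (En x0 y0 x1 y1 cs).2.2.1,
        f (En x0 y0 x1 y1 cs).2.2.2)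
  | [], _, _, _, _ => rfl
  | c :: cs, x0, y0, x1, y1 => by
    simp only [En, List.map_cons, ← map_add, ← map_mul, En_map f cs]

/-- the basic identity -/
lemma step_id (a x0 y0 x1 y1 c : R) (hd : (x0 * y1 - x1 * y0) ^ 2 = 1) :
    (x1 * (c * x1 + x0) + a * (y1 * (c * y1 + y0))) ^ 2 + a =
      (x1 ^ 2 + a * y1 ^ 2) * ((c * x1 + x0) ^ 2 + a * (c * y1 + y0) ^ 2) := by
  linear_combination (-a) * hd

lemma det_step (x0 y0 x1 y1 c : R) (hd : (x0 * y1 - x1 * y0) ^ 2 = 1) :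
    (x1 * (c * y1 + y0) - (c * x1 + x0) * y1) ^ 2 = 1 := by
  linear_combination hd

lemma En_det : ∀ (cs : List R) (x0 y0 x1 y1 : R), (x0 * y1 - x1 * y0) ^ 2 = 1 →
    ((En x0 y0 x1 y1 cs).1 * (En x0 y0 x1 y1 cs).2.2.2 -
      (En x0 y0 x1 y1 cs).2.2.1 * (En x0 y0 x1 y1 cs).2.1) ^ 2 = 1
  | [], _, _, _, _, h => h
  | c :: cs, x0, y0, x1, y1, h => by
    simp only [En]
    exact En_det cs _ _ _ _ (det_step x0 y0 x1 y1 c h)

/-- the product of the `t ^ 2 + a` along a nonempty path -/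
lemma prodT (a : R) : ∀ (cs : List R) (x0 y0 x1 y1 : R), cs ≠ [] → (x0 * y1 - x1 * y0) ^ 2 = 1 →
    ∃ w : R, ((Ts a x0 y0 x1 y1 cs).map (fun t => t ^ 2 + a)).prod =
      (x1 ^ 2 + a * y1 ^ 2) * w ^ 2 *
        ((En x0 y0 x1 y1 cs).2.2.1 ^ 2 + a * (En x0 y0 x1 y1 cs).2.2.2 ^ 2)
  | [], _, _, _, _, h, _ => absurd rfl h
  | [c], x0, y0, x1, y1, _, hd => by
    refine ⟨1, ?_⟩
    simp only [Ts, En, List.map_cons, List.map_nil, List.prod_cons, List.prod_nil]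
    rw [step_id a x0 y0 x1 y1 c hd]
    ring
  | c :: c' :: cs, x0, y0, x1, y1, _, hd => by
    obtain ⟨w, hw⟩ := prodT a (c' :: cs) x1 y1 (c * x1 + x0) (c * y1 + y0) (by simp)
      (det_step x0 y0 x1 y1 c hd)
    refine ⟨((c * x1 + x0) ^ 2 + a * (c * y1 + y0) ^ 2) * w, ?_⟩
    rw [Ts, List.map_cons, List.prod_cons, hw, step_id a x0 y0 x1 y1 c hd]
    rw [show En x0 y0 x1 y1 (c :: c' :: cs) = En x1 y1 (c * x1 + x0) (c * y1 + y0) (c' :: cs)
      from rfl]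
    ring

end ring

/-- prime factors of `t ^ 2 + a` divide one of the values -/
lemma dvd_Qs (a : ℤ) : ∀ (cs : List ℤ) (x0 y0 x1 y1 : ℤ), (x0 * y1 - x1 * y0) ^ 2 = 1 →
    ∀ (p : ℕ), p.Prime → ∀ t ∈ Ts a x0 y0 x1 y1 cs, (p : ℤ) ∣ t ^ 2 + a →
    (p : ℤ) ∣ (x1 ^ 2 + a * y1 ^ 2) * (Qs a x0 y0 x1 y1 cs).prod
  | [], _, _, _, _, _, _, _, t, ht, _ => by simp [Ts] at ht
  | c :: cs, x0, y0, x1, y1, hd, p, hp, t, ht, hdv => by
    rw [Ts, List.mem_cons] at ht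
    rw [Qs, List.prod_cons]
    rcases ht with rfl | ht
    · rw [step_id a x0 y0 x1 y1 c hd] at hdv
      rw [← mul_assoc]
      exact hdv.mul_right _
    · exact (dvd_Qs a cs _ _ _ _ (det_step x0 y0 x1 y1 c hd) p hp t ht hdv).mul_left _

end Pool.Agent.Helper8.Mono
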