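import Pool.Graph.R_seed8.H505R3.SieveG

/-!
Brun-Hooley lower bound sieve with at most `2 h` excluded residue classes for each prime, for sets
of primes from `37` on (adapted from the library file `SieveG`, where `h ≤ 8`).
-/

set_option autoImplicit false

namespace Pool.Agent.Helper8.Mono

open Finset Pool.Agent.Helper742 Pool.Agent.H446R2 Pool.Agent.H505R2 Pool.Agent.H505R3

variable {Ω : ℕ → Finset ℕ}

lemma Nk_leH (κ : ℕ) (hκ : κ ≤ 1369) (T : Finset ℕ) (r Y : ℕ) (hY : 4 ≤ Y)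
    (hT : ∀ p ∈ T, 37 ≤ p ∧ p ≤ Y) : Nk κ T r ≤ (Y : ℝ) ^ (3 * r + 1) := by
  have h1 := Nc_le T r Y hY (fun p hp => ⟨by have := (hT p hp).1; omega, (hT p hp).2⟩)
  have hY' : (4 : ℝ) ≤ Y := by exact_mod_cast hY
  have h2 : Nk κ T r ≤ ((Y : ℝ) ^ 2) ^ r * Nc T r := by
    unfold Nk Nc
    rw [mul_add]
    have key : ∀ A : Finset ℕ, A ⊆ T → A.card ≤ r → (κ : ℝ) ^ A.card ≤ ((Y : ℝ) ^ 2) ^ r := by
      intro A hAT hA
      rcases A.eq_empty_or_nonempty with rfl | ⟨p, hp⟩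
      · rw [card_empty, pow_zero]
        exact one_le_pow₀ (by nlinarith)
      · have hκY : (κ : ℝ) ≤ (Y : ℝ) ^ 2 := by
          have h3 : (κ : ℝ) ≤ 1369 := by exact_mod_cast hκ
          have h4 : (37 : ℝ) ≤ Y := by
            have := hT p (hAT hp)
            exact_mod_cast this.1.trans this.2
          nlinarith
        calc (κ : ℝ) ^ A.card ≤ ((Y : ℝ) ^ 2) ^ A.card :=
              pow_le_pow_left₀ (by positivity) hκY _
          _ ≤ ((Y : ℝ) ^ 2) ^ r := pow_le_pow_right₀ (by nlinarith) hA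
    apply add_le_add
    · rw [mul_comm, ← nsmul_eq_mul]
      apply sum_le_card_nsmul
      intro A hA
      exact key A (mem_powerset.1 (mem_filter.1 hA).1) (mem_filter.1 hA).2.le
    · rw [mul_comm, ← nsmul_eq_mul]
      apply sum_le_card_nsmul
      intro A hA
      exact key A (mem_powerset.1 (mem_filter.1 hA).1) (mem_filter.1 hA).2.le
  calc Nk κ T r ≤ ((Y : ℝ) ^ 2) ^ r * Nc T r := h2
    _ ≤ ((Y : ℝ) ^ 2) ^ r * (Y : ℝ) ^ (r + 1) := mul_le_mul_of_nonneg_left h1 (by positivity)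
    _ = (Y : ℝ) ^ (3 * r + 1) := by rw [← pow_mul, ← pow_add]; congr 1; ring

/-- Lower bound sieve with at most `2 h ≤ 1369` excluded classes for each prime, and level a fixed
power of the sifting limit. -/
theorem sieve_lowerH (h : ℕ) (hh : 2 * h ≤ 1369) (S : Finset ℕ) (hS : ∀ p ∈ S, p.Prime)
    (h37 : ∀ p ∈ S, 37 ≤ p)
    (h45 : ∀ p ∈ S, 5 * (Ω p).card ≤ 4 * p)
    (hΩ : ∀ p ∈ S, Ω p ⊆ range p) (hκ : ∀ p ∈ S, (Ω p).card ≤ 2 * h) (I : ℕ) (hI : 1 ≤ I)
    (hSY : ∀ p ∈ S, p ≤ 2 ^ 2 ^ I) (k : ℕ) :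
    (k : ℝ) * (Real.exp (-(32 * h)) ^ I / 2) - (2 : ℝ) ^ ((420 * h + 32) * 2 ^ I)
      ≤ (((Ioc 0 k).filter (fun n => ∀ p ∈ S, n % p ∉ Ω p)).card : ℝ) := by
  have hTS : ∀ i, TT S i ⊆ S := fun i => filter_subset _ _
  have hTp : ∀ i, ∀ p ∈ TT S i, p.Prime := fun i p hp => hS p (hTS i hp)
  have hT45 : ∀ i, ∀ p ∈ TT S i, dd Ω p ≤ 4 / 5 := fun i p hp =>
    dd_le45 (hTp i p hp).pos (h45 p (hTS i hp))
  have hTΩ : ∀ i, ∀ p ∈ TT S i, Ω p ⊆ range p := fun i p hp => hΩ p (hTS i hp)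
  have hTκ : ∀ i, ∀ p ∈ TT S i, (Ω p).card ≤ 2 * h := fun i p hp => hκ p (hTS i hp)
  have hh0 : (0 : ℝ) ≤ h := Nat.cast_nonneg h
  have hsum : ∀ i, ∑ p ∈ TT S i, dd Ω p ≤ 8 * h := by
    intro i
    calc ∑ p ∈ TT S i, dd Ω p ≤ ∑ p ∈ TT S i, ((2 * h : ℕ) : ℝ) * dn p :=
          sum_le_sum fun p hp => dd_le_dnG (hTκ i p hp)
      _ = ((2 * h : ℕ) : ℝ) * ∑ p ∈ TT S i, dn p := by rw [mul_sum]
      _ ≤ ((2 * h : ℕ) : ℝ) * 4 := mul_le_mul_of_nonneg_left (TT_sum S hS i) (by positivity)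
      _ = 8 * h := by push_cast; ring
  have hVge : ∀ i, Real.exp (-(32 * h)) ≤ yb (TT S i) (rg h I i) (dd Ω) := by
    intro i
    refine le_trans ?_ (yb_dd_geG (hT45 i) (rg h I i) (rg_odd h I i))
    apply Real.exp_le_exp.2
    linarith [hsum i]
  have hVpos : ∀ i, 0 < yb (TT S i) (rg h I i) (dd Ω) := fun i => (Real.exp_pos _).trans_le (hVge i)
  obtain ⟨U, L, hU, hL, hUL⟩ := blocksA (TT S) (rg h I) hTp hTΩ (2 * h) hTκ (TT_disj S)
    (rg_odd h I) hVpos I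
  have h1 := hL.sum_bound k
  have h2 := (abs_le.1 h1).1
  -- the indicator
  have h3 : ∀ n, L n ≤ if ∀ p ∈ S, n % p ∉ Ω p then (1 : ℝ) else 0 := by
    intro n
    refine (hUL n).1.trans ?_
    by_cases h : ∀ p ∈ S, n % p ∉ Ω p
    · rw [if_pos h]
      apply Finset.prod_le_one
      · intro i _
        exact prod_nonneg fun p _ => by linarith [uo_le_one (Ω := Ω) n p]
      · intro i _
        apply Finset.prod_le_one
        · intro p _; linarith [uo_le_one (Ω := Ω) n p]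
        · intro p _; linarith [uo_nonneg (Ω := Ω) n p]
    · rw [if_neg h]
      push Not at h
      obtain ⟨p, hp, hpn⟩ := h
      obtain ⟨i, hi, hpi⟩ := TT_cover S p hp I hI (hSY p hp)
      apply le_of_eq
      apply prod_eq_zero (mem_range.2 hi)
      apply prod_eq_zero hpi
      rw [uo, if_pos hpn]
      ring
  have h4 : ∑ n ∈ Ioc 0 k, L n
      ≤ (((Ioc 0 k).filter (fun n => ∀ p ∈ S, n % p ∉ Ω p)).card : ℝ) := by
    rw [Finset.card_filter]
    push_cast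
    exact sum_le_sum fun n _ => h3 n
  -- main term
  have hW : ∀ i, wb (TT S i) (rg h I i) (dd Ω) / yb (TT S i) (rg h I i) (dd Ω)
      ≤ (1 / 2 : ℝ) ^ (rg h I i) * 2 ^ (70 * h) := by
    intro i
    have h5 := wb_le (TT S i) (rg h I i) (dd Ω) (fun p _ => dd_nonneg p)
    have h6 : Real.exp (2 * ∑ p ∈ TT S i, dd Ω p) ≤ Real.exp (16 * h) := by
      apply Real.exp_le_exp.2
      linarith [hsum i]
    rw [div_le_iff₀ (hVpos i)]
    have h7 : (1 : ℝ) ≤ Real.exp (32 * h) * yb (TT S i) (rg h I i) (dd Ω) := by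
      have := mul_le_mul_of_nonneg_left (hVge i) (Real.exp_pos (32 * h)).le
      rwa [← Real.exp_add, add_neg_cancel, Real.exp_zero] at this
    calc wb (TT S i) (rg h I i) (dd Ω) ≤ (1 / 2 : ℝ) ^ (rg h I i) * Real.exp (16 * h) :=
          h5.trans (mul_le_mul_of_nonneg_left h6 (by positivity))
      _ = (1 / 2 : ℝ) ^ (rg h I i) * Real.exp (16 * h) * 1 := by ring
      _ ≤ (1 / 2 : ℝ) ^ (rg h I i) * Real.exp (16 * h) *
            (Real.exp (32 * h) * yb (TT S i) (rg h I i) (dd Ω)) :=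
          mul_le_mul_of_nonneg_left h7 (by positivity)
      _ = (1 / 2 : ℝ) ^ (rg h I i) * (Real.exp (16 * h) * Real.exp (32 * h))
            * yb (TT S i) (rg h I i) (dd Ω) := by
          ring
      _ ≤ (1 / 2 : ℝ) ^ (rg h I i) * 2 ^ (70 * h) * yb (TT S i) (rg h I i) (dd Ω) := by
          apply mul_le_mul_of_nonneg_right _ (hVpos i).le
          apply mul_le_mul_of_nonneg_left _ (by positivity)
          rw [← Real.exp_add, show (16 : ℝ) * h + 32 * h = 48 * h by ring]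
          exact exp48 h
  have hWs : ∑ i ∈ range I, wb (TT S i) (rg h I i) (dd Ω) / yb (TT S i) (rg h I i) (dd Ω)
      ≤ 1 / 2 := by
    refine (sum_le_sum fun i _ => hW i).trans ?_
    rw [← sum_mul]
    have := geom_sum_boundG h I
    calc (∑ i ∈ range I, (1 / 2 : ℝ) ^ rg h I i) * 2 ^ (70 * h)
        ≤ 1 / 2 ^ (70 * h + 1) * 2 ^ (70 * h) :=
          mul_le_mul_of_nonneg_right this (by positivity)
      _ = 1 / 2 := by
          rw [pow_succ]
          field_simp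
  have hVprod : Real.exp (-(32 * h)) ^ I ≤ ∏ i ∈ range I, yb (TT S i) (rg h I i) (dd Ω) := by
    calc Real.exp (-(32 * h)) ^ I = ∏ i ∈ range I, Real.exp (-(32 * h)) := by simp
      _ ≤ _ := prod_le_prod (fun i _ => (Real.exp_pos _).le) (fun i _ => hVge i)
  have hmain : Real.exp (-(32 * h)) ^ I / 2 ≤ (∏ i ∈ range I, yb (TT S i) (rg h I i) (dd Ω))
      * (1 - ∑ i ∈ range I, wb (TT S i) (rg h I i) (dd Ω) / yb (TT S i) (rg h I i) (dd Ω)) := by
    have hp : 0 < Real.exp (-(32 * h)) ^ I := by positivity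
    calc Real.exp (-(32 * h)) ^ I / 2 = Real.exp (-(32 * h)) ^ I * (1 / 2) := by ring
      _ ≤ _ := mul_le_mul hVprod (by linarith) (by norm_num) (hp.le.trans hVprod)
  -- error term
  have hE : ∏ i ∈ range I, Nk (2 * h) (TT S i) (rg h I i)
      ≤ (2 : ℝ) ^ ((420 * h + 32) * 2 ^ I) := by
    have h5 : ∀ i ∈ range I, Nk (2 * h) (TT S i) (rg h I i)
        ≤ (2 : ℝ) ^ (2 ^ (i + 1) * (3 * rg h I i + 1)) := by
      intro i _
      have h6 := Nk_leH (2 * h) hh (TT S i) (rg h I i) (2 ^ 2 ^ (i + 1)) (by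
        calc 4 = 2 ^ 2 ^ 1 := by norm_num
          _ ≤ 2 ^ 2 ^ (i + 1) := Nat.pow_le_pow_right (by norm_num)
              (Nat.pow_le_pow_right (by norm_num) (by omega))) (by
        intro p hp
        refine ⟨h37 p (hTS i hp), ?_⟩
        rw [TT, mem_filter] at hp
        exact hp.2.1)
      refine h6.trans (le_of_eq ?_)
      push_cast
      rw [← pow_mul]
    refine (prod_le_prod (fun i _ => Nk_nonneg _ _ _) h5).trans ?_
    rw [prod_pow_eq_pow_sum]
    apply pow_le_pow_right₀ (by norm_num)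
    have := exponent_sumG h I
    omega
  have hk : (0 : ℝ) ≤ k := Nat.cast_nonneg k
  have := mul_le_mul_of_nonneg_left hmain hk
  linarith

/-- the same, with the excluded classes given by a property -/
theorem sift_genH (h : ℕ) (hh : 2 * h ≤ 1369) (S : Finset ℕ) (hS : ∀ p ∈ S, p.Prime)
    (h37 : ∀ p ∈ S, 37 ≤ p)
    (D : ℕ → ℕ → Prop) [∀ p, DecidablePred (D p)] (hD : ∀ p ∈ S, ∀ n, D p n → D p (n % p))
    (h45 : ∀ p ∈ S, 5 * ((range p).filter (D p)).card ≤ 4 * p)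
    (hκ : ∀ p ∈ S, ((range p).filter (D p)).card ≤ 2 * h) (I : ℕ) (hI : 1 ≤ I)
    (hSY : ∀ p ∈ S, p ≤ 2 ^ 2 ^ I) (k : ℕ) :
    (k : ℝ) * (Real.exp (-(32 * h)) ^ I / 2) - (2 : ℝ) ^ ((420 * h + 32) * 2 ^ I)
      ≤ (((Ioc 0 k).filter (fun n => ∀ p ∈ S, ¬ D p n)).card : ℝ) := by
  have h1 := sieve_lowerH (Ω := fun p => (range p).filter (D p)) h hh S hS h37 h45
    (fun p _ => filter_subset _ _) hκ I hI hSY k
  refine h1.trans ?_
  have hsub : (Ioc 0 k).filter (fun n => ∀ p ∈ S, n % p ∉ (range p).filter (D p)) ⊆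
      (Ioc 0 k).filter (fun n => ∀ p ∈ S, ¬ D p n) := by
    intro n hn
    rw [mem_filter] at hn ⊢
    refine ⟨hn.1, fun p hp hd => hn.2 p hp ?_⟩
    rw [mem_filter, mem_range]
    exact ⟨Nat.mod_lt _ (hS p hp).pos, hD p hp n hd⟩
  exact_mod_cast card_le_card hsub

end Pool.Agent.Helper8.Mono
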