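import Pool.Agent.Helper8.Mono.Build

/-!
Local conditions at small primes by tables, and small facts about residues.
-/

set_option autoImplicit false

namespace Pool.Agent.Helper8.Mono

open Finset

/-- the table of local conditions -/
def tabG (G : ℤ → ℤ → ℤ → ℤ) (p : ℕ) (cond : ℕ → Bool) : Bool :=
  (List.range p).all fun j => cond j || (List.range p).any fun y => (List.range p).any fun k =>
    !((G (j : ℤ) (y : ℤ) (k : ℤ)) % (p : ℤ) == 0)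

lemma cong_of_cast (G : ℤ → ℤ → ℤ → ℤ) (Gp : ∀ p : ℕ, ZMod p → ZMod p → ZMod p → ZMod p)
    (h : ∀ (p : ℕ) (j y k : ℤ), ((G j y k : ℤ) : ZMod p) = Gp p (j : ZMod p) (y : ZMod p) k)
    (p : ℕ) (j j' y y' k k' : ℤ) (hj : j ≡ j' [ZMOD p]) (hy : y ≡ y' [ZMOD p])
    (hk : k ≡ k' [ZMOD p]) (hd : ¬ (p : ℤ) ∣ G j y k) : ¬ (p : ℤ) ∣ G j' y' k' := by
  rw [← ZMod.intCast_zmod_eq_zero_iff_dvd, h] at hd ⊢
  rw [← (ZMod.intCast_eq_intCast_iff _ _ _).2 hj, ← (ZMod.intCast_eq_intCast_iff _ _ _).2 hy,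
    ← (ZMod.intCast_eq_intCast_iff _ _ _).2 hk]
  exact hd

lemma tab_use (G : ℤ → ℤ → ℤ → ℤ) (p : ℕ) (hp : 0 < p)
    (hc : ∀ (j j' y y' k k' : ℤ), j ≡ j' [ZMOD p] → y ≡ y' [ZMOD p] → k ≡ k' [ZMOD p] →
      ¬ (p : ℤ) ∣ G j y k → ¬ (p : ℤ) ∣ G j' y' k')
    (cond : ℕ → Bool) (ht : tabG G p cond = true) (j : ℤ)
    (hj : cond (j % (p : ℤ)).toNat = false) : ∃ y k : ℤ, ¬ (p : ℤ) ∣ G j y k := by
  unfold tabG at ht
  rw [List.all_eq_true] at ht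
  have hp' : (0 : ℤ) < p := by exact_mod_cast hp
  have h0 : 0 ≤ j % (p : ℤ) := Int.emod_nonneg _ hp'.ne'
  have h1 : (j % (p : ℤ)).toNat ∈ List.range p := by
    rw [List.mem_range]
    have := Int.emod_lt_of_pos j hp'
    omega
  have h2 := ht _ h1
  rw [hj, Bool.false_or, List.any_eq_true] at h2
  obtain ⟨y, -, h3⟩ := h2
  rw [List.any_eq_true] at h3
  obtain ⟨k, -, h4⟩ := h3
  refine ⟨y, k, ?_⟩
  refine hc (((j % (p : ℤ)).toNat : ℕ) : ℤ) j y y k k ?_ rfl rfl ?_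
  · rw [Int.toNat_of_nonneg h0]
    exact Int.mod_modEq j p
  · intro h5
    have h6 : G (((j % (p : ℤ)).toNat : ℕ) : ℤ) (y : ℤ) (k : ℤ) % (p : ℤ) = 0 :=
      Int.emod_eq_zero_of_dvd h5
    rw [h6] at h4
    simp at h4

lemma lin_solve {p : ℕ} (hp : p.Prime) (u v : ℤ) (hu : ¬ (p : ℤ) ∣ u) :
    ∃ r : ℤ, ∀ y : ℤ, y ≡ r [ZMOD p] → (p : ℤ) ∣ u * y - v := by
  have h1 : IsCoprime (p : ℤ) u := (Nat.prime_iff_prime_int.1 hp).coprime_iff_not_dvd.2 hu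
  obtain ⟨s, t, hst⟩ := h1
  refine ⟨t * v, fun y hy => ?_⟩
  obtain ⟨c, hc⟩ := (Int.modEq_iff_dvd.1 hy)
  refine ⟨-(u * c) - v * s, ?_⟩
  linear_combination (-u) * hc + v * hst

lemma small_ne {p : ℕ} (h37 : 37 ≤ p) (n : ℕ) (h0 : 0 < n) (hn : n < 37) :
    ((n : ℕ) : ZMod p) ≠ 0 := by
  rw [Ne, ZMod.natCast_eq_zero_iff]
  intro h
  have := Nat.le_of_dvd h0 h
  omega

lemma not_dvd_small {p : ℕ} (_hp : p.Prime) (h37 : 37 ≤ p) (n : ℕ) (h0 : 0 < n) (hn : n < 37) :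
    ¬ (p : ℤ) ∣ (n : ℤ) := by
  intro h
  have h1 : p ∣ n := by exact_mod_cast h
  have := Nat.le_of_dvd h0 h1
  omega

/-- the bad primes: `37` and the large primes dividing `R` -/
def badS (R : ℤ) : Finset ℕ := insert 37 (R.natAbs.primeFactors.filter (fun p => 37 ≤ p))

lemma badS_prime (R : ℤ) {p : ℕ} (hp : p ∈ badS R) : p.Prime := by
  unfold badS at hp
  rw [mem_insert, mem_filter] at hp
  rcases hp with rfl | hp
  · norm_num
  · exact Nat.prime_of_mem_primeFactors hp.1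

lemma badS_ge (R : ℤ) {p : ℕ} (hp : p ∈ badS R) : 37 ≤ p := by
  unfold badS at hp
  rw [mem_insert, mem_filter] at hp
  rcases hp with rfl | hp
  · exact le_rfl
  · exact hp.2

lemma badS_37 (R : ℤ) : 37 ∈ badS R := mem_insert_self _ _

lemma badS_mem {R : ℤ} (hR : R ≠ 0) {p : ℕ} (hp : p.Prime) (h37 : 37 ≤ p) (hd : (p : ℤ) ∣ R) :
    p ∈ badS R := by
  unfold badS
  rw [mem_insert, mem_filter]
  right
  refine ⟨?_, h37⟩
  rw [Nat.mem_primeFactors]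
  exact ⟨hp, Int.natCast_dvd.1 hd, Int.natAbs_ne_zero.2 hR⟩

end Pool.Agent.Helper8.Mono
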