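import Pool.Agent.Helper8.Mono.Path

/-!
Zeros modulo a prime of the values along a path with two quotients depending linearly on a parameter,
and degrees of the associated polynomials.
-/

set_option autoImplicit false

namespace Pool.Agent.Helper8.Mono

open Polynomial Finset

section poly5

variable {R : Type*} [CommRing R]

/-- a polynomial of degree at most four given by its coefficients -/
noncomputable def poly5 (c0 c1 c2 c3 c4 : R) : R[X] :=
  C c0 + C c1 * X + C c2 * X ^ 2 + C c3 * X ^ 3 + C c4 * X ^ 4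

lemma poly5_deg (c0 c1 c2 c3 c4 : R) : (poly5 c0 c1 c2 c3 c4).natDegree ≤ 4 := by
  unfold poly5
  compute_degree

lemma poly5_eval (c0 c1 c2 c3 c4 k : R) : (poly5 c0 c1 c2 c3 c4).eval k =
    c0 + c1 * k + c2 * k ^ 2 + c3 * k ^ 3 + c4 * k ^ 4 := by
  unfold poly5
  simp only [eval_add, eval_mul, eval_pow, eval_C, eval_X]

lemma poly5_coeff0 (c0 c1 c2 c3 c4 : R) : (poly5 c0 c1 c2 c3 c4).coeff 0 = c0 := by
  simp [poly5, coeff_X]

lemma poly5_coeff1 (c0 c1 c2 c3 c4 : R) : (poly5 c0 c1 c2 c3 c4).coeff 1 = c1 := by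
  simp [poly5, coeff_C, coeff_X_pow]

lemma poly5_coeff2 (c0 c1 c2 c3 c4 : R) : (poly5 c0 c1 c2 c3 c4).coeff 2 = c2 := by
  simp [poly5]

lemma poly5_coeff3 (c0 c1 c2 c3 c4 : R) : (poly5 c0 c1 c2 c3 c4).coeff 3 = c3 := by
  simp [poly5]

lemma poly5_coeff4 (c0 c1 c2 c3 c4 : R) : (poly5 c0 c1 c2 c3 c4).coeff 4 = c4 := by
  simp [poly5]

lemma poly5_ge (c0 c1 c2 c3 c4 : R) (h : c1 ≠ 0 ∨ c2 ≠ 0 ∨ c3 ≠ 0 ∨ c4 ≠ 0) :
    1 ≤ (poly5 c0 c1 c2 c3 c4).natDegree := by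
  rcases h with h | h | h | h
  · exact le_natDegree_of_ne_zero (by rw [poly5_coeff1]; exact h)
  · exact le_trans (by norm_num) (le_natDegree_of_ne_zero (n := 2) (by rw [poly5_coeff2]; exact h))
  · exact le_trans (by norm_num) (le_natDegree_of_ne_zero (n := 3) (by rw [poly5_coeff3]; exact h))
  · exact le_trans (by norm_num) (le_natDegree_of_ne_zero (n := 4) (by rw [poly5_coeff4]; exact h))

lemma poly5_ne (c0 c1 c2 c3 c4 : R) (h : c0 ≠ 0 ∨ c1 ≠ 0 ∨ c2 ≠ 0 ∨ c3 ≠ 0 ∨ c4 ≠ 0) :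
    poly5 c0 c1 c2 c3 c4 ≠ 0 := by
  intro h0
  have e0 := poly5_coeff0 c0 c1 c2 c3 c4
  have e1 := poly5_coeff1 c0 c1 c2 c3 c4
  have e2 := poly5_coeff2 c0 c1 c2 c3 c4
  have e3 := poly5_coeff3 c0 c1 c2 c3 c4
  have e4 := poly5_coeff4 c0 c1 c2 c3 c4
  rw [h0, coeff_zero] at e0 e1 e2 e3 e4
  rcases h with h | h | h | h | h
  · exact h e0.symm
  · exact h e1.symm
  · exact h e2.symm
  · exact h e3.symm
  · exact h e4.symm

end poly5

section field

variable {F : Type*} [Field F] [Fintype F] [DecidableEq F]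

lemma zc4 (f : F → F) (c0 c1 c2 c3 c4 : F)
    (hf : ∀ k, f k = c0 + c1 * k + c2 * k ^ 2 + c3 * k ^ 3 + c4 * k ^ 4)
    (h : c0 ≠ 0 ∨ c1 ≠ 0 ∨ c2 ≠ 0 ∨ c3 ≠ 0 ∨ c4 ≠ 0) :
    (univ.filter (fun k => f k = 0)).card ≤ 4 := by
  have hne := poly5_ne c0 c1 c2 c3 c4 h
  have h1 : (univ.filter (fun k => f k = 0)) ⊆ (poly5 c0 c1 c2 c3 c4).roots.toFinset := by
    intro k hk
    rw [mem_filter] at hk
    rw [Multiset.mem_toFinset, mem_roots hne, IsRoot.def, poly5_eval, ← hf]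
    exact hk.2
  exact (card_le_card h1).trans ((Multiset.toFinset_card_le _).trans
    ((card_roots' _).trans (poly5_deg _ _ _ _ _)))

lemma zc2 (f : F → F) (c0 c1 c2 : F)
    (hf : ∀ k, f k = c0 + c1 * k + c2 * k ^ 2) (h : c0 ≠ 0 ∨ c1 ≠ 0 ∨ c2 ≠ 0) :
    (univ.filter (fun k => f k = 0)).card ≤ 2 := by
  have hne : (C c0 + C c1 * X + C c2 * X ^ 2 : F[X]) ≠ 0 := by
    have := poly5_ne c0 c1 c2 0 0 (by tauto)
    unfold poly5 at this
    simpa using this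
  have h1 : (univ.filter (fun k => f k = 0)) ⊆
      (C c0 + C c1 * X + C c2 * X ^ 2 : F[X]).roots.toFinset := by
    intro k hk
    rw [mem_filter] at hk
    rw [Multiset.mem_toFinset, mem_roots hne, IsRoot.def]
    simp only [eval_add, eval_mul, eval_pow, eval_C, eval_X]
    rw [← hf]
    exact hk.2
  refine (card_le_card h1).trans ((Multiset.toFinset_card_le _).trans
    ((card_roots' _).trans ?_))
  compute_degree

/-- the part of the path before the second parameter -/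
lemma preZ (a γ0 γ1 : F) (h1 : γ1 ≠ 0) : ∀ (e : List F) (y0 z0 y1 z1 : F),
    y0 * z1 - z0 * y1 ≠ 0 → (univ.filter (fun k =>
      (Qs a ((γ0 + γ1 * k) * y0 + z0) y0 ((γ0 + γ1 * k) * y1 + z1) y1 e).prod = 0)).card ≤
        2 * e.length
  | [], _, _, _, _, _ => by simp [Qs]
  | c :: e, y0, z0, y1, z1, hd => by
    have hd' : y1 * (c * z1 + z0) - z1 * (c * y1 + y0) ≠ 0 := by
      intro h
      apply hd
      linear_combination -h
    have ih := preZ a γ0 γ1 h1 e y1 z1 (c * y1 + y0) (c * z1 + z0) hd'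
    set y2 := c * y1 + y0 with hy2
    set z2 := c * z1 + z0 with hz2
    have hQ : (univ.filter (fun k : F =>
        ((γ0 + γ1 * k) * y2 + z2) ^ 2 + a * y2 ^ 2 = 0)).card ≤ 2 := by
      refine zc2 _ ((γ0 * y2 + z2) ^ 2 + a * y2 ^ 2) (2 * (γ0 * y2 + z2) * (γ1 * y2))
        ((γ1 * y2) ^ 2) (fun k => by ring) ?_
      by_cases hy : y2 = 0
      · left
        rw [hy]
        intro h
        apply hd'
        have hz : z2 = 0 := by
          have : z2 ^ 2 = 0 := by linear_combination h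
          exact pow_eq_zero_iff (two_ne_zero) |>.1 this
        rw [hy, hz]
        ring
      · right; right
        exact pow_ne_zero 2 (mul_ne_zero h1 hy)
    have hsub : (univ.filter (fun k =>
        (Qs a ((γ0 + γ1 * k) * y0 + z0) y0 ((γ0 + γ1 * k) * y1 + z1) y1 (c :: e)).prod = 0)) ⊆
        (univ.filter (fun k : F => ((γ0 + γ1 * k) * y2 + z2) ^ 2 + a * y2 ^ 2 = 0)) ∪
        (univ.filter (fun k => (Qs a ((γ0 + γ1 * k) * y1 + z1) y1 ((γ0 + γ1 * k) * y2 + z2) y2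
          e).prod = 0)) := by
      intro k hk
      rw [mem_filter, Qs, List.prod_cons] at hk
      rw [mem_union, mem_filter, mem_filter]
      have e1 : c * ((γ0 + γ1 * k) * y1 + z1) + ((γ0 + γ1 * k) * y0 + z0) =
          (γ0 + γ1 * k) * y2 + z2 := by rw [hy2, hz2]; ring
      rw [e1, ← hy2] at hk
      rcases mul_eq_zero.1 hk.2 with h | h
      · exact Or.inl ⟨mem_univ _, h⟩
      · exact Or.inr ⟨mem_univ _, h⟩
    have := (card_le_card hsub).trans (card_union_le _ _)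
    rw [List.length_cons]
    omega

/-- the part of the path after the second parameter -/
lemma postZ (a γ0 γ1 q0 q1 w' ρ' w ρ : F) (hq : q1 ≠ 0) (hdet : w' * ρ - ρ' * w ≠ 0)
    (H : (γ1 ≠ 0 ∧ (w = 0 → q1 * ρ + γ1 * w' ≠ 0)) ∨
      (γ1 = 0 ∧ (γ0 * w + ρ) ^ 2 + a * w ^ 2 ≠ 0)) (K L : F) (hKL : K ≠ 0 ∨ L ≠ 0) :
    (univ.filter (fun k : F =>
      ((K * (q0 + q1 * k) + L) * ((γ0 + γ1 * k) * w + ρ) + K * ((γ0 + γ1 * k) * w' + ρ')) ^ 2 +
        a * ((K * (q0 + q1 * k) + L) * w + K * w') ^ 2 = 0)).card ≤ 4 := by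
  obtain ⟨x0, hx0⟩ : ∃ x0, x0 = (K * q0 + L) * (γ0 * w + ρ) + K * (γ0 * w' + ρ') := ⟨_, rfl⟩
  obtain ⟨x1, hx1⟩ : ∃ x1, x1 = (K * q0 + L) * γ1 * w + K * q1 * (γ0 * w + ρ) + K * γ1 * w' :=
    ⟨_, rfl⟩
  obtain ⟨x2, hx2⟩ : ∃ x2, x2 = K * q1 * γ1 * w := ⟨_, rfl⟩
  obtain ⟨y0, hy0⟩ : ∃ y0, y0 = (K * q0 + L) * w + K * w' := ⟨_, rfl⟩
  obtain ⟨y1, hy1⟩ : ∃ y1, y1 = K * q1 * w := ⟨_, rfl⟩
  refine zc4 _ (x0 ^ 2 + a * y0 ^ 2) (2 * x0 * x1 + 2 * a * y0 * y1)
    (x1 ^ 2 + 2 * x0 * x2 + a * y1 ^ 2) (2 * x1 * x2) (x2 ^ 2) (fun k => by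
      rw [hx0, hx1, hx2, hy0, hy1]; ring) ?_
  rcases H with ⟨hγ, hw⟩ | ⟨hγ, hB⟩
  · by_cases hK : K = 0
    · have hL : L ≠ 0 := by
        rcases hKL with h | h
        · exact absurd hK h
        · exact h
      by_cases hw0 : w = 0
      · left
        have hρ : ρ ≠ 0 := by
          intro h
          apply hdet
          rw [h, hw0]; ring
        have e1 : x0 = L * ρ := by rw [hx0, hK, hw0]; ring
        have e2 : y0 = 0 := by rw [hy0, hK, hw0]; ring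
        rw [e1, e2]
        intro h
        have h3 : (L * ρ) ^ 2 = 0 := by linear_combination h
        exact mul_ne_zero hL hρ (pow_eq_zero_iff (two_ne_zero) |>.1 h3)
      · right; right; left
        have e1 : x1 = L * γ1 * w := by rw [hx1, hK]; ring
        have e2 : x2 = 0 := by rw [hx2, hK]; ring
        have e3 : y1 = 0 := by rw [hy1, hK]; ring
        rw [e1, e2, e3]
        intro h
        have h3 : (L * γ1 * w) ^ 2 = 0 := by linear_combination h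
        exact mul_ne_zero (mul_ne_zero hL hγ) hw0 (pow_eq_zero_iff (two_ne_zero) |>.1 h3)
    · by_cases hw0 : w = 0
      · right; right; left
        have e1 : x1 = K * (q1 * ρ + γ1 * w') := by rw [hx1, hw0]; ring
        have e2 : x2 = 0 := by rw [hx2, hw0]; ring
        have e3 : y1 = 0 := by rw [hy1, hw0]; ring
        rw [e1, e2, e3]
        intro h
        have h3 : (K * (q1 * ρ + γ1 * w')) ^ 2 = 0 := by linear_combination h
        exact mul_ne_zero hK (hw hw0) (pow_eq_zero_iff (two_ne_zero) |>.1 h3)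
      · right; right; right; right
        rw [hx2]
        exact pow_ne_zero 2 (mul_ne_zero (mul_ne_zero (mul_ne_zero hK hq) hγ) hw0)
  · by_cases hK : K = 0
    · have hL : L ≠ 0 := by
        rcases hKL with h | h
        · exact absurd hK h
        · exact h
      left
      intro h
      have h3 : L ^ 2 * ((γ0 * w + ρ) ^ 2 + a * w ^ 2) = 0 := by
        rw [hx0, hy0, hK] at h
        linear_combination h
      exact mul_ne_zero (pow_ne_zero 2 hL) hB h3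
    · right; right; left
      intro h
      have h3 : (K * q1) ^ 2 * ((γ0 * w + ρ) ^ 2 + a * w ^ 2) = 0 := by
        rw [hx1, hx2, hy1, hγ] at h
        linear_combination h
      exact mul_ne_zero (pow_ne_zero 2 (mul_ne_zero hK hq)) hB h3

lemma postZs (a γ0 γ1 q0 q1 w' ρ' w ρ : F) (hq : q1 ≠ 0) (hdet : w' * ρ - ρ' * w ≠ 0)
    (H : (γ1 ≠ 0 ∧ (w = 0 → q1 * ρ + γ1 * w' ≠ 0)) ∨
      (γ1 = 0 ∧ (γ0 * w + ρ) ^ 2 + a * w ^ 2 ≠ 0)) :
    ∀ (d : List F) (K0 L0 K1 L1 : F), K0 * L1 - L0 * K1 ≠ 0 → (univ.filter (fun k : F =>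
      (Qs a ((K0 * (q0 + q1 * k) + L0) * ((γ0 + γ1 * k) * w + ρ) + K0 * ((γ0 + γ1 * k) * w' + ρ'))
        ((K0 * (q0 + q1 * k) + L0) * w + K0 * w')
        ((K1 * (q0 + q1 * k) + L1) * ((γ0 + γ1 * k) * w + ρ) + K1 * ((γ0 + γ1 * k) * w' + ρ'))
        ((K1 * (q0 + q1 * k) + L1) * w + K1 * w') d).prod = 0)).card ≤ 4 * d.length
  | [], _, _, _, _, _ => by simp [Qs]
  | c :: d, K0, L0, K1, L1, hd => by
    have hd' : K1 * (c * L1 + L0) - L1 * (c * K1 + K0) ≠ 0 := by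
      intro h
      apply hd
      linear_combination -h
    have ih := postZs a γ0 γ1 q0 q1 w' ρ' w ρ hq hdet H d K1 L1 (c * K1 + K0) (c * L1 + L0) hd'
    set K2 := c * K1 + K0 with hK2
    set L2 := c * L1 + L0 with hL2
    have hKL : K2 ≠ 0 ∨ L2 ≠ 0 := by
      by_contra hcon
      push Not at hcon
      apply hd'
      rw [hcon.1, hcon.2]; ring
    have hQ := postZ a γ0 γ1 q0 q1 w' ρ' w ρ hq hdet H K2 L2 hKL
    have hsub : (univ.filter (fun k : F =>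
      (Qs a ((K0 * (q0 + q1 * k) + L0) * ((γ0 + γ1 * k) * w + ρ) + K0 * ((γ0 + γ1 * k) * w' + ρ'))
        ((K0 * (q0 + q1 * k) + L0) * w + K0 * w')
        ((K1 * (q0 + q1 * k) + L1) * ((γ0 + γ1 * k) * w + ρ) + K1 * ((γ0 + γ1 * k) * w' + ρ'))
        ((K1 * (q0 + q1 * k) + L1) * w + K1 * w') (c :: d)).prod = 0)) ⊆
        (univ.filter (fun k : F =>
      ((K2 * (q0 + q1 * k) + L2) * ((γ0 + γ1 * k) * w + ρ) + K2 * ((γ0 + γ1 * k) * w' + ρ')) ^ 2 +
        a * ((K2 * (q0 + q1 * k) + L2) * w + K2 * w') ^ 2 = 0)) ∪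
        (univ.filter (fun k : F =>
      (Qs a ((K1 * (q0 + q1 * k) + L1) * ((γ0 + γ1 * k) * w + ρ) + K1 * ((γ0 + γ1 * k) * w' + ρ'))
        ((K1 * (q0 + q1 * k) + L1) * w + K1 * w')
        ((K2 * (q0 + q1 * k) + L2) * ((γ0 + γ1 * k) * w + ρ) + K2 * ((γ0 + γ1 * k) * w' + ρ'))
        ((K2 * (q0 + q1 * k) + L2) * w + K2 * w') d).prod = 0)) := by
      intro k hk
      rw [mem_filter, Qs, List.prod_cons] at hk
      rw [mem_union, mem_filter, mem_filter]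
      have e1 : c * ((K1 * (q0 + q1 * k) + L1) * ((γ0 + γ1 * k) * w + ρ) +
          K1 * ((γ0 + γ1 * k) * w' + ρ')) + ((K0 * (q0 + q1 * k) + L0) * ((γ0 + γ1 * k) * w + ρ) +
          K0 * ((γ0 + γ1 * k) * w' + ρ')) = (K2 * (q0 + q1 * k) + L2) * ((γ0 + γ1 * k) * w + ρ) +
          K2 * ((γ0 + γ1 * k) * w' + ρ') := by rw [hK2, hL2]; ring
      have e2 : c * ((K1 * (q0 + q1 * k) + L1) * w + K1 * w') + ((K0 * (q0 + q1 * k) + L0) * w +
          K0 * w') = (K2 * (q0 + q1 * k) + L2) * w + K2 * w' := by rw [hK2, hL2]; ring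
      rw [e1, e2] at hk
      rcases mul_eq_zero.1 hk.2 with h | h
      · exact Or.inl ⟨mem_univ _, h⟩
      · exact Or.inr ⟨mem_univ _, h⟩
    have := (card_le_card hsub).trans (card_union_le _ _)
    rw [List.length_cons]
    omega

end field

section ring

variable {R : Type*} [CommRing R]

lemma EnLin (g : R) : ∀ (e : List R) (y0 z0 y1 z1 : R),
    En (g * y0 + z0) y0 (g * y1 + z1) y1 e =
      (g * (En y0 z0 y1 z1 e).1 + (En y0 z0 y1 z1 e).2.1, (En y0 z0 y1 z1 e).1,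
        g * (En y0 z0 y1 z1 e).2.2.1 + (En y0 z0 y1 z1 e).2.2.2, (En y0 z0 y1 z1 e).2.2.1)
  | [], _, _, _, _ => rfl
  | c :: e, y0, z0, y1, z1 => by
    rw [En, En, show c * (g * y1 + z1) + (g * y0 + z0) = g * (c * y1 + y0) + (c * z1 + z0) by ring,
      EnLin g e]

lemma En_mem (a : R) : ∀ (cs : List R) (x0 y0 x1 y1 : R), cs ≠ [] →
    ((En x0 y0 x1 y1 cs).2.2.1 ^ 2 + a * (En x0 y0 x1 y1 cs).2.2.2 ^ 2) ∈ Qs a x0 y0 x1 y1 cs
  | [], _, _, _, _, h => absurd rfl h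
  | [c], x0, y0, x1, y1, _ => by simp [Qs, En]
  | c :: c' :: cs, x0, y0, x1, y1, _ => by
    rw [Qs, List.mem_cons]
    right
    exact En_mem a (c' :: cs) _ _ _ _ (by simp)

end ring

section field2

variable {F : Type*} [Field F] [Fintype F] [DecidableEq F]

theorem zerosPath (a γ0 γ1 q0 q1 : F) (e d : List F) (w' ρ' w ρ : F)
    (hE : En 0 1 1 0 e = (w', ρ', w, ρ)) (hq : q1 ≠ 0)
    (H : (γ1 ≠ 0 ∧ (w = 0 → q1 * ρ + γ1 * w' ≠ 0)) ∨
      (γ1 = 0 ∧ (Qs a 0 1 1 0 (γ0 :: e)).prod ≠ 0)) :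
    (univ.filter (fun k : F => (Qs a 0 1 1 0
      ((γ0 + γ1 * k) :: (e ++ (q0 + q1 * k) :: d))).prod = 0)).card ≤
        2 * (e.length + 1) + 4 * (d.length + 1) := by
  have hdet2 := En_det e (0 : F) 1 1 0 (by ring)
  rw [hE] at hdet2
  have hdet : w' * ρ - ρ' * w ≠ 0 := by
    intro h
    have h2 : (w' * ρ - w * ρ') ^ 2 = 1 := hdet2
    rw [show w' * ρ - w * ρ' = 0 by linear_combination h] at h2
    norm_num at h2
  -- the end of the first part
  have hEk : ∀ g : F, En 0 1 1 0 (g :: e) = (g * w' + ρ', w', g * w + ρ, w) := by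
    intro g
    rw [En]
    have h := EnLin g e 0 1 1 0
    rw [hE] at h
    simpa using h
  have hB : γ1 = 0 ∧ (Qs a 0 1 1 0 (γ0 :: e)).prod ≠ 0 →
      (γ1 = 0 ∧ (γ0 * w + ρ) ^ 2 + a * w ^ 2 ≠ 0) := by
    rintro ⟨h1, h2⟩
    refine ⟨h1, ?_⟩
    have h3 := En_mem a (γ0 :: e) 0 1 1 0 (by simp)
    rw [hEk γ0] at h3
    intro h4
    have h5 : (γ0 * w + ρ) ^ 2 + a * w ^ 2 ∈ Qs a 0 1 1 0 (γ0 :: e) := h3
    rw [h4] at h5
    exact h2 (List.prod_eq_zero h5)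
  have H' : (γ1 ≠ 0 ∧ (w = 0 → q1 * ρ + γ1 * w' ≠ 0)) ∨
      (γ1 = 0 ∧ (γ0 * w + ρ) ^ 2 + a * w ^ 2 ≠ 0) := H.imp id hB
  -- zeros of the first part
  have hpre : (univ.filter (fun k : F => (Qs a 0 1 1 0 ((γ0 + γ1 * k) :: e)).prod = 0)).card ≤
      2 * (e.length + 1) := by
    rcases H with ⟨h1, -⟩ | ⟨h1, h2⟩
    · have h3 := preZ a γ0 γ1 h1 e 0 1 1 0 (by norm_num)
      have h4 : (univ.filter (fun k : F => (γ0 + γ1 * k) ^ 2 + a = 0)).card ≤ 2 :=
        zc2 _ (γ0 ^ 2 + a) (2 * γ0 * γ1) (γ1 ^ 2) (fun k => by ring)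
          (Or.inr (Or.inr (pow_ne_zero 2 h1)))
      have hsub : (univ.filter (fun k : F => (Qs a 0 1 1 0 ((γ0 + γ1 * k) :: e)).prod = 0)) ⊆
          (univ.filter (fun k : F => (γ0 + γ1 * k) ^ 2 + a = 0)) ∪ (univ.filter (fun k =>
          (Qs a ((γ0 + γ1 * k) * 0 + 1) 0 ((γ0 + γ1 * k) * 1 + 0) 1 e).prod = 0)) := by
        intro k hk
        rw [mem_filter, Qs, List.prod_cons] at hk
        rw [mem_union, mem_filter, mem_filter]
        rcases mul_eq_zero.1 hk.2 with h | h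
        · left
          refine ⟨mem_univ _, ?_⟩
          linear_combination h
        · right
          refine ⟨mem_univ _, ?_⟩
          simpa using h
      have := (card_le_card hsub).trans (card_union_le _ _)
      omega
    · rw [h1]
      have : (univ.filter (fun k : F => (Qs a 0 1 1 0 ((γ0 + 0 * k) :: e)).prod = 0)) = ∅ := by
        rw [filter_eq_empty_iff]
        intro k _
        rw [zero_mul, add_zero]
        exact h2
      rw [this]
      simp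
  have hpost := postZs a γ0 γ1 q0 q1 w' ρ' w ρ hq hdet H' d 0 1 1 0 (by norm_num)
  have hmid := postZ a γ0 γ1 q0 q1 w' ρ' w ρ hq hdet H' 1 0 (Or.inl one_ne_zero)
  have hsub : (univ.filter (fun k : F => (Qs a 0 1 1 0
      ((γ0 + γ1 * k) :: (e ++ (q0 + q1 * k) :: d))).prod = 0)) ⊆
      (univ.filter (fun k : F => (Qs a 0 1 1 0 ((γ0 + γ1 * k) :: e)).prod = 0)) ∪
      ((univ.filter (fun k : F =>
        ((1 * (q0 + q1 * k) + 0) * ((γ0 + γ1 * k) * w + ρ) + 1 * ((γ0 + γ1 * k) * w' + ρ')) ^ 2 +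
        a * ((1 * (q0 + q1 * k) + 0) * w + 1 * w') ^ 2 = 0)) ∪
      (univ.filter (fun k : F =>
      (Qs a ((0 * (q0 + q1 * k) + 1) * ((γ0 + γ1 * k) * w + ρ) + 0 * ((γ0 + γ1 * k) * w' + ρ'))
        ((0 * (q0 + q1 * k) + 1) * w + 0 * w')
        ((1 * (q0 + q1 * k) + 0) * ((γ0 + γ1 * k) * w + ρ) + 1 * ((γ0 + γ1 * k) * w' + ρ'))
        ((1 * (q0 + q1 * k) + 0) * w + 1 * w') d).prod = 0))) := by
    intro k hk
    rw [mem_filter, ← List.cons_append, Qs_append, hEk, List.prod_append, Qs, List.prod_cons] at hk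
    rw [mem_union, mem_union, mem_filter, mem_filter, mem_filter]
    rcases mul_eq_zero.1 hk.2 with h | h
    · exact Or.inl ⟨mem_univ _, h⟩
    · right
      rcases mul_eq_zero.1 h with h | h
      · left
        refine ⟨mem_univ _, ?_⟩
        linear_combination h
      · right
        refine ⟨mem_univ _, ?_⟩
        rw [show (0 * (q0 + q1 * k) + 1) * ((γ0 + γ1 * k) * w + ρ) + 0 * ((γ0 + γ1 * k) * w' + ρ') =
          (γ0 + γ1 * k) * w + ρ by ring, show (0 * (q0 + q1 * k) + 1) * w + 0 * w' = w by ring,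
          show (1 * (q0 + q1 * k) + 0) * ((γ0 + γ1 * k) * w + ρ) + 1 * ((γ0 + γ1 * k) * w' + ρ') =
          (q0 + q1 * k) * ((γ0 + γ1 * k) * w + ρ) + ((γ0 + γ1 * k) * w' + ρ') by ring,
          show (1 * (q0 + q1 * k) + 0) * w + 1 * w' = (q0 + q1 * k) * w + w' by ring]
        exact h
  have := (card_le_card hsub).trans ((card_union_le _ _).trans (Nat.add_le_add_left
    (card_union_le _ _) _))
  omega

end field2

end Pool.Agent.Helper8.Mono
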